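import Pool.Agent.X33.Fer

set_option autoImplicit false
set_option exponentiation.threshold 600

/-!
# Certificates for the numbers `k * (k + 1) ^ φ(n - k) + 1`

The kernel computations (Fermat test with base `2`, totient function) are those of
`Pool.Agent.X33.Fer`.
-/

namespace Pool.Agent.N682.KK

open Pool.Agent.X33

/-- the number of the problem -/
def num (n k : ℕ) : ℕ := k * (k + 1) ^ (n - k).totient + 1

/-- the number of the problem, for kernel computations -/
noncomputable def numK (n k : ℕ) : ℕ :=
  Nat.add (Nat.mul k (Nat.pow (Nat.succ k) (tot (Nat.sub n k)))) 1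

theorem numK_eq (n k : ℕ) (h : k < n) : numK n k = num n k := by
  have h1 : numK n k = k * (k + 1) ^ (tot (n - k)) + 1 := rfl
  rw [h1, tot_eq _ (by omega), num]

/-- Fermat test for the number `num n k` -/
noncomputable def fk (n k c : ℕ) : Bool := Nat.ble (Nat.succ k) n && ferFail (numK n k) c

theorem fk_spec (n k c : ℕ) (h : fk n k c = true) : ¬ (num n k).Prime := by
  unfold fk at h
  rw [Bool.and_eq_true] at h
  have h1 : k + 1 ≤ n := Nat.le_of_ble_eq_true h.1
  rw [← numK_eq n k (by omega)]
  exact not_prime_of_ferFail _ c h.2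

/-- the entries of the list which are not `0` are proper divisors of `num n a`, `num n (a+1)`, ... -/
noncomputable def chk (n : ℕ) : ℕ → List ℕ → Bool := fun a l =>
  List.rec (motive := fun _ => ℕ → Bool) (fun _ => true)
    (fun d _ ih a => (Nat.beq d 0 || (Nat.ble (Nat.succ a) n && divOK (numK n a) d)) &&
      ih (Nat.succ a)) l a

theorem chk_cons (n a d : ℕ) (l : List ℕ) : chk n a (d :: l) =
    ((Nat.beq d 0 || (Nat.ble (Nat.succ a) n && divOK (numK n a) d)) && chk n (a + 1) l) := rfl

theorem chk_spec (n a : ℕ) (l : List ℕ) (h : chk n a l = true) (i : ℕ) (hi : i < l.length)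
    (h0 : l.getD i 0 ≠ 0) : ¬ (num n (a + i)).Prime := by
  induction l generalizing a i with
  | nil => simp at hi
  | cons d l ih =>
    rw [chk_cons, Bool.and_eq_true] at h
    cases i with
    | zero =>
      have hd : d ≠ 0 := by simpa using h0
      have h1 : Nat.beq d 0 = false := by
        rw [← Bool.not_eq_true, Nat.beq_eq]; exact hd
      rw [h1, Bool.false_or, Bool.and_eq_true] at h
      have h2 : a + 1 ≤ n := Nat.le_of_ble_eq_true h.1.1
      rw [add_zero, ← numK_eq n a (by omega)]
      exact divOK_spec _ _ h.1.2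
    | succ i =>
      have := ih (a + 1) h.2 i (by simpa using hi) (by simpa using h0)
      rwa [show a + (i + 1) = a + 1 + i by ring]

theorem nil_ok (n : ℕ) : ∀ k ∈ ([] : List ℕ), ¬ (num n k).Prime := by
  intro k hk
  exact absurd hk List.not_mem_nil

theorem cons_ok {n k : ℕ} {l : List ℕ} (h : ¬ (num n k).Prime)
    (hl : ∀ k ∈ l, ¬ (num n k).Prime) : ∀ j ∈ k :: l, ¬ (num n j).Prime := by
  intro j hj
  rcases List.mem_cons.1 hj with rfl | hj
  · exact h
  · exact hl j hj

theorem append_ok {n : ℕ} {l m : List ℕ} (h : ∀ k ∈ l, ¬ (num n k).Prime)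
    (hl : ∀ k ∈ m, ¬ (num n k).Prime) : ∀ j ∈ l ++ m, ¬ (num n j).Prime := by
  intro j hj
  rcases List.mem_append.1 hj with hj | hj
  · exact h j hj
  · exact hl j hj

theorem range_of (n a b : ℕ) (l m : List ℕ) (h1 : chk n a l = true) (h2 : cov a l m = true)
    (h3 : ∀ k ∈ m, ¬ (num n k).Prime) (hl : a + l.length = b) :
    ∀ k, a ≤ k → k < b → ¬ (num n k).Prime := by
  intro k hk1 hk2
  obtain ⟨i, rfl⟩ := Nat.exists_eq_add_of_le hk1
  by_cases h : l.getD i 0 = 0
  · exact h3 _ (cov_spec a l m h2 i (by omega) h)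
  · exact chk_spec n a l h1 i (by omega) h

end Pool.Agent.N682.KK
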