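import Pool.Agent.N682.KK.Fer2

set_option autoImplicit false
set_option maxRecDepth 100000
set_option linter.defProp false

/-! Certificates for `k * (k + 1) ^ φ(7588 - k) + 1` with `1 ≤ k < 242`. -/

namespace Pool.Agent.N682.KK.Z00

def f2 : fk 7588 2 12 = true := by decide +kernel
def f3 : fk 7588 3 23 = true := by decide +kernel
def f12 : fk 7588 12 28 = true := by decide +kernel
def f13 : fk 7588 13 30 = true := by decide +kernel
def f18 : fk 7588 18 26 = true := by decide +kernel
def f20 : fk 7588 20 29 = true := by decide +kernel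
def f23 : fk 7588 23 51 = true := by decide +kernel
def f24 : fk 7588 24 33 = true := by decide +kernel
def f30 : fk 7588 30 37 = true := by decide +kernel
def f34 : fk 7588 34 26 = true := by decide +kernel
def f36 : fk 7588 36 38 = true := by decide +kernel
def f42 : fk 7588 42 32 = true := by decide +kernel
def f43 : fk 7588 43 43 = true := by decide +kernel
def f63 : fk 7588 63 60 = true := by decide +kernel
def f64 : fk 7588 64 26 = true := by decide +kernel
def f66 : fk 7588 66 45 = true := by decide +kernel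
def f85 : fk 7588 85 61 = true := by decide +kernel
def f91 : fk 7588 91 52 = true := by decide +kernel
def f96 : fk 7588 96 49 = true := by decide +kernel
def f104 : fk 7588 104 50 = true := by decide +kernel
def f106 : fk 7588 106 31 = true := by decide +kernel
def f111 : fk 7588 111 100 = true := by decide +kernel
def f112 : fk 7588 112 29 = true := by decide +kernel
def f114 : fk 7588 114 49 = true := by decide +kernel
def f129 : fk 7588 129 103 = true := by decide +kernel
def f131 : fk 7588 131 103 = true := by decide +kernel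
def f137 : fk 7588 137 104 = true := by decide +kernel
def f144 : fk 7588 144 53 = true := by decide +kernel
def f147 : fk 7588 147 90 = true := by decide +kernel
def f156 : fk 7588 156 53 = true := by decide +kernel
def f158 : fk 7588 158 43 = true := by decide +kernel
def f160 : fk 7588 160 36 = true := by decide +kernel
def f163 : fk 7588 163 52 = true := by decide +kernel
def f166 : fk 7588 166 36 = true := by decide +kernel
def f168 : fk 7588 168 37 = true := by decide +kernel
def f177 : fk 7588 177 109 = true := by decide +kernel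
def f192 : fk 7588 192 54 = true := by decide +kernel
def f198 : fk 7588 198 45 = true := by decide +kernel
def f199 : fk 7588 199 74 = true := by decide +kernel
def f200 : fk 7588 200 56 = true := by decide +kernel
def f210 : fk 7588 210 44 = true := by decide +kernel
def f214 : fk 7588 214 38 = true := by decide +kernel
def f215 : fk 7588 215 110 = true := by decide +kernel
def f225 : fk 7588 225 109 = true := by decide +kernel
def f229 : fk 7588 229 69 = true := by decide +kernel
def f232 : fk 7588 232 38 = true := by decide +kernel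
def f241 : fk 7588 241 73 = true := by decide +kernel

theorem fer : ∀ k ∈ [2, 3, 12, 13, 18, 20, 23, 24, 30, 34, 36, 42, 43, 63, 64, 66, 85, 91, 96, 104, 106, 111, 112, 114, 129, 131, 137, 144, 147, 156, 158, 160, 163, 166, 168, 177, 192, 198, 199, 200, 210, 214, 215, 225, 229, 232, 241], ¬ (num 7588 k).Prime :=
  cons_ok (fk_spec _ _ _ f2) <|
  cons_ok (fk_spec _ _ _ f3) <|
  cons_ok (fk_spec _ _ _ f12) <|
  cons_ok (fk_spec _ _ _ f13) <|
  cons_ok (fk_spec _ _ _ f18) <|
  cons_ok (fk_spec _ _ _ f20) <|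
  cons_ok (fk_spec _ _ _ f23) <|
  cons_ok (fk_spec _ _ _ f24) <|
  cons_ok (fk_spec _ _ _ f30) <|
  cons_ok (fk_spec _ _ _ f34) <|
  cons_ok (fk_spec _ _ _ f36) <|
  cons_ok (fk_spec _ _ _ f42) <|
  cons_ok (fk_spec _ _ _ f43) <|
  cons_ok (fk_spec _ _ _ f63) <|
  cons_ok (fk_spec _ _ _ f64) <|
  cons_ok (fk_spec _ _ _ f66) <|
  cons_ok (fk_spec _ _ _ f85) <|
  cons_ok (fk_spec _ _ _ f91) <|
  cons_ok (fk_spec _ _ _ f96) <|
  cons_ok (fk_spec _ _ _ f104) <|
  cons_ok (fk_spec _ _ _ f106) <|
  cons_ok (fk_spec _ _ _ f111) <|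
  cons_ok (fk_spec _ _ _ f112) <|
  cons_ok (fk_spec _ _ _ f114) <|
  cons_ok (fk_spec _ _ _ f129) <|
  cons_ok (fk_spec _ _ _ f131) <|
  cons_ok (fk_spec _ _ _ f137) <|
  cons_ok (fk_spec _ _ _ f144) <|
  cons_ok (fk_spec _ _ _ f147) <|
  cons_ok (fk_spec _ _ _ f156) <|
  cons_ok (fk_spec _ _ _ f158) <|
  cons_ok (fk_spec _ _ _ f160) <|
  cons_ok (fk_spec _ _ _ f163) <|
  cons_ok (fk_spec _ _ _ f166) <|
  cons_ok (fk_spec _ _ _ f168) <|
  cons_ok (fk_spec _ _ _ f177) <|
  cons_ok (fk_spec _ _ _ f192) <|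
  cons_ok (fk_spec _ _ _ f198) <|
  cons_ok (fk_spec _ _ _ f199) <|
  cons_ok (fk_spec _ _ _ f200) <|
  cons_ok (fk_spec _ _ _ f210) <|
  cons_ok (fk_spec _ _ _ f214) <|
  cons_ok (fk_spec _ _ _ f215) <|
  cons_ok (fk_spec _ _ _ f225) <|
  cons_ok (fk_spec _ _ _ f229) <|
  cons_ok (fk_spec _ _ _ f232) <|
  cons_ok (fk_spec _ _ _ f241) <|
  nil_ok 7588

theorem rng : ∀ k, 1 ≤ k → k < 242 → ¬ (num 7588 k).Prime :=
  range_of 7588 1 242 [193, 0, 0, 109, 23, 29, 1058143, 126713, 23833, 103, 181, 0, 0, 276869, 667519, 7457, 71, 0, 11, 0, 42793, 89, 0, 0, 429929, 317, 3769, 11, 509, 0, 19, 283, 19, 0, 29, 0, 317, 1523, 11, 47, 5, 0, 0, 797, 14723, 11, 17, 37, 2137, 11, 11, 61, 19, 101, 17, 2149867, 23, 227, 223, 19, 11, 19289, 0, 0, 556487, 0, 173, 1031, 602887, 1091, 19, 17, 173, 139, 61, 191, 101, 8852057, 269, 7, 5, 239, 6053, 787, 0, 17, 547, 13, 59, 1013, 0, 179, 14767, 139, 257, 0, 19, 89611, 1145281, 349, 5, 1109, 647, 0, 11, 0, 57923, 181, 29, 811, 0, 0, 15971, 0, 7, 11, 3449, 1327,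 1115923, 17, 1229, 37, 11, 50053, 449, 173, 11, 11, 0, 31, 0, 146849, 181, 23, 31, 1663, 0, 73, 89, 191, 59, 491, 241, 0, 19, 47, 0, 2111, 839, 29, 11, 5923, 173137, 29, 19, 0, 7, 0, 137, 0, 43, 113, 0, 7, 1117, 0, 2053, 0, 229, 47, 47, 125813, 375059, 424001, 37, 23, 0, 11, 19, 167, 271, 41, 319279, 19, 47, 4238761, 29, 59, 1871, 587, 79, 0, 54815081, 11, 11, 653, 71, 0, 0, 0, 397, 281, 122209, 13171577, 13, 5, 127, 101, 31, 0, 19, 127, 4609321, 0, 0, 11, 911, 383, 189733, 71, 107, 11, 31, 1289, 0, 11, 181, 7867309, 0, 151, 251, 0, 239, 337, 61, 193, 103, 107, 17, 107, 0] _ (by decide +kernel) (by decide +kernel) fer (by decide +kernel)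

end Pool.Agent.N682.KK.Z00
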