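import Pool.Agent.N682.KK.Fer2

set_option autoImplicit false
set_option maxRecDepth 100000
set_option linter.defProp false

/-! Certificates for `k * (k + 1) ^ φ(7588 - k) + 1` with `242 ≤ k < 408`. -/

namespace Pool.Agent.N682.KK.Z01

def f243 : fk 7588 243 84 = true := by decide +kernel
def f245 : fk 7588 245 98 = true := by decide +kernel
def f256 : fk 7588 256 35 = true := by decide +kernel
def f265 : fk 7588 265 77 = true := by decide +kernel
def f271 : fk 7588 271 77 = true := by decide +kernel
def f292 : fk 7588 292 37 = true := by decide +kernel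
def f295 : fk 7588 295 62 = true := by decide +kernel
def f301 : fk 7588 301 67 = true := by decide +kernel
def f328 : fk 7588 328 29 = true := by decide +kernel
def f329 : fk 7588 329 95 = true := by decide +kernel
def f330 : fk 7588 330 56 = true := by decide +kernel
def f331 : fk 7588 331 76 = true := by decide +kernel
def f334 : fk 7588 334 36 = true := by decide +kernel
def f335 : fk 7588 335 119 = true := by decide +kernel
def f336 : fk 7588 336 50 = true := by decide +kernel
def f340 : fk 7588 340 40 = true := by decide +kernel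
def f345 : fk 7588 345 120 = true := by decide +kernel
def f350 : fk 7588 350 46 = true := by decide +kernel
def f371 : fk 7588 371 104 = true := by decide +kernel
def f372 : fk 7588 372 54 = true := by decide +kernel
def f376 : fk 7588 376 41 = true := by decide +kernel
def f389 : fk 7588 389 116 = true := by decide +kernel
def f395 : fk 7588 395 122 = true := by decide +kernel
def f396 : fk 7588 396 57 = true := by decide +kernel
def f406 : fk 7588 406 33 = true := by decide +kernel
def f407 : fk 7588 407 119 = true := by decide +kernel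

theorem fer : ∀ k ∈ [243, 245, 256, 265, 271, 292, 295, 301, 328, 329, 330, 331, 334, 335, 336, 340, 345, 350, 371, 372, 376, 389, 395, 396, 406, 407], ¬ (num 7588 k).Prime :=
  cons_ok (fk_spec _ _ _ f243) <|
  cons_ok (fk_spec _ _ _ f245) <|
  cons_ok (fk_spec _ _ _ f256) <|
  cons_ok (fk_spec _ _ _ f265) <|
  cons_ok (fk_spec _ _ _ f271) <|
  cons_ok (fk_spec _ _ _ f292) <|
  cons_ok (fk_spec _ _ _ f295) <|
  cons_ok (fk_spec _ _ _ f301) <|
  cons_ok (fk_spec _ _ _ f328) <|
  cons_ok (fk_spec _ _ _ f329) <|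
  cons_ok (fk_spec _ _ _ f330) <|
  cons_ok (fk_spec _ _ _ f331) <|
  cons_ok (fk_spec _ _ _ f334) <|
  cons_ok (fk_spec _ _ _ f335) <|
  cons_ok (fk_spec _ _ _ f336) <|
  cons_ok (fk_spec _ _ _ f340) <|
  cons_ok (fk_spec _ _ _ f345) <|
  cons_ok (fk_spec _ _ _ f350) <|
  cons_ok (fk_spec _ _ _ f371) <|
  cons_ok (fk_spec _ _ _ f372) <|
  cons_ok (fk_spec _ _ _ f376) <|
  cons_ok (fk_spec _ _ _ f389) <|
  cons_ok (fk_spec _ _ _ f395) <|
  cons_ok (fk_spec _ _ _ f396) <|
  cons_ok (fk_spec _ _ _ f406) <|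
  cons_ok (fk_spec _ _ _ f407) <|
  nil_ok 7588

theorem rng : ∀ k, 242 ≤ k → k < 408 → ¬ (num 7588 k).Prime :=
  range_of 7588 242 408 [569, 0, 1931, 0, 5, 67, 11, 105541, 41, 260713, 109, 557, 29, 2591, 0, 29, 1069, 67, 43, 257, 373, 1453, 127, 0, 21627167, 101, 194203, 14537, 11, 0, 139, 1434133, 608339, 2027, 263071, 107, 19, 811, 1129, 5, 38593, 349, 6130429, 379, 2381, 431, 19403, 593, 4663, 19485377, 0, 179, 29, 0, 13, 661, 307, 383, 19, 0, 17581, 29, 6126937, 11, 199, 37, 16097, 38921, 67, 42017, 1553, 4409, 223, 853, 19, 127, 5237, 4903, 383, 30097, 283, 29, 33258781, 31, 5, 11, 0, 0, 0, 0, 41, 1759, 0, 0, 0, 3373, 15299, 150893, 0, 5, 23, 11, 19, 0, 7, 26183, 47, 19668833, 0, 204887, 228461, 108191, 33013, 359, 31, 293, 53, 77100851, 11, 6737, 23, 1087, 31, 21914801, 97, 7, 593, 11, 47, 0, 0, 127, 163, 17, 0, 53, 53, 277, 11, 5, 23, 19, 107, 277, 613, 17, 19, 0, 150869, 37, 251, 11, 107, 0, 0, 349, 23557, 104999, 877, 5, 233, 91199, 829, 14733643, 0, 0] _ (by decide +kernel) (by decide +kernel)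 fer (by decide +kernel)

end Pool.Agent.N682.KK.Z01
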