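import Pool.Agent.N682.KK.Fer2

set_option autoImplicit false
set_option maxRecDepth 100000
set_option linter.defProp false

/-! Certificates for `k * (k + 1) ^ φ(7588 - k) + 1` with `408 ≤ k < 595`. -/

namespace Pool.Agent.N682.KK.Z02

def f412 : fk 7588 412 36 = true := by decide +kernel
def f419 : fk 7588 419 120 = true := by decide +kernel
def f421 : fk 7588 421 82 = true := by decide +kernel
def f435 : fk 7588 435 117 = true := by decide +kernel
def f436 : fk 7588 436 41 = true := by decide +kernel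
def f444 : fk 7588 444 57 = true := by decide +kernel
def f448 : fk 7588 448 27 = true := by decide +kernel
def f460 : fk 7588 460 38 = true := by decide +kernel
def f463 : fk 7588 463 63 = true := by decide +kernel
def f464 : fk 7588 464 57 = true := by decide +kernel
def f468 : fk 7588 468 49 = true := by decide +kernel
def f480 : fk 7588 480 62 = true := by decide +kernel
def f496 : fk 7588 496 42 = true := by decide +kernel
def f497 : fk 7588 497 107 = true := by decide +kernel
def f498 : fk 7588 498 50 = true := by decide +kernel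
def f499 : fk 7588 499 78 = true := by decide +kernel
def f508 : fk 7588 508 33 = true := by decide +kernel
def f512 : fk 7588 512 60 = true := by decide +kernel
def f515 : fk 7588 515 114 = true := by decide +kernel
def f516 : fk 7588 516 55 = true := by decide +kernel
def f526 : fk 7588 526 38 = true := by decide +kernel
def f529 : fk 7588 529 77 = true := by decide +kernel
def f540 : fk 7588 540 63 = true := by decide +kernel
def f543 : fk 7588 543 100 = true := by decide +kernel
def f544 : fk 7588 544 42 = true := by decide +kernel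
def f573 : fk 7588 573 95 = true := by decide +kernel
def f576 : fk 7588 576 63 = true := by decide +kernel
def f577 : fk 7588 577 78 = true := by decide +kernel
def f578 : fk 7588 578 51 = true := by decide +kernel
def f584 : fk 7588 584 59 = true := by decide +kernel
def f590 : fk 7588 590 63 = true := by decide +kernel
def f592 : fk 7588 592 38 = true := by decide +kernel
def f594 : fk 7588 594 58 = true := by decide +kernel

theorem fer : ∀ k ∈ [412, 419, 421, 435, 436, 444, 448, 460, 463, 464, 468, 480, 496, 497, 498, 499, 508, 512, 515, 516, 526, 529, 540, 543, 544, 573, 576, 577, 578, 584, 590, 592, 594], ¬ (num 7588 k).Prime :=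
  cons_ok (fk_spec _ _ _ f412) <|
  cons_ok (fk_spec _ _ _ f419) <|
  cons_ok (fk_spec _ _ _ f421) <|
  cons_ok (fk_spec _ _ _ f435) <|
  cons_ok (fk_spec _ _ _ f436) <|
  cons_ok (fk_spec _ _ _ f444) <|
  cons_ok (fk_spec _ _ _ f448) <|
  cons_ok (fk_spec _ _ _ f460) <|
  cons_ok (fk_spec _ _ _ f463) <|
  cons_ok (fk_spec _ _ _ f464) <|
  cons_ok (fk_spec _ _ _ f468) <|
  cons_ok (fk_spec _ _ _ f480) <|
  cons_ok (fk_spec _ _ _ f496) <|
  cons_ok (fk_spec _ _ _ f497) <|
  cons_ok (fk_spec _ _ _ f498) <|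
  cons_ok (fk_spec _ _ _ f499) <|
  cons_ok (fk_spec _ _ _ f508) <|
  cons_ok (fk_spec _ _ _ f512) <|
  cons_ok (fk_spec _ _ _ f515) <|
  cons_ok (fk_spec _ _ _ f516) <|
  cons_ok (fk_spec _ _ _ f526) <|
  cons_ok (fk_spec _ _ _ f529) <|
  cons_ok (fk_spec _ _ _ f540) <|
  cons_ok (fk_spec _ _ _ f543) <|
  cons_ok (fk_spec _ _ _ f544) <|
  cons_ok (fk_spec _ _ _ f573) <|
  cons_ok (fk_spec _ _ _ f576) <|
  cons_ok (fk_spec _ _ _ f577) <|
  cons_ok (fk_spec _ _ _ f578) <|
  cons_ok (fk_spec _ _ _ f584) <|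
  cons_ok (fk_spec _ _ _ f590) <|
  cons_ok (fk_spec _ _ _ f592) <|
  cons_ok (fk_spec _ _ _ f594) <|
  nil_ok 7588

theorem rng : ∀ k, 408 ≤ k → k < 595 → ¬ (num 7588 k).Prime :=
  range_of 7588 408 595 [23, 7, 29, 29, 0, 823, 229, 29, 337, 47, 31, 0, 109, 0, 760457, 929, 106433, 101, 17, 1553, 6313337, 11719, 7, 59, 2917, 967, 22637, 0, 0, 380269, 83265229, 9439, 4283, 229, 271, 71, 0, 167, 5, 67, 0, 71, 227, 93553, 43, 2161, 30869, 37, 1109, 967, 127, 2879, 0, 5, 173, 0, 0, 103, 66809, 809, 0, 33457, 307, 234599, 2218277, 94009, 167, 43, 173, 894779, 2687, 11, 0, 53, 59, 988243, 401, 30497, 97, 24151, 97549, 83, 219931, 3761, 61, 107, 281, 193, 0, 0, 0, 0, 7, 181, 31, 23, 1831, 223, 17, 2203, 0, 19, 13778461, 71, 0, 173, 13499, 0, 0, 13, 109, 11, 683, 84947, 2411, 23, 1063, 10453, 0, 2087, 7, 0, 11, 185131, 6190783, 373, 239, 7, 199, 53, 463, 251, 0, 53, 103, 0, 0, 59, 241, 11, 23, 137, 929, 269, 193, 107, 2072129, 29, 7, 103, 11, 1973, 587, 5, 17, 7, 29, 1273919, 5, 11, 1871, 31, 7, 7883, 239,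 0, 811, 47, 0, 0, 0, 17, 25799, 607, 37, 27773, 0, 11, 5701, 347, 364993, 29, 0, 17, 0, 671609, 0] _ (by decide +kernel) (by decide +kernel) fer (by decide +kernel)

end Pool.Agent.N682.KK.Z02
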