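import Pool.Agent.N682.KK.Fer2

set_option autoImplicit false
set_option maxRecDepth 100000
set_option linter.defProp false

/-! Certificates for `k * (k + 1) ^ φ(7588 - k) + 1` with `595 ≤ k < 740`. -/

namespace Pool.Agent.N682.KK.Z03

def f597 : fk 7588 597 126 = true := by decide +kernel
def f600 : fk 7588 600 63 = true := by decide +kernel
def f616 : fk 7588 616 36 = true := by decide +kernel
def f628 : fk 7588 628 33 = true := by decide +kernel
def f636 : fk 7588 636 57 = true := by decide +kernel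
def f638 : fk 7588 638 51 = true := by decide +kernel
def f645 : fk 7588 645 124 = true := by decide +kernel
def f658 : fk 7588 658 27 = true := by decide +kernel
def f659 : fk 7588 659 115 = true := by decide +kernel
def f675 : fk 7588 675 123 = true := by decide +kernel
def f676 : fk 7588 676 43 = true := by decide +kernel
def f679 : fk 7588 679 72 = true := by decide +kernel
def f683 : fk 7588 683 102 = true := by decide +kernel
def f702 : fk 7588 702 58 = true := by decide +kernel
def f703 : fk 7588 703 64 = true := by decide +kernel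
def f706 : fk 7588 706 40 = true := by decide +kernel
def f707 : fk 7588 707 109 = true := by decide +kernel
def f708 : fk 7588 708 50 = true := by decide +kernel
def f710 : fk 7588 710 60 = true := by decide +kernel
def f717 : fk 7588 717 128 = true := by decide +kernel
def f722 : fk 7588 722 64 = true := by decide +kernel
def f739 : fk 7588 739 85 = true := by decide +kernel

theorem fer : ∀ k ∈ [597, 600, 616, 628, 636, 638, 645, 658, 659, 675, 676, 679, 683, 702, 703, 706, 707, 708, 710, 717, 722, 739], ¬ (num 7588 k).Prime :=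
  cons_ok (fk_spec _ _ _ f597) <|
  cons_ok (fk_spec _ _ _ f600) <|
  cons_ok (fk_spec _ _ _ f616) <|
  cons_ok (fk_spec _ _ _ f628) <|
  cons_ok (fk_spec _ _ _ f636) <|
  cons_ok (fk_spec _ _ _ f638) <|
  cons_ok (fk_spec _ _ _ f645) <|
  cons_ok (fk_spec _ _ _ f658) <|
  cons_ok (fk_spec _ _ _ f659) <|
  cons_ok (fk_spec _ _ _ f675) <|
  cons_ok (fk_spec _ _ _ f676) <|
  cons_ok (fk_spec _ _ _ f679) <|
  cons_ok (fk_spec _ _ _ f683) <|
  cons_ok (fk_spec _ _ _ f702) <|
  cons_ok (fk_spec _ _ _ f703) <|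
  cons_ok (fk_spec _ _ _ f706) <|
  cons_ok (fk_spec _ _ _ f707) <|
  cons_ok (fk_spec _ _ _ f708) <|
  cons_ok (fk_spec _ _ _ f710) <|
  cons_ok (fk_spec _ _ _ f717) <|
  cons_ok (fk_spec _ _ _ f722) <|
  cons_ok (fk_spec _ _ _ f739) <|
  nil_ok 7588

theorem rng : ∀ k, 595 ≤ k → k < 740 → ¬ (num 7588 k).Prime :=
  range_of 7588 595 740 [179, 11, 0, 7, 101573, 0, 17489, 947, 7417, 31, 3518261, 5, 2789, 67, 597271, 19, 1095047, 11, 49710641, 452671, 97, 0, 3257, 10007, 7, 3229, 5, 11, 233, 2351, 2393, 5, 709, 0, 11, 17, 29, 151, 11, 43, 19, 0, 857, 0, 7393, 53, 5, 17, 31, 29, 0, 11, 17, 14731, 1319, 17, 29, 179, 17257, 599, 2063, 18773, 199, 0, 0, 29, 7, 89, 48017, 3373, 179, 557, 89, 11, 3623, 251, 1427, 19759, 13, 31, 0, 0, 9467, 23, 0, 89, 5, 7, 0, 11, 70459, 11149, 227, 31, 17, 223, 6799619, 6131, 409, 167, 1181, 19, 140797, 33619, 10597, 300301, 23, 0, 0, 1021879, 61, 0, 0, 0, 23, 0, 179, 1523, 101879, 37, 751, 337, 0, 1095907, 5189, 389, 11, 0, 119173, 74077, 4276807, 476977, 47, 1783, 13,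 6763, 29, 127, 43, 4363, 22013, 151, 263, 7, 0] _ (by decide +kernel) (by decide +kernel) fer (by decide +kernel)

end Pool.Agent.N682.KK.Z03
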