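import Pool.Agent.N682.KK.Fer2

set_option autoImplicit false
set_option maxRecDepth 100000
set_option linter.defProp false

/-! Certificates for `k * (k + 1) ^ φ(7588 - k) + 1` with `740 ≤ k < 876`. -/

namespace Pool.Agent.N682.KK.Z04

def f741 : fk 7588 741 124 = true := by decide +kernel
def f750 : fk 7588 750 59 = true := by decide +kernel
def f759 : fk 7588 759 128 = true := by decide +kernel
def f770 : fk 7588 770 55 = true := by decide +kernel
def f773 : fk 7588 773 97 = true := by decide +kernel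
def f774 : fk 7588 774 64 = true := by decide +kernel
def f785 : fk 7588 785 128 = true := by decide +kernel
def f795 : fk 7588 795 128 = true := by decide +kernel
def f796 : fk 7588 796 43 = true := by decide +kernel
def f808 : fk 7588 808 34 = true := by decide +kernel
def f811 : fk 7588 811 85 = true := by decide +kernel
def f814 : fk 7588 814 43 = true := by decide +kernel
def f818 : fk 7588 818 52 = true := by decide +kernel
def f819 : fk 7588 819 110 = true := by decide +kernel
def f824 : fk 7588 824 60 = true := by decide +kernel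
def f832 : fk 7588 832 43 = true := by decide +kernel
def f833 : fk 7588 833 88 = true := by decide +kernel
def f866 : fk 7588 866 65 = true := by decide +kernel
def f875 : fk 7588 875 110 = true := by decide +kernel

theorem fer : ∀ k ∈ [741, 750, 759, 770, 773, 774, 785, 795, 796, 808, 811, 814, 818, 819, 824, 832, 833, 866, 875], ¬ (num 7588 k).Prime :=
  cons_ok (fk_spec _ _ _ f741) <|
  cons_ok (fk_spec _ _ _ f750) <|
  cons_ok (fk_spec _ _ _ f759) <|
  cons_ok (fk_spec _ _ _ f770) <|
  cons_ok (fk_spec _ _ _ f773) <|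
  cons_ok (fk_spec _ _ _ f774) <|
  cons_ok (fk_spec _ _ _ f785) <|
  cons_ok (fk_spec _ _ _ f795) <|
  cons_ok (fk_spec _ _ _ f796) <|
  cons_ok (fk_spec _ _ _ f808) <|
  cons_ok (fk_spec _ _ _ f811) <|
  cons_ok (fk_spec _ _ _ f814) <|
  cons_ok (fk_spec _ _ _ f818) <|
  cons_ok (fk_spec _ _ _ f819) <|
  cons_ok (fk_spec _ _ _ f824) <|
  cons_ok (fk_spec _ _ _ f832) <|
  cons_ok (fk_spec _ _ _ f833) <|
  cons_ok (fk_spec _ _ _ f866) <|
  cons_ok (fk_spec _ _ _ f875) <|
  nil_ok 7588

theorem rng : ∀ k, 740 ≤ k → k < 876 → ¬ (num 7588 k).Prime :=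
  range_of 7588 740 876 [242479, 0, 41, 11, 211, 6053, 61, 277, 18553, 2689, 0, 229, 7, 1487, 10273, 19, 39877511, 3511, 29, 0, 53233, 5, 10111, 397, 11287, 1487, 17, 29, 2659, 103, 0, 373, 11093, 0, 0, 115123, 29, 11, 1987, 1019, 6263, 47, 877, 467, 7681, 0, 739, 7, 2659, 293, 10259, 19, 463, 83, 997, 0, 0, 31883, 349, 691, 11, 373, 23, 2131, 41, 29, 5, 71, 0, 11, 103, 0, 8104409, 868993, 0, 419, 103, 29, 0, 0, 11, 24113, 72089, 379, 0, 19, 107, 443, 353, 17, 243227, 911, 0, 0, 17, 81138961, 2579, 865577, 23, 629857, 389, 101, 2011, 23, 83, 23, 5, 1968899, 19, 19, 68669, 19, 27938149, 157, 131, 11, 43, 47, 19181, 53, 11, 139, 80475011, 29, 23599, 353, 0, 270679, 47, 2063, 59, 17, 281, 23633, 97, 0] _ (by decide +kernel) (by decide +kernel) fer (by decide +kernel)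

end Pool.Agent.N682.KK.Z04
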