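import Pool.Agent.N682.KK.Fer2

set_option autoImplicit false
set_option maxRecDepth 100000
set_option linter.defProp false

/-! Certificates for `k * (k + 1) ^ φ(7588 - k) + 1` with `876 ≤ k < 1096`. -/

namespace Pool.Agent.N682.KK.Z05

def f880 : fk 7588 880 39 = true := by decide +kernel
def f913 : fk 7588 913 68 = true := by decide +kernel
def f923 : fk 7588 923 97 = true := by decide +kernel
def f939 : fk 7588 939 126 = true := by decide +kernel
def f940 : fk 7588 940 43 = true := by decide +kernel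
def f942 : fk 7588 942 65 = true := by decide +kernel
def f943 : fk 7588 943 69 = true := by decide +kernel
def f944 : fk 7588 944 58 = true := by decide +kernel
def f954 : fk 7588 954 62 = true := by decide +kernel
def f957 : fk 7588 957 122 = true := by decide +kernel
def f968 : fk 7588 968 52 = true := by decide +kernel
def f979 : fk 7588 979 86 = true := by decide +kernel
def f986 : fk 7588 986 65 = true := by decide +kernel
def f988 : fk 7588 988 32 = true := by decide +kernel
def f992 : fk 7588 992 60 = true := by decide +kernel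
def f996 : fk 7588 996 64 = true := by decide +kernel
def f1002 : fk 7588 1002 62 = true := by decide +kernel
def f1004 : fk 7588 1004 65 = true := by decide +kernel
def f1010 : fk 7588 1010 52 = true := by decide +kernel
def f1014 : fk 7588 1014 61 = true := by decide +kernel
def f1033 : fk 7588 1033 62 = true := by decide +kernel
def f1043 : fk 7588 1043 76 = true := by decide +kernel
def f1052 : fk 7588 1052 60 = true := by decide +kernel
def f1077 : fk 7588 1077 121 = true := by decide +kernel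
def f1088 : fk 7588 1088 48 = true := by decide +kernel
def f1090 : fk 7588 1090 41 = true := by decide +kernel
def f1095 : fk 7588 1095 125 = true := by decide +kernel

theorem fer : ∀ k ∈ [880, 913, 923, 939, 940, 942, 943, 944, 954, 957, 968, 979, 986, 988, 992, 996, 1002, 1004, 1010, 1014, 1033, 1043, 1052, 1077, 1088, 1090, 1095], ¬ (num 7588 k).Prime :=
  cons_ok (fk_spec _ _ _ f880) <|
  cons_ok (fk_spec _ _ _ f913) <|
  cons_ok (fk_spec _ _ _ f923) <|
  cons_ok (fk_spec _ _ _ f939) <|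
  cons_ok (fk_spec _ _ _ f940) <|
  cons_ok (fk_spec _ _ _ f942) <|
  cons_ok (fk_spec _ _ _ f943) <|
  cons_ok (fk_spec _ _ _ f944) <|
  cons_ok (fk_spec _ _ _ f954) <|
  cons_ok (fk_spec _ _ _ f957) <|
  cons_ok (fk_spec _ _ _ f968) <|
  cons_ok (fk_spec _ _ _ f979) <|
  cons_ok (fk_spec _ _ _ f986) <|
  cons_ok (fk_spec _ _ _ f988) <|
  cons_ok (fk_spec _ _ _ f992) <|
  cons_ok (fk_spec _ _ _ f996) <|
  cons_ok (fk_spec _ _ _ f1002) <|
  cons_ok (fk_spec _ _ _ f1004) <|
  cons_ok (fk_spec _ _ _ f1010) <|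
  cons_ok (fk_spec _ _ _ f1014) <|
  cons_ok (fk_spec _ _ _ f1033) <|
  cons_ok (fk_spec _ _ _ f1043) <|
  cons_ok (fk_spec _ _ _ f1052) <|
  cons_ok (fk_spec _ _ _ f1077) <|
  cons_ok (fk_spec _ _ _ f1088) <|
  cons_ok (fk_spec _ _ _ f1090) <|
  cons_ok (fk_spec _ _ _ f1095) <|
  nil_ok 7588

theorem rng : ∀ k, 876 ≤ k → k < 1096 → ¬ (num 7588 k).Prime :=
  range_of 7588 876 1096 [1913, 11, 421, 29, 0, 2693, 11, 613, 823, 13, 911, 167, 601, 1327, 101, 9133, 43, 2393, 721843, 122939, 83, 83, 11, 79, 2777, 2503, 3672037, 179, 163, 4007, 2521, 13, 53, 1871, 11, 43, 29, 0, 17, 37, 23, 23, 223303, 11, 7, 14033, 21191, 0, 19, 1347877, 5, 59, 83, 101, 11, 1213, 11, 73, 7, 1229, 17, 11, 1055731, 0, 0, 7, 0, 0, 0, 31, 128903, 41, 7, 1381, 13, 269, 175453, 3599191, 0, 11437, 367, 0, 103, 25609, 10939, 29, 29, 19, 457, 53, 83, 73, 0, 227, 17, 93733537, 181, 5171, 1724399, 71, 317, 137, 47, 0, 2029, 5, 17, 1693, 239, 4861, 0, 59, 0, 41, 2383, 59, 0, 21541921, 101, 21521, 0, 11, 11, 23, 103,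 1931, 0, 337, 0, 163, 179, 287251, 23, 11, 0, 43, 2017, 113, 0, 226663, 43, 23, 11, 640151, 71, 2749, 103, 1093, 149, 113, 37, 47, 179, 89, 12261521, 292631, 7, 0, 733, 59, 11, 29, 313, 49597, 37, 5, 3137, 0, 1290533, 44465089, 5, 139, 41, 1439, 23, 311, 0, 29, 79, 17, 2069, 2351, 11, 1481, 7, 167, 4827313, 37, 89, 49766413, 223, 881, 23, 457, 73576511, 56827, 167, 11, 11, 443, 83, 0, 1321, 51439, 997, 38651, 41, 997, 229, 331, 5, 73, 0, 61, 0, 251, 47, 1217, 83, 0] _ (by decide +kernel) (by decide +kernel) fer (by decide +kernel)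

end Pool.Agent.N682.KK.Z05
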