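import Pool.Agent.N682.KK.Fer2

set_option autoImplicit false
set_option maxRecDepth 100000
set_option linter.defProp false

/-! Certificates for `k * (k + 1) ^ φ(7588 - k) + 1` with `1096 ≤ k < 1234`. -/

namespace Pool.Agent.N682.KK.Z06

def f1099 : fk 7588 1099 73 = true := by decide +kernel
def f1100 : fk 7588 1100 64 = true := by decide +kernel
def f1104 : fk 7588 1104 64 = true := by decide +kernel
def f1108 : fk 7588 1108 35 = true := by decide +kernel
def f1113 : fk 7588 1113 86 = true := by decide +kernel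
def f1125 : fk 7588 1125 122 = true := by decide +kernel
def f1129 : fk 7588 1129 86 = true := by decide +kernel
def f1135 : fk 7588 1135 85 = true := by decide +kernel
def f1142 : fk 7588 1142 58 = true := by decide +kernel
def f1143 : fk 7588 1143 103 = true := by decide +kernel
def f1144 : fk 7588 1144 43 = true := by decide +kernel
def f1145 : fk 7588 1145 121 = true := by decide +kernel
def f1154 : fk 7588 1154 64 = true := by decide +kernel
def f1178 : fk 7588 1178 52 = true := by decide +kernel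
def f1179 : fk 7588 1179 108 = true := by decide +kernel
def f1193 : fk 7588 1193 103 = true := by decide +kernel
def f1195 : fk 7588 1195 86 = true := by decide +kernel
def f1198 : fk 7588 1198 34 = true := by decide +kernel
def f1200 : fk 7588 1200 64 = true := by decide +kernel
def f1202 : fk 7588 1202 62 = true := by decide +kernel
def f1203 : fk 7588 1203 103 = true := by decide +kernel
def f1207 : fk 7588 1207 85 = true := by decide +kernel
def f1233 : fk 7588 1233 97 = true := by decide +kernel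

theorem fer : ∀ k ∈ [1099, 1100, 1104, 1108, 1113, 1125, 1129, 1135, 1142, 1143, 1144, 1145, 1154, 1178, 1179, 1193, 1195, 1198, 1200, 1202, 1203, 1207, 1233], ¬ (num 7588 k).Prime :=
  cons_ok (fk_spec _ _ _ f1099) <|
  cons_ok (fk_spec _ _ _ f1100) <|
  cons_ok (fk_spec _ _ _ f1104) <|
  cons_ok (fk_spec _ _ _ f1108) <|
  cons_ok (fk_spec _ _ _ f1113) <|
  cons_ok (fk_spec _ _ _ f1125) <|
  cons_ok (fk_spec _ _ _ f1129) <|
  cons_ok (fk_spec _ _ _ f1135) <|
  cons_ok (fk_spec _ _ _ f1142) <|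
  cons_ok (fk_spec _ _ _ f1143) <|
  cons_ok (fk_spec _ _ _ f1144) <|
  cons_ok (fk_spec _ _ _ f1145) <|
  cons_ok (fk_spec _ _ _ f1154) <|
  cons_ok (fk_spec _ _ _ f1178) <|
  cons_ok (fk_spec _ _ _ f1179) <|
  cons_ok (fk_spec _ _ _ f1193) <|
  cons_ok (fk_spec _ _ _ f1195) <|
  cons_ok (fk_spec _ _ _ f1198) <|
  cons_ok (fk_spec _ _ _ f1200) <|
  cons_ok (fk_spec _ _ _ f1202) <|
  cons_ok (fk_spec _ _ _ f1203) <|
  cons_ok (fk_spec _ _ _ f1207) <|
  cons_ok (fk_spec _ _ _ f1233) <|
  nil_ok 7588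

theorem rng : ∀ k, 1096 ≤ k → k < 1234 → ¬ (num 7588 k).Prime :=
  range_of 7588 1096 1234 [59, 19, 278867, 0, 0, 23, 7, 12799, 0, 3797, 17, 22266331, 0, 3011627, 103, 23, 293, 0, 19, 29, 19, 11, 2333, 4787, 10133, 37, 569, 7, 29234741, 0, 521, 2539, 173, 0, 151, 311, 151, 109, 293, 0, 9319, 29, 53, 11, 43, 11, 0, 0, 0, 0, 23, 66413, 773, 400523, 61, 90259913, 331, 149, 0, 11256451, 229, 103, 1579, 727, 17, 5, 298213, 347, 173, 7, 359, 19, 269, 17, 1249, 229, 7, 29, 37, 487, 5233, 3533, 0, 0, 4454687, 157, 17, 43, 23, 2473, 19, 921841, 1867, 81463, 59387, 17, 191449, 0, 17, 0, 3634219, 457, 0, 191, 0, 89, 0, 0, 167, 19, 5, 0, 388187, 17, 4672597, 2753, 389, 2297, 29, 563, 11, 6761, 461, 59, 62543659, 5, 88667, 61, 31, 1289, 101, 86243, 7, 21617, 937, 13448297, 59, 0] _ (by decide +kernel) (by decide +kernel) fer (by decide +kernel)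

end Pool.Agent.N682.KK.Z06
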