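import Pool.Agent.N682.KK.Fer2

set_option autoImplicit false
set_option maxRecDepth 100000
set_option linter.defProp false

/-! Certificates for `k * (k + 1) ^ φ(7588 - k) + 1` with `1234 ≤ k < 1404`. -/

namespace Pool.Agent.N682.KK.Z07

def f1252 : fk 7588 1252 39 = true := by decide +kernel
def f1255 : fk 7588 1255 85 = true := by decide +kernel
def f1265 : fk 7588 1265 128 = true := by decide +kernel
def f1270 : fk 7588 1270 40 = true := by decide +kernel
def f1273 : fk 7588 1273 68 = true := by decide +kernel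
def f1279 : fk 7588 1279 85 = true := by decide +kernel
def f1284 : fk 7588 1284 64 = true := by decide +kernel
def f1295 : fk 7588 1295 102 = true := by decide +kernel
def f1299 : fk 7588 1299 121 = true := by decide +kernel
def f1300 : fk 7588 1300 43 = true := by decide +kernel
def f1303 : fk 7588 1303 68 = true := by decide +kernel
def f1308 : fk 7588 1308 51 = true := by decide +kernel
def f1309 : fk 7588 1309 65 = true := by decide +kernel
def f1330 : fk 7588 1330 37 = true := by decide +kernel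
def f1340 : fk 7588 1340 57 = true := by decide +kernel
def f1346 : fk 7588 1346 64 = true := by decide +kernel
def f1353 : fk 7588 1353 96 = true := by decide +kernel
def f1356 : fk 7588 1356 59 = true := by decide +kernel
def f1360 : fk 7588 1360 42 = true := by decide +kernel
def f1366 : fk 7588 1366 40 = true := by decide +kernel
def f1367 : fk 7588 1367 127 = true := by decide +kernel
def f1372 : fk 7588 1372 36 = true := by decide +kernel
def f1381 : fk 7588 1381 85 = true := by decide +kernel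
def f1387 : fk 7588 1387 77 = true := by decide +kernel
def f1396 : fk 7588 1396 42 = true := by decide +kernel
def f1403 : fk 7588 1403 101 = true := by decide +kernel

theorem fer : ∀ k ∈ [1252, 1255, 1265, 1270, 1273, 1279, 1284, 1295, 1299, 1300, 1303, 1308, 1309, 1330, 1340, 1346, 1353, 1356, 1360, 1366, 1367, 1372, 1381, 1387, 1396, 1403], ¬ (num 7588 k).Prime :=
  cons_ok (fk_spec _ _ _ f1252) <|
  cons_ok (fk_spec _ _ _ f1255) <|
  cons_ok (fk_spec _ _ _ f1265) <|
  cons_ok (fk_spec _ _ _ f1270) <|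
  cons_ok (fk_spec _ _ _ f1273) <|
  cons_ok (fk_spec _ _ _ f1279) <|
  cons_ok (fk_spec _ _ _ f1284) <|
  cons_ok (fk_spec _ _ _ f1295) <|
  cons_ok (fk_spec _ _ _ f1299) <|
  cons_ok (fk_spec _ _ _ f1300) <|
  cons_ok (fk_spec _ _ _ f1303) <|
  cons_ok (fk_spec _ _ _ f1308) <|
  cons_ok (fk_spec _ _ _ f1309) <|
  cons_ok (fk_spec _ _ _ f1330) <|
  cons_ok (fk_spec _ _ _ f1340) <|
  cons_ok (fk_spec _ _ _ f1346) <|
  cons_ok (fk_spec _ _ _ f1353) <|
  cons_ok (fk_spec _ _ _ f1356) <|
  cons_ok (fk_spec _ _ _ f1360) <|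
  cons_ok (fk_spec _ _ _ f1366) <|
  cons_ok (fk_spec _ _ _ f1367) <|
  cons_ok (fk_spec _ _ _ f1372) <|
  cons_ok (fk_spec _ _ _ f1381) <|
  cons_ok (fk_spec _ _ _ f1387) <|
  cons_ok (fk_spec _ _ _ f1396) <|
  cons_ok (fk_spec _ _ _ f1403) <|
  nil_ok 7588

theorem rng : ∀ k, 1234 ≤ k → k < 1404 → ¬ (num 7588 k).Prime :=
  range_of 7588 1234 1404 [111439, 127, 43, 107, 5877211, 11, 1579, 661, 17, 79, 505711, 241, 593, 61, 863, 177907, 11329, 2351, 0, 229, 89, 0, 7, 23, 941, 1009, 11, 263, 11, 7, 4051, 0, 251, 11, 271, 19, 0, 12924449, 11, 0, 167, 113, 53, 96093677, 67, 0, 29, 29, 801469, 14278247, 0, 503, 241, 8893, 4339, 11, 6236299, 7, 43, 79, 11, 0, 953, 53, 167441, 0, 0, 5, 239, 0, 71, 23, 107, 137, 0, 0, 3229, 50363, 6535457, 1249, 31, 1361, 67, 43, 1777, 31, 157, 23, 4909, 19, 71, 79, 67, 17, 128833, 59, 0, 229, 73291, 11939, 283, 121181, 1223, 11, 206783, 17, 0, 5, 19, 37, 367, 59, 0, 443, 5981, 11, 31, 547, 43, 0, 7547, 28393, 0, 14969, 3329, 11, 0, 383, 14939, 43, 30415631,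 191, 0, 0, 7, 29, 11, 11, 0, 2311747, 191, 272981, 157, 7057, 103, 107, 593, 0, 13187, 2027, 1123, 457, 7669, 0, 2153, 131, 23, 1033, 15101, 107, 61, 17, 0, 29, 101, 11161, 79, 19, 38371, 0] _ (by decide +kernel) (by decide +kernel) fer (by decide +kernel)

end Pool.Agent.N682.KK.Z07
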