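import Pool.Agent.N682.KK.Fer2

set_option autoImplicit false
set_option maxRecDepth 100000
set_option linter.defProp false

/-! Certificates for `k * (k + 1) ^ φ(7588 - k) + 1` with `1404 ≤ k < 1482`. -/

namespace Pool.Agent.N682.KK.Z08

def f1405 : fk 7588 1405 84 = true := by decide +kernel
def f1408 : fk 7588 1408 34 = true := by decide +kernel
def f1411 : fk 7588 1411 81 = true := by decide +kernel
def f1418 : fk 7588 1418 51 = true := by decide +kernel
def f1420 : fk 7588 1420 42 = true := by decide +kernel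
def f1422 : fk 7588 1422 64 = true := by decide +kernel
def f1424 : fk 7588 1424 60 = true := by decide +kernel
def f1427 : fk 7588 1427 123 = true := by decide +kernel
def f1435 : fk 7588 1435 72 = true := by decide +kernel
def f1441 : fk 7588 1441 84 = true := by decide +kernel
def f1444 : fk 7588 1444 43 = true := by decide +kernel
def f1447 : fk 7588 1447 80 = true := by decide +kernel
def f1451 : fk 7588 1451 113 = true := by decide +kernel
def f1455 : fk 7588 1455 126 = true := by decide +kernel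
def f1457 : fk 7588 1457 126 = true := by decide +kernel
def f1469 : fk 7588 1469 121 = true := by decide +kernel
def f1474 : fk 7588 1474 42 = true := by decide +kernel
def f1478 : fk 7588 1478 46 = true := by decide +kernel
def f1481 : fk 7588 1481 121 = true := by decide +kernel

theorem fer : ∀ k ∈ [1405, 1408, 1411, 1418, 1420, 1422, 1424, 1427, 1435, 1441, 1444, 1447, 1451, 1455, 1457, 1469, 1474, 1478, 1481], ¬ (num 7588 k).Prime :=
  cons_ok (fk_spec _ _ _ f1405) <|
  cons_ok (fk_spec _ _ _ f1408) <|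
  cons_ok (fk_spec _ _ _ f1411) <|
  cons_ok (fk_spec _ _ _ f1418) <|
  cons_ok (fk_spec _ _ _ f1420) <|
  cons_ok (fk_spec _ _ _ f1422) <|
  cons_ok (fk_spec _ _ _ f1424) <|
  cons_ok (fk_spec _ _ _ f1427) <|
  cons_ok (fk_spec _ _ _ f1435) <|
  cons_ok (fk_spec _ _ _ f1441) <|
  cons_ok (fk_spec _ _ _ f1444) <|
  cons_ok (fk_spec _ _ _ f1447) <|
  cons_ok (fk_spec _ _ _ f1451) <|
  cons_ok (fk_spec _ _ _ f1455) <|
  cons_ok (fk_spec _ _ _ f1457) <|
  cons_ok (fk_spec _ _ _ f1469) <|
  cons_ok (fk_spec _ _ _ f1474) <|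
  cons_ok (fk_spec _ _ _ f1478) <|
  cons_ok (fk_spec _ _ _ f1481) <|
  nil_ok 7588

theorem rng : ∀ k, 1404 ≤ k → k < 1482 → ¬ (num 7588 k).Prime :=
  range_of 7588 1404 1482 [34425907, 0, 1877, 787, 0, 269, 11, 0, 1061, 4229, 163, 17, 523, 61, 0, 6197, 0, 307, 0, 1890641, 0, 50021, 4967, 0, 353, 2063, 22817, 43, 2946259, 11777, 79, 0, 1039, 31151, 19, 26015881, 13, 0, 251, 29, 0, 601, 43, 0, 281, 31, 826883, 0, 19, 149, 37, 0, 12829, 0, 11, 9781, 617, 71, 197, 3557, 23, 1487, 59, 4967, 239779, 0, 11, 113, 311, 6163, 0, 79, 19, 3989, 0, 101, 33581, 0] _ (by decide +kernel) (by decide +kernel) fer (by decide +kernel)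

end Pool.Agent.N682.KK.Z08
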