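import Pool.Agent.N682.KK.Fer2

set_option autoImplicit false
set_option maxRecDepth 100000
set_option linter.defProp false

/-! Certificates for `k * (k + 1) ^ φ(7588 - k) + 1` with `1482 ≤ k < 1600`. -/

namespace Pool.Agent.N682.KK.Z09

def f1483 : fk 7588 1483 60 = true := by decide +kernel
def f1487 : fk 7588 1487 126 = true := by decide +kernel
def f1488 : fk 7588 1488 50 = true := by decide +kernel
def f1490 : fk 7588 1490 63 = true := by decide +kernel
def f1497 : fk 7588 1497 126 = true := by decide +kernel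
def f1501 : fk 7588 1501 84 = true := by decide +kernel
def f1508 : fk 7588 1508 48 = true := by decide +kernel
def f1516 : fk 7588 1516 37 = true := by decide +kernel
def f1518 : fk 7588 1518 51 = true := by decide +kernel
def f1519 : fk 7588 1519 68 = true := by decide +kernel
def f1525 : fk 7588 1525 80 = true := by decide +kernel
def f1529 : fk 7588 1529 123 = true := by decide +kernel
def f1532 : fk 7588 1532 63 = true := by decide +kernel
def f1552 : fk 7588 1552 42 = true := by decide +kernel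
def f1553 : fk 7588 1553 93 = true := by decide +kernel
def f1558 : fk 7588 1558 33 = true := by decide +kernel
def f1561 : fk 7588 1561 70 = true := by decide +kernel
def f1565 : fk 7588 1565 118 = true := by decide +kernel
def f1573 : fk 7588 1573 67 = true := by decide +kernel
def f1577 : fk 7588 1577 125 = true := by decide +kernel
def f1598 : fk 7588 1598 50 = true := by decide +kernel
def f1599 : fk 7588 1599 122 = true := by decide +kernel

theorem fer : ∀ k ∈ [1483, 1487, 1488, 1490, 1497, 1501, 1508, 1516, 1518, 1519, 1525, 1529, 1532, 1552, 1553, 1558, 1561, 1565, 1573, 1577, 1598, 1599], ¬ (num 7588 k).Prime :=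
  cons_ok (fk_spec _ _ _ f1483) <|
  cons_ok (fk_spec _ _ _ f1487) <|
  cons_ok (fk_spec _ _ _ f1488) <|
  cons_ok (fk_spec _ _ _ f1490) <|
  cons_ok (fk_spec _ _ _ f1497) <|
  cons_ok (fk_spec _ _ _ f1501) <|
  cons_ok (fk_spec _ _ _ f1508) <|
  cons_ok (fk_spec _ _ _ f1516) <|
  cons_ok (fk_spec _ _ _ f1518) <|
  cons_ok (fk_spec _ _ _ f1519) <|
  cons_ok (fk_spec _ _ _ f1525) <|
  cons_ok (fk_spec _ _ _ f1529) <|
  cons_ok (fk_spec _ _ _ f1532) <|
  cons_ok (fk_spec _ _ _ f1552) <|
  cons_ok (fk_spec _ _ _ f1553) <|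
  cons_ok (fk_spec _ _ _ f1558) <|
  cons_ok (fk_spec _ _ _ f1561) <|
  cons_ok (fk_spec _ _ _ f1565) <|
  cons_ok (fk_spec _ _ _ f1573) <|
  cons_ok (fk_spec _ _ _ f1577) <|
  cons_ok (fk_spec _ _ _ f1598) <|
  cons_ok (fk_spec _ _ _ f1599) <|
  nil_ok 7588

theorem rng : ∀ k, 1482 ≤ k → k < 1600 → ¬ (num 7588 k).Prime :=
  range_of 7588 1482 1600 [349, 0, 31, 1900981, 71, 0, 0, 12671, 0, 61, 11, 277, 19, 4390279, 79, 0, 1044569, 31, 170777, 0, 11, 31, 11, 281, 2861, 2662159, 0, 11, 439, 31, 10667, 18982979, 11, 11, 0, 47, 0, 0, 127, 5, 137, 19973, 358733, 0, 11, 1213, 229, 0, 29, 1979, 0, 467, 151, 19, 7, 11, 43, 22800139, 41, 5, 19, 29, 13, 137, 31, 173, 907, 49068703, 43, 19, 0, 0, 69239, 433, 373, 59, 0, 709, 19, 0, 47591, 823, 7, 0, 5, 293, 2161, 20479, 13, 7645853, 19, 0, 83, 11, 389, 0, 23, 227, 43, 5, 103, 67, 23, 15329, 463, 1319023, 71, 19, 11, 11, 7, 43, 47, 769, 31, 6257, 0, 0] _ (by decide +kernel) (by decide +kernel) fer (by decide +kernel)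

end Pool.Agent.N682.KK.Z09
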