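import Pool.Agent.N682.KK.Fer2

set_option autoImplicit false
set_option maxRecDepth 100000
set_option linter.defProp false

/-! Certificates for `k * (k + 1) ^ φ(7588 - k) + 1` with `1600 ≤ k < 1732`. -/

namespace Pool.Agent.N682.KK.Z10

def f1604 : fk 7588 1604 54 = true := by decide +kernel
def f1617 : fk 7588 1617 107 = true := by decide +kernel
def f1619 : fk 7588 1619 121 = true := by decide +kernel
def f1620 : fk 7588 1620 62 = true := by decide +kernel
def f1631 : fk 7588 1631 100 = true := by decide +kernel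
def f1632 : fk 7588 1632 63 = true := by decide +kernel
def f1633 : fk 7588 1633 67 = true := by decide +kernel
def f1636 : fk 7588 1636 41 = true := by decide +kernel
def f1637 : fk 7588 1637 113 = true := by decide +kernel
def f1638 : fk 7588 1638 41 = true := by decide +kernel
def f1645 : fk 7588 1645 71 = true := by decide +kernel
def f1648 : fk 7588 1648 31 = true := by decide +kernel
def f1651 : fk 7588 1651 83 = true := by decide +kernel
def f1663 : fk 7588 1663 66 = true := by decide +kernel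
def f1671 : fk 7588 1671 121 = true := by decide +kernel
def f1676 : fk 7588 1676 62 = true := by decide +kernel
def f1681 : fk 7588 1681 75 = true := by decide +kernel
def f1684 : fk 7588 1684 41 = true := by decide +kernel
def f1697 : fk 7588 1697 120 = true := by decide +kernel
def f1698 : fk 7588 1698 46 = true := by decide +kernel
def f1705 : fk 7588 1705 79 = true := by decide +kernel
def f1710 : fk 7588 1710 62 = true := by decide +kernel
def f1714 : fk 7588 1714 37 = true := by decide +kernel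
def f1724 : fk 7588 1724 62 = true := by decide +kernel
def f1730 : fk 7588 1730 59 = true := by decide +kernel
def f1731 : fk 7588 1731 124 = true := by decide +kernel

theorem fer : ∀ k ∈ [1604, 1617, 1619, 1620, 1631, 1632, 1633, 1636, 1637, 1638, 1645, 1648, 1651, 1663, 1671, 1676, 1681, 1684, 1697, 1698, 1705, 1710, 1714, 1724, 1730, 1731], ¬ (num 7588 k).Prime :=
  cons_ok (fk_spec _ _ _ f1604) <|
  cons_ok (fk_spec _ _ _ f1617) <|
  cons_ok (fk_spec _ _ _ f1619) <|
  cons_ok (fk_spec _ _ _ f1620) <|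
  cons_ok (fk_spec _ _ _ f1631) <|
  cons_ok (fk_spec _ _ _ f1632) <|
  cons_ok (fk_spec _ _ _ f1633) <|
  cons_ok (fk_spec _ _ _ f1636) <|
  cons_ok (fk_spec _ _ _ f1637) <|
  cons_ok (fk_spec _ _ _ f1638) <|
  cons_ok (fk_spec _ _ _ f1645) <|
  cons_ok (fk_spec _ _ _ f1648) <|
  cons_ok (fk_spec _ _ _ f1651) <|
  cons_ok (fk_spec _ _ _ f1663) <|
  cons_ok (fk_spec _ _ _ f1671) <|
  cons_ok (fk_spec _ _ _ f1676) <|
  cons_ok (fk_spec _ _ _ f1681) <|
  cons_ok (fk_spec _ _ _ f1684) <|
  cons_ok (fk_spec _ _ _ f1697) <|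
  cons_ok (fk_spec _ _ _ f1698) <|
  cons_ok (fk_spec _ _ _ f1705) <|
  cons_ok (fk_spec _ _ _ f1710) <|
  cons_ok (fk_spec _ _ _ f1714) <|
  cons_ok (fk_spec _ _ _ f1724) <|
  cons_ok (fk_spec _ _ _ f1730) <|
  cons_ok (fk_spec _ _ _ f1731) <|
  nil_ok 7588

theorem rng : ∀ k, 1600 ≤ k → k < 1732 → ¬ (num 7588 k).Prime :=
  range_of 7588 1600 1732 [149, 5, 151, 11, 0, 3671, 409, 821, 19, 6719, 4933, 17, 11, 7, 16002331, 23, 20726539, 0, 5711, 0, 0, 461, 41, 11, 11789, 239, 30924767, 12899, 2347, 151, 101, 0, 0, 0, 76771, 3691, 0, 0, 0, 1811, 137, 8839, 151, 130657, 1528127, 0, 5, 11, 0, 811, 53, 0, 3389, 23, 1749119, 1259, 43, 359, 25733419, 1777, 3701, 5, 37, 0, 51719, 13, 29, 17, 53, 7, 757, 0, 5237, 23, 191, 277, 0, 337, 11, 43, 67, 0, 281, 1685773, 0, 19, 23, 383, 29, 2711287, 7, 29, 37, 389, 463, 61, 167, 0, 0, 23, 13, 31, 107, 283, 17, 0, 59, 59, 3343, 823, 0, 61, 101, 623933, 0, 1487, 23, 5711, 4871, 1439, 31, 5, 11, 11, 0, 1276889, 13, 307, 749209, 59, 0, 0] _ (by decide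 +kernel) (by decide +kernel) fer (by decide +kernel)

end Pool.Agent.N682.KK.Z10
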