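import Pool.Agent.N682.KK.Fer2

set_option autoImplicit false
set_option maxRecDepth 100000
set_option linter.defProp false

/-! Certificates for `k * (k + 1) ^ φ(7588 - k) + 1` with `1732 ≤ k < 1920`. -/

namespace Pool.Agent.N682.KK.Z11

def f1770 : fk 7588 1770 62 = true := by decide +kernel
def f1771 : fk 7588 1771 70 = true := by decide +kernel
def f1777 : fk 7588 1777 75 = true := by decide +kernel
def f1785 : fk 7588 1785 105 = true := by decide +kernel
def f1789 : fk 7588 1789 82 = true := by decide +kernel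
def f1807 : fk 7588 1807 78 = true := by decide +kernel
def f1816 : fk 7588 1816 37 = true := by decide +kernel
def f1817 : fk 7588 1817 118 = true := by decide +kernel
def f1819 : fk 7588 1819 82 = true := by decide +kernel
def f1827 : fk 7588 1827 105 = true := by decide +kernel
def f1848 : fk 7588 1848 41 = true := by decide +kernel
def f1876 : fk 7588 1876 33 = true := by decide +kernel
def f1881 : fk 7588 1881 112 = true := by decide +kernel
def f1891 : fk 7588 1891 81 = true := by decide +kernel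
def f1895 : fk 7588 1895 122 = true := by decide +kernel
def f1909 : fk 7588 1909 81 = true := by decide +kernel
def f1917 : fk 7588 1917 118 = true := by decide +kernel
def f1919 : fk 7588 1919 121 = true := by decide +kernel

theorem fer : ∀ k ∈ [1770, 1771, 1777, 1785, 1789, 1807, 1816, 1817, 1819, 1827, 1848, 1876, 1881, 1891, 1895, 1909, 1917, 1919], ¬ (num 7588 k).Prime :=
  cons_ok (fk_spec _ _ _ f1770) <|
  cons_ok (fk_spec _ _ _ f1771) <|
  cons_ok (fk_spec _ _ _ f1777) <|
  cons_ok (fk_spec _ _ _ f1785) <|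
  cons_ok (fk_spec _ _ _ f1789) <|
  cons_ok (fk_spec _ _ _ f1807) <|
  cons_ok (fk_spec _ _ _ f1816) <|
  cons_ok (fk_spec _ _ _ f1817) <|
  cons_ok (fk_spec _ _ _ f1819) <|
  cons_ok (fk_spec _ _ _ f1827) <|
  cons_ok (fk_spec _ _ _ f1848) <|
  cons_ok (fk_spec _ _ _ f1876) <|
  cons_ok (fk_spec _ _ _ f1881) <|
  cons_ok (fk_spec _ _ _ f1891) <|
  cons_ok (fk_spec _ _ _ f1895) <|
  cons_ok (fk_spec _ _ _ f1909) <|
  cons_ok (fk_spec _ _ _ f1917) <|
  cons_ok (fk_spec _ _ _ f1919) <|
  nil_ok 7588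

theorem rng : ∀ k, 1732 ≤ k → k < 1920 → ¬ (num 7588 k).Prime :=
  range_of 7588 1732 1920 [23, 1783, 11, 17, 2160349, 1811, 659, 1327, 11, 18217, 821, 227, 23, 137, 11, 97, 7817, 137, 524971, 421, 17, 7, 131, 11, 191, 131, 269, 31, 19, 5, 17483, 1019, 101, 23, 175309, 733, 4593703, 17, 0, 0, 367, 11, 457, 43, 191, 0, 9949, 47, 37, 5, 19, 66037, 73, 0, 17, 353, 7, 0, 10007, 29, 1303, 44617, 1669, 7, 29153, 953, 19, 5701, 879539, 11, 691, 37, 151, 643, 283, 0, 19, 743, 11, 11, 67, 65239, 331, 499, 0, 0, 1055939, 0, 29, 31, 269, 3821, 113, 293, 23627, 0, 43, 503, 137, 147293, 241, 1229, 11, 792307, 29, 17, 769, 11, 83, 127, 2143, 13, 7, 11, 2521, 97, 0, 41, 167, 19, 383, 2749, 3607, 1039, 13, 107, 7, 23, 103, 11, 53, 48017, 48761, 11, 47, 11, 911129, 307, 797, 17, 53, 12097, 131, 19, 0, 19, 29, 7, 9349, 0, 61, 11, 137, 131, 5, 71, 2063, 19, 463, 0, 431, 761, 11, 0, 41, 1193, 29, 19045307, 11, 2423, 149, 1554073, 199819, 281, 809, 173, 13, 0, 11, 433, 19, 89, 19, 389, 8747,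 0, 149, 0] _ (by decide +kernel) (by decide +kernel) fer (by decide +kernel)

end Pool.Agent.N682.KK.Z11
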