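import Pool.Agent.N682.KK.Fer2

set_option autoImplicit false
set_option maxRecDepth 100000
set_option linter.defProp false

/-! Certificates for `k * (k + 1) ^ φ(7588 - k) + 1` with `1920 ≤ k < 2088`. -/

namespace Pool.Agent.N682.KK.Z12

def f1923 : fk 7588 1923 87 = true := by decide +kernel
def f1925 : fk 7588 1925 104 = true := by decide +kernel
def f1936 : fk 7588 1936 40 = true := by decide +kernel
def f1940 : fk 7588 1940 61 = true := by decide +kernel
def f1943 : fk 7588 1943 97 = true := by decide +kernel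
def f1959 : fk 7588 1959 111 = true := by decide +kernel
def f1960 : fk 7588 1960 34 = true := by decide +kernel
def f1961 : fk 7588 1961 113 = true := by decide +kernel
def f1962 : fk 7588 1962 58 = true := by decide +kernel
def f1971 : fk 7588 1971 117 = true := by decide +kernel
def f1976 : fk 7588 1976 57 = true := by decide +kernel
def f1977 : fk 7588 1977 116 = true := by decide +kernel
def f1982 : fk 7588 1982 60 = true := by decide +kernel
def f2003 : fk 7588 2003 96 = true := by decide +kernel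
def f2012 : fk 7588 2012 55 = true := by decide +kernel
def f2026 : fk 7588 2026 40 = true := by decide +kernel
def f2028 : fk 7588 2028 48 = true := by decide +kernel
def f2034 : fk 7588 2034 60 = true := by decide +kernel
def f2050 : fk 7588 2050 37 = true := by decide +kernel
def f2062 : fk 7588 2062 40 = true := by decide +kernel
def f2063 : fk 7588 2063 83 = true := by decide +kernel
def f2066 : fk 7588 2066 54 = true := by decide +kernel
def f2068 : fk 7588 2068 31 = true := by decide +kernel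
def f2074 : fk 7588 2074 40 = true := by decide +kernel
def f2076 : fk 7588 2076 54 = true := by decide +kernel
def f2082 : fk 7588 2082 60 = true := by decide +kernel
def f2087 : fk 7588 2087 119 = true := by decide +kernel

theorem fer : ∀ k ∈ [1923, 1925, 1936, 1940, 1943, 1959, 1960, 1961, 1962, 1971, 1976, 1977, 1982, 2003, 2012, 2026, 2028, 2034, 2050, 2062, 2063, 2066, 2068, 2074, 2076, 2082, 2087], ¬ (num 7588 k).Prime :=
  cons_ok (fk_spec _ _ _ f1923) <|
  cons_ok (fk_spec _ _ _ f1925) <|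
  cons_ok (fk_spec _ _ _ f1936) <|
  cons_ok (fk_spec _ _ _ f1940) <|
  cons_ok (fk_spec _ _ _ f1943) <|
  cons_ok (fk_spec _ _ _ f1959) <|
  cons_ok (fk_spec _ _ _ f1960) <|
  cons_ok (fk_spec _ _ _ f1961) <|
  cons_ok (fk_spec _ _ _ f1962) <|
  cons_ok (fk_spec _ _ _ f1971) <|
  cons_ok (fk_spec _ _ _ f1976) <|
  cons_ok (fk_spec _ _ _ f1977) <|
  cons_ok (fk_spec _ _ _ f1982) <|
  cons_ok (fk_spec _ _ _ f2003) <|
  cons_ok (fk_spec _ _ _ f2012) <|
  cons_ok (fk_spec _ _ _ f2026) <|
  cons_ok (fk_spec _ _ _ f2028) <|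
  cons_ok (fk_spec _ _ _ f2034) <|
  cons_ok (fk_spec _ _ _ f2050) <|
  cons_ok (fk_spec _ _ _ f2062) <|
  cons_ok (fk_spec _ _ _ f2063) <|
  cons_ok (fk_spec _ _ _ f2066) <|
  cons_ok (fk_spec _ _ _ f2068) <|
  cons_ok (fk_spec _ _ _ f2074) <|
  cons_ok (fk_spec _ _ _ f2076) <|
  cons_ok (fk_spec _ _ _ f2082) <|
  cons_ok (fk_spec _ _ _ f2087) <|
  nil_ok 7588

theorem rng : ∀ k, 1920 ≤ k → k < 2088 → ¬ (num 7588 k).Prime :=
  range_of 7588 1920 2088 [2239, 7, 11, 0, 66377, 0, 761, 211, 199, 191, 307, 19421, 2099, 42961, 19, 11503, 0, 409, 103, 20759, 0, 5, 7, 0, 461, 439, 1302443, 29, 379, 11, 2969, 37, 29, 47, 389, 479, 811, 929, 4271, 0, 0, 0, 0, 83, 241, 79, 11, 10151, 53, 233, 7, 0, 53, 389, 157, 1361, 0, 0, 19, 149, 263, 1289, 0, 346321, 17579, 4517, 469169, 743, 37, 3671, 17, 859, 23, 61, 47, 101, 16287893, 103, 11, 31, 38882629, 229, 71, 0, 1097, 796799, 5, 17, 109, 11, 29, 23, 0, 10944839, 151, 523, 2207, 752177, 657499, 11, 139, 53, 21499, 12391, 59, 17, 0, 1063, 0,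 43, 59, 11, 41, 7853, 0, 293, 29, 27743, 463, 4271, 61, 17, 179, 11, 131, 19, 7103, 7, 11, 1483, 0, 224069, 20773, 197, 61, 19, 1613, 1091, 83, 1889, 43, 5, 0, 0, 19, 5437, 0, 281, 0, 37, 457, 241, 359, 41, 0, 41, 0, 13, 241, 163, 4813, 5, 0, 563, 148439, 23, 28771, 0] _ (by decide +kernel) (by decide +kernel) fer (by decide +kernel)

end Pool.Agent.N682.KK.Z12
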