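import Pool.Agent.N682.KK.Fer2

set_option autoImplicit false
set_option maxRecDepth 100000
set_option linter.defProp false

/-! Certificates for `k * (k + 1) ^ φ(7588 - k) + 1` with `2088 ≤ k < 2263`. -/

namespace Pool.Agent.N682.KK.Z13

def f2089 : fk 7588 2089 72 = true := by decide +kernel
def f2093 : fk 7588 2093 81 = true := by decide +kernel
def f2102 : fk 7588 2102 55 = true := by decide +kernel
def f2105 : fk 7588 2105 119 = true := by decide +kernel
def f2122 : fk 7588 2122 40 = true := by decide +kernel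
def f2128 : fk 7588 2128 25 = true := by decide +kernel
def f2134 : fk 7588 2134 39 = true := by decide +kernel
def f2146 : fk 7588 2146 40 = true := by decide +kernel
def f2148 : fk 7588 2148 45 = true := by decide +kernel
def f2170 : fk 7588 2170 33 = true := by decide +kernel
def f2172 : fk 7588 2172 59 = true := by decide +kernel
def f2173 : fk 7588 2173 60 = true := by decide +kernel
def f2176 : fk 7588 2176 35 = true := by decide +kernel
def f2178 : fk 7588 2178 47 = true := by decide +kernel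
def f2185 : fk 7588 2185 79 = true := by decide +kernel
def f2192 : fk 7588 2192 55 = true := by decide +kernel
def f2202 : fk 7588 2202 59 = true := by decide +kernel
def f2204 : fk 7588 2204 59 = true := by decide +kernel
def f2215 : fk 7588 2215 78 = true := by decide +kernel
def f2216 : fk 7588 2216 55 = true := by decide +kernel
def f2219 : fk 7588 2219 91 = true := by decide +kernel
def f2225 : fk 7588 2225 113 = true := by decide +kernel
def f2226 : fk 7588 2226 50 = true := by decide +kernel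
def f2232 : fk 7588 2232 54 = true := by decide +kernel
def f2239 : fk 7588 2239 78 = true := by decide +kernel
def f2240 : fk 7588 2240 50 = true := by decide +kernel
def f2242 : fk 7588 2242 36 = true := by decide +kernel
def f2243 : fk 7588 2243 93 = true := by decide +kernel
def f2248 : fk 7588 2248 31 = true := by decide +kernel
def f2249 : fk 7588 2249 110 = true := by decide +kernel
def f2256 : fk 7588 2256 55 = true := by decide +kernel
def f2257 : fk 7588 2257 78 = true := by decide +kernel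
def f2259 : fk 7588 2259 115 = true := by decide +kernel
def f2260 : fk 7588 2260 38 = true := by decide +kernel
def f2262 : fk 7588 2262 58 = true := by decide +kernel

theorem fer : ∀ k ∈ [2089, 2093, 2102, 2105, 2122, 2128, 2134, 2146, 2148, 2170, 2172, 2173, 2176, 2178, 2185, 2192, 2202, 2204, 2215, 2216, 2219, 2225, 2226, 2232, 2239, 2240, 2242, 2243, 2248, 2249, 2256, 2257, 2259, 2260, 2262], ¬ (num 7588 k).Prime :=
  cons_ok (fk_spec _ _ _ f2089) <|
  cons_ok (fk_spec _ _ _ f2093) <|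
  cons_ok (fk_spec _ _ _ f2102) <|
  cons_ok (fk_spec _ _ _ f2105) <|
  cons_ok (fk_spec _ _ _ f2122) <|
  cons_ok (fk_spec _ _ _ f2128) <|
  cons_ok (fk_spec _ _ _ f2134) <|
  cons_ok (fk_spec _ _ _ f2146) <|
  cons_ok (fk_spec _ _ _ f2148) <|
  cons_ok (fk_spec _ _ _ f2170) <|
  cons_ok (fk_spec _ _ _ f2172) <|
  cons_ok (fk_spec _ _ _ f2173) <|
  cons_ok (fk_spec _ _ _ f2176) <|
  cons_ok (fk_spec _ _ _ f2178) <|
  cons_ok (fk_spec _ _ _ f2185) <|
  cons_ok (fk_spec _ _ _ f2192) <|
  cons_ok (fk_spec _ _ _ f2202) <|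
  cons_ok (fk_spec _ _ _ f2204) <|
  cons_ok (fk_spec _ _ _ f2215) <|
  cons_ok (fk_spec _ _ _ f2216) <|
  cons_ok (fk_spec _ _ _ f2219) <|
  cons_ok (fk_spec _ _ _ f2225) <|
  cons_ok (fk_spec _ _ _ f2226) <|
  cons_ok (fk_spec _ _ _ f2232) <|
  cons_ok (fk_spec _ _ _ f2239) <|
  cons_ok (fk_spec _ _ _ f2240) <|
  cons_ok (fk_spec _ _ _ f2242) <|
  cons_ok (fk_spec _ _ _ f2243) <|
  cons_ok (fk_spec _ _ _ f2248) <|
  cons_ok (fk_spec _ _ _ f2249) <|
  cons_ok (fk_spec _ _ _ f2256) <|
  cons_ok (fk_spec _ _ _ f2257) <|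
  cons_ok (fk_spec _ _ _ f2259) <|
  cons_ok (fk_spec _ _ _ f2260) <|
  cons_ok (fk_spec _ _ _ f2262) <|
  nil_ok 7588

theorem rng : ∀ k, 2088 ≤ k → k < 2263 → ¬ (num 7588 k).Prime :=
  range_of 7588 2088 2263 [1283, 0, 1297, 60967397, 31, 0, 163, 17, 7, 11, 619, 37, 457, 4275251, 0, 78487, 53, 0, 139, 173, 11, 631, 7, 79, 97, 9623, 83, 79, 41, 619, 986113, 1013, 11, 19, 0, 104399, 359, 431, 5, 199, 0, 17159, 59, 7, 137, 23, 0, 23, 269, 1259, 1429, 419, 11, 11, 109, 431, 23, 653209, 0, 379, 0, 359, 2089, 16193, 43, 109, 2471179, 13, 11939, 54661283, 43, 19, 1531, 176609, 61, 6553, 11, 35257039, 5, 25357, 107, 11, 0, 307, 0, 0, 11, 11, 0, 43, 0, 139, 89, 5, 23, 43, 5011, 0, 11, 127, 502961, 109, 23, 225023, 0, 19, 37, 263, 41, 19, 53, 1013, 99131, 5, 0, 179, 0, 6574003, 149, 19, 7, 97, 149, 17, 131, 557, 421, 0, 0, 19, 41, 0, 743, 89, 1601, 61, 31, 0, 0, 23, 31, 521, 3229267, 17, 0, 1181, 3691, 13669, 7027, 1439, 31, 0, 0, 5, 0, 0, 31, 263, 5, 71, 0, 0, 19, 53, 5651, 8111, 18793,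 29, 0, 0, 68551543, 0, 0, 23, 0] _ (by decide +kernel) (by decide +kernel) fer (by decide +kernel)

end Pool.Agent.N682.KK.Z13
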