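import Pool.Agent.N682.KK.Fer2

set_option autoImplicit false
set_option maxRecDepth 100000
set_option linter.defProp false

/-! Certificates for `k * (k + 1) ^ φ(7588 - k) + 1` with `2263 ≤ k < 2371`. -/

namespace Pool.Agent.N682.KK.Z14

def f2265 : fk 7588 2265 116 = true := by decide +kernel
def f2266 : fk 7588 2266 39 = true := by decide +kernel
def f2271 : fk 7588 2271 107 = true := by decide +kernel
def f2277 : fk 7588 2277 113 = true := by decide +kernel
def f2287 : fk 7588 2287 71 = true := by decide +kernel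
def f2288 : fk 7588 2288 46 = true := by decide +kernel
def f2289 : fk 7588 2289 99 = true := by decide +kernel
def f2304 : fk 7588 2304 58 = true := by decide +kernel
def f2309 : fk 7588 2309 116 = true := by decide +kernel
def f2316 : fk 7588 2316 58 = true := by decide +kernel
def f2317 : fk 7588 2317 66 = true := by decide +kernel
def f2322 : fk 7588 2322 58 = true := by decide +kernel
def f2326 : fk 7588 2326 39 = true := by decide +kernel
def f2332 : fk 7588 2332 38 = true := by decide +kernel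
def f2337 : fk 7588 2337 112 = true := by decide +kernel
def f2338 : fk 7588 2338 27 = true := by decide +kernel
def f2339 : fk 7588 2339 111 = true := by decide +kernel
def f2348 : fk 7588 2348 46 = true := by decide +kernel
def f2349 : fk 7588 2349 103 = true := by decide +kernel
def f2354 : fk 7588 2354 58 = true := by decide +kernel
def f2357 : fk 7588 2357 115 = true := by decide +kernel
def f2368 : fk 7588 2368 30 = true := by decide +kernel
def f2370 : fk 7588 2370 58 = true := by decide +kernel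

theorem fer : ∀ k ∈ [2265, 2266, 2271, 2277, 2287, 2288, 2289, 2304, 2309, 2316, 2317, 2322, 2326, 2332, 2337, 2338, 2339, 2348, 2349, 2354, 2357, 2368, 2370], ¬ (num 7588 k).Prime :=
  cons_ok (fk_spec _ _ _ f2265) <|
  cons_ok (fk_spec _ _ _ f2266) <|
  cons_ok (fk_spec _ _ _ f2271) <|
  cons_ok (fk_spec _ _ _ f2277) <|
  cons_ok (fk_spec _ _ _ f2287) <|
  cons_ok (fk_spec _ _ _ f2288) <|
  cons_ok (fk_spec _ _ _ f2289) <|
  cons_ok (fk_spec _ _ _ f2304) <|
  cons_ok (fk_spec _ _ _ f2309) <|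
  cons_ok (fk_spec _ _ _ f2316) <|
  cons_ok (fk_spec _ _ _ f2317) <|
  cons_ok (fk_spec _ _ _ f2322) <|
  cons_ok (fk_spec _ _ _ f2326) <|
  cons_ok (fk_spec _ _ _ f2332) <|
  cons_ok (fk_spec _ _ _ f2337) <|
  cons_ok (fk_spec _ _ _ f2338) <|
  cons_ok (fk_spec _ _ _ f2339) <|
  cons_ok (fk_spec _ _ _ f2348) <|
  cons_ok (fk_spec _ _ _ f2349) <|
  cons_ok (fk_spec _ _ _ f2354) <|
  cons_ok (fk_spec _ _ _ f2357) <|
  cons_ok (fk_spec _ _ _ f2368) <|
  cons_ok (fk_spec _ _ _ f2370) <|
  nil_ok 7588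

theorem rng : ∀ k, 2263 ≤ k → k < 2371 → ¬ (num 7588 k).Prime :=
  range_of 7588 2263 2371 [67, 7, 0, 0, 29, 11, 311, 17, 0, 11, 263729, 229, 59, 59, 0, 359, 11, 3037, 79, 17, 302573, 11, 11, 547, 0, 0, 0, 123553, 241, 5059, 907, 229, 1913, 11, 408361, 13, 479, 182107, 120157, 24809, 193741, 0, 37, 41, 59, 3499, 0, 6151, 19, 26627, 2239, 257, 127, 0, 0, 43, 53, 23, 37, 0, 8209, 823, 151, 0, 457, 11, 1721, 17, 107, 0, 2347, 47, 1847, 47, 0, 0, 0, 3391, 9203, 12066427, 113, 151, 61, 461, 17, 0, 0, 67, 332159, 79, 29, 0, 29, 11, 0, 29, 7283693, 103, 5, 2543, 2437, 298223, 6829, 281, 17, 0, 569, 0] _ (by decide +kernel) (by decide +kernel) fer (by decide +kernel)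

end Pool.Agent.N682.KK.Z14
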