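import Pool.Agent.N682.KK.Fer2

set_option autoImplicit false
set_option maxRecDepth 100000
set_option linter.defProp false

/-! Certificates for `k * (k + 1) ^ φ(7588 - k) + 1` with `2371 ≤ k < 2554`. -/

namespace Pool.Agent.N682.KK.Z15

def f2372 : fk 7588 2372 57 = true := by decide +kernel
def f2375 : fk 7588 2375 106 = true := by decide +kernel
def f2376 : fk 7588 2376 58 = true := by decide +kernel
def f2390 : fk 7588 2390 55 = true := by decide +kernel
def f2395 : fk 7588 2395 76 = true := by decide +kernel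
def f2413 : fk 7588 2413 58 = true := by decide +kernel
def f2414 : fk 7588 2414 53 = true := by decide +kernel
def f2416 : fk 7588 2416 38 = true := by decide +kernel
def f2418 : fk 7588 2418 41 = true := by decide +kernel
def f2420 : fk 7588 2420 51 = true := by decide +kernel
def f2428 : fk 7588 2428 30 = true := by decide +kernel
def f2431 : fk 7588 2431 76 = true := by decide +kernel
def f2434 : fk 7588 2434 38 = true := by decide +kernel
def f2450 : fk 7588 2450 49 = true := by decide +kernel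
def f2457 : fk 7588 2457 97 = true := by decide +kernel
def f2461 : fk 7588 2461 76 = true := by decide +kernel
def f2464 : fk 7588 2464 32 = true := by decide +kernel
def f2477 : fk 7588 2477 107 = true := by decide +kernel
def f2484 : fk 7588 2484 50 = true := by decide +kernel
def f2487 : fk 7588 2487 113 = true := by decide +kernel
def f2489 : fk 7588 2489 113 = true := by decide +kernel
def f2509 : fk 7588 2509 75 = true := by decide +kernel
def f2515 : fk 7588 2515 70 = true := by decide +kernel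
def f2524 : fk 7588 2524 38 = true := by decide +kernel
def f2525 : fk 7588 2525 109 = true := by decide +kernel
def f2527 : fk 7588 2527 64 = true := by decide +kernel
def f2528 : fk 7588 2528 39 = true := by decide +kernel
def f2533 : fk 7588 2533 60 = true := by decide +kernel
def f2536 : fk 7588 2536 38 = true := by decide +kernel
def f2541 : fk 7588 2541 95 = true := by decide +kernel
def f2546 : fk 7588 2546 56 = true := by decide +kernel
def f2553 : fk 7588 2553 83 = true := by decide +kernel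

theorem fer : ∀ k ∈ [2372, 2375, 2376, 2390, 2395, 2413, 2414, 2416, 2418, 2420, 2428, 2431, 2434, 2450, 2457, 2461, 2464, 2477, 2484, 2487, 2489, 2509, 2515, 2524, 2525, 2527, 2528, 2533, 2536, 2541, 2546, 2553], ¬ (num 7588 k).Prime :=
  cons_ok (fk_spec _ _ _ f2372) <|
  cons_ok (fk_spec _ _ _ f2375) <|
  cons_ok (fk_spec _ _ _ f2376) <|
  cons_ok (fk_spec _ _ _ f2390) <|
  cons_ok (fk_spec _ _ _ f2395) <|
  cons_ok (fk_spec _ _ _ f2413) <|
  cons_ok (fk_spec _ _ _ f2414) <|
  cons_ok (fk_spec _ _ _ f2416) <|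
  cons_ok (fk_spec _ _ _ f2418) <|
  cons_ok (fk_spec _ _ _ f2420) <|
  cons_ok (fk_spec _ _ _ f2428) <|
  cons_ok (fk_spec _ _ _ f2431) <|
  cons_ok (fk_spec _ _ _ f2434) <|
  cons_ok (fk_spec _ _ _ f2450) <|
  cons_ok (fk_spec _ _ _ f2457) <|
  cons_ok (fk_spec _ _ _ f2461) <|
  cons_ok (fk_spec _ _ _ f2464) <|
  cons_ok (fk_spec _ _ _ f2477) <|
  cons_ok (fk_spec _ _ _ f2484) <|
  cons_ok (fk_spec _ _ _ f2487) <|
  cons_ok (fk_spec _ _ _ f2489) <|
  cons_ok (fk_spec _ _ _ f2509) <|
  cons_ok (fk_spec _ _ _ f2515) <|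
  cons_ok (fk_spec _ _ _ f2524) <|
  cons_ok (fk_spec _ _ _ f2525) <|
  cons_ok (fk_spec _ _ _ f2527) <|
  cons_ok (fk_spec _ _ _ f2528) <|
  cons_ok (fk_spec _ _ _ f2533) <|
  cons_ok (fk_spec _ _ _ f2536) <|
  cons_ok (fk_spec _ _ _ f2541) <|
  cons_ok (fk_spec _ _ _ f2546) <|
  cons_ok (fk_spec _ _ _ f2553) <|
  nil_ok 7588

theorem rng : ∀ k, 2371 ≤ k → k < 2554 → ¬ (num 7588 k).Prime :=
  range_of 7588 2371 2554 [9103, 0, 11, 1032709, 0, 0, 221461, 59, 37, 23, 1153, 11, 7, 29, 79, 23, 19, 101, 13, 0, 911, 22153, 47, 19157, 0, 139, 19, 659, 79, 1327, 337, 23, 197, 11, 163, 5, 4211, 1407971, 131, 695089, 23, 29, 0, 0, 11, 0, 37, 0, 157, 0, 5, 107, 53, 257, 7, 19, 92077, 0, 29, 137, 0, 7, 1039, 0, 929, 251, 7829, 1546453, 2267, 29, 5, 29, 61, 11, 14979253, 7, 173, 11, 17, 0, 607, 23, 1483, 7879, 11, 613, 0, 113, 43, 179, 0, 419, 79, 0, 9307273, 125899, 6217, 467, 83, 15467, 479, 31, 35227, 4937, 59, 107, 0, 431, 47, 13, 5, 251, 739121, 0, 971, 5, 0, 7, 0, 13499, 109, 61, 31,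 11, 121493, 139, 499, 53, 9001, 37, 5, 11094133, 11, 4003, 41, 7649, 103, 17581, 0, 11, 59, 4127, 32321, 751, 0, 7, 233, 409, 9207997, 167, 43, 19, 73, 0, 0, 5, 0, 0, 1847, 136897, 1237931, 285949, 0, 17, 173, 0, 727, 793517, 101, 3466643, 0, 19, 137, 223, 23, 0, 97, 32299, 19, 23, 3547, 3469, 0] _ (by decide +kernel) (by decide +kernel) fer (by decide +kernel)

end Pool.Agent.N682.KK.Z15
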