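import Pool.Agent.N682.KK.Fer2

set_option autoImplicit false
set_option maxRecDepth 100000
set_option linter.defProp false

/-! Certificates for `k * (k + 1) ^ φ(7588 - k) + 1` with `2554 ≤ k < 2783`. -/

namespace Pool.Agent.N682.KK.Z16

def f2556 : fk 7588 2556 51 = true := by decide +kernel
def f2570 : fk 7588 2570 51 = true := by decide +kernel
def f2575 : fk 7588 2575 74 = true := by decide +kernel
def f2576 : fk 7588 2576 48 = true := by decide +kernel
def f2595 : fk 7588 2595 111 = true := by decide +kernel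
def f2620 : fk 7588 2620 36 = true := by decide +kernel
def f2630 : fk 7588 2630 53 = true := by decide +kernel
def f2633 : fk 7588 2633 88 = true := by decide +kernel
def f2640 : fk 7588 2640 55 = true := by decide +kernel
def f2641 : fk 7588 2641 69 = true := by decide +kernel
def f2658 : fk 7588 2658 40 = true := by decide +kernel
def f2659 : fk 7588 2659 70 = true := by decide +kernel
def f2669 : fk 7588 2669 110 = true := by decide +kernel
def f2672 : fk 7588 2672 55 = true := by decide +kernel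
def f2674 : fk 7588 2674 29 = true := by decide +kernel
def f2676 : fk 7588 2676 55 = true := by decide +kernel
def f2682 : fk 7588 2682 50 = true := by decide +kernel
def f2683 : fk 7588 2683 58 = true := by decide +kernel
def f2684 : fk 7588 2684 55 = true := by decide +kernel
def f2685 : fk 7588 2685 110 = true := by decide +kernel
def f2690 : fk 7588 2690 53 = true := by decide +kernel
def f2703 : fk 7588 2703 87 = true := by decide +kernel
def f2708 : fk 7588 2708 43 = true := by decide +kernel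
def f2713 : fk 7588 2713 54 = true := by decide +kernel
def f2714 : fk 7588 2714 55 = true := by decide +kernel
def f2727 : fk 7588 2727 109 = true := by decide +kernel
def f2730 : fk 7588 2730 47 = true := by decide +kernel
def f2736 : fk 7588 2736 55 = true := by decide +kernel
def f2737 : fk 7588 2737 57 = true := by decide +kernel
def f2746 : fk 7588 2746 36 = true := by decide +kernel
def f2752 : fk 7588 2752 33 = true := by decide +kernel
def f2753 : fk 7588 2753 87 = true := by decide +kernel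
def f2756 : fk 7588 2756 54 = true := by decide +kernel
def f2760 : fk 7588 2760 51 = true := by decide +kernel
def f2762 : fk 7588 2762 51 = true := by decide +kernel
def f2767 : fk 7588 2767 72 = true := by decide +kernel
def f2781 : fk 7588 2781 89 = true := by decide +kernel

theorem fer : ∀ k ∈ [2556, 2570, 2575, 2576, 2595, 2620, 2630, 2633, 2640, 2641, 2658, 2659, 2669, 2672, 2674, 2676, 2682, 2683, 2684, 2685, 2690, 2703, 2708, 2713, 2714, 2727, 2730, 2736, 2737, 2746, 2752, 2753, 2756, 2760, 2762, 2767, 2781], ¬ (num 7588 k).Prime :=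
  cons_ok (fk_spec _ _ _ f2556) <|
  cons_ok (fk_spec _ _ _ f2570) <|
  cons_ok (fk_spec _ _ _ f2575) <|
  cons_ok (fk_spec _ _ _ f2576) <|
  cons_ok (fk_spec _ _ _ f2595) <|
  cons_ok (fk_spec _ _ _ f2620) <|
  cons_ok (fk_spec _ _ _ f2630) <|
  cons_ok (fk_spec _ _ _ f2633) <|
  cons_ok (fk_spec _ _ _ f2640) <|
  cons_ok (fk_spec _ _ _ f2641) <|
  cons_ok (fk_spec _ _ _ f2658) <|
  cons_ok (fk_spec _ _ _ f2659) <|
  cons_ok (fk_spec _ _ _ f2669) <|
  cons_ok (fk_spec _ _ _ f2672) <|
  cons_ok (fk_spec _ _ _ f2674) <|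
  cons_ok (fk_spec _ _ _ f2676) <|
  cons_ok (fk_spec _ _ _ f2682) <|
  cons_ok (fk_spec _ _ _ f2683) <|
  cons_ok (fk_spec _ _ _ f2684) <|
  cons_ok (fk_spec _ _ _ f2685) <|
  cons_ok (fk_spec _ _ _ f2690) <|
  cons_ok (fk_spec _ _ _ f2703) <|
  cons_ok (fk_spec _ _ _ f2708) <|
  cons_ok (fk_spec _ _ _ f2713) <|
  cons_ok (fk_spec _ _ _ f2714) <|
  cons_ok (fk_spec _ _ _ f2727) <|
  cons_ok (fk_spec _ _ _ f2730) <|
  cons_ok (fk_spec _ _ _ f2736) <|
  cons_ok (fk_spec _ _ _ f2737) <|
  cons_ok (fk_spec _ _ _ f2746) <|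
  cons_ok (fk_spec _ _ _ f2752) <|
  cons_ok (fk_spec _ _ _ f2753) <|
  cons_ok (fk_spec _ _ _ f2756) <|
  cons_ok (fk_spec _ _ _ f2760) <|
  cons_ok (fk_spec _ _ _ f2762) <|
  cons_ok (fk_spec _ _ _ f2767) <|
  cons_ok (fk_spec _ _ _ f2781) <|
  nil_ok 7588

theorem rng : ∀ k, 2554 ≤ k → k < 2783 → ¬ (num 7588 k).Prime :=
  range_of 7588 2554 2783 [17, 401, 0, 31, 11, 11, 11, 12809, 12457, 4663, 23, 61, 1031, 683, 431, 14447, 0, 1279, 4421, 23055577, 347, 0, 0, 19, 1451, 77689, 37, 11, 11, 31223, 571, 127, 1063, 23, 42621419, 67, 23, 151, 11, 11, 107, 0, 19, 17751889, 2239, 647, 31, 5, 1053029, 9923, 11, 1523, 19, 3851, 53, 1279, 947327, 2089, 254383, 13805977, 11, 11, 1523, 337, 23, 1481, 0, 5, 79, 47, 79, 6427, 11, 163, 46358321, 2239, 0, 67033, 564671, 0, 1459, 1254653, 149, 2042083, 1543, 2819, 0, 0, 191, 59, 29, 463, 79239971, 409, 508033, 349, 31, 7507, 17053, 11, 38101559, 43, 67, 197, 0, 0, 853, 47, 13, 7, 79, 1005409, 821, 16703, 137, 0, 457, 523, 0, 29, 0, 383, 0, 7,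 14268853, 11, 2749, 5003, 0, 0, 0, 0, 149, 19, 67, 103, 0, 11, 4547, 19, 947, 71, 877, 42181543, 167, 43, 25849, 813299, 576551, 0, 7109, 43, 312643, 191, 0, 3209, 151, 19, 7, 0, 0, 2239, 3677, 283, 5303, 113, 233, 443, 247879, 919, 24071, 233, 457, 0, 1201, 19, 0, 1307, 109147, 23, 7487, 487, 0, 0, 337, 89809, 41023, 43, 131, 31, 19, 11, 0, 11, 179, 251, 491, 619, 0, 0, 137, 17, 0, 13, 149, 29, 0, 29, 0, 397, 29, 32843, 5, 0, 107, 107, 383, 31, 3467, 53, 521, 17, 163, 653, 11, 11, 64742773, 0, 1033] _ (by decide +kernel) (by decide +kernel) fer (by decide +kernel)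

end Pool.Agent.N682.KK.Z16
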