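import Pool.Agent.N682.KK.Fer2

set_option autoImplicit false
set_option maxRecDepth 100000
set_option linter.defProp false

/-! Certificates for `k * (k + 1) ^ φ(7588 - k) + 1` with `2783 ≤ k < 2968`. -/

namespace Pool.Agent.N682.KK.Z17

def f2787 : fk 7588 2787 108 = true := by decide +kernel
def f2790 : fk 7588 2790 54 = true := by decide +kernel
def f2798 : fk 7588 2798 43 = true := by decide +kernel
def f2807 : fk 7588 2807 92 = true := by decide +kernel
def f2821 : fk 7588 2821 61 = true := by decide +kernel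
def f2824 : fk 7588 2824 36 = true := by decide +kernel
def f2827 : fk 7588 2827 69 = true := by decide +kernel
def f2849 : fk 7588 2849 91 = true := by decide +kernel
def f2851 : fk 7588 2851 71 = true := by decide +kernel
def f2852 : fk 7588 2852 52 = true := by decide +kernel
def f2854 : fk 7588 2854 36 = true := by decide +kernel
def f2858 : fk 7588 2858 38 = true := by decide +kernel
def f2863 : fk 7588 2863 49 = true := by decide +kernel
def f2869 : fk 7588 2869 60 = true := by decide +kernel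
def f2873 : fk 7588 2873 80 = true := by decide +kernel
def f2875 : fk 7588 2875 71 = true := by decide +kernel
def f2881 : fk 7588 2881 71 = true := by decide +kernel
def f2884 : fk 7588 2884 31 = true := by decide +kernel
def f2891 : fk 7588 2891 81 = true := by decide +kernel
def f2897 : fk 7588 2897 106 = true := by decide +kernel
def f2904 : fk 7588 2904 53 = true := by decide +kernel
def f2907 : fk 7588 2907 102 = true := by decide +kernel
def f2908 : fk 7588 2908 26 = true := by decide +kernel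
def f2916 : fk 7588 2916 52 = true := by decide +kernel
def f2918 : fk 7588 2918 42 = true := by decide +kernel
def f2922 : fk 7588 2922 53 = true := by decide +kernel
def f2924 : fk 7588 2924 47 = true := by decide +kernel
def f2930 : fk 7588 2930 49 = true := by decide +kernel
def f2935 : fk 7588 2935 63 = true := by decide +kernel
def f2940 : fk 7588 2940 45 = true := by decide +kernel
def f2943 : fk 7588 2943 84 = true := by decide +kernel
def f2946 : fk 7588 2946 48 = true := by decide +kernel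
def f2952 : fk 7588 2952 49 = true := by decide +kernel
def f2953 : fk 7588 2953 56 = true := by decide +kernel
def f2954 : fk 7588 2954 45 = true := by decide +kernel
def f2955 : fk 7588 2955 101 = true := by decide +kernel
def f2960 : fk 7588 2960 48 = true := by decide +kernel
def f2964 : fk 7588 2964 50 = true := by decide +kernel
def f2967 : fk 7588 2967 105 = true := by decide +kernel

theorem fer : ∀ k ∈ [2787, 2790, 2798, 2807, 2821, 2824, 2827, 2849, 2851, 2852, 2854, 2858, 2863, 2869, 2873, 2875, 2881, 2884, 2891, 2897, 2904, 2907, 2908, 2916, 2918, 2922, 2924, 2930, 2935, 2940, 2943, 2946, 2952, 2953, 2954, 2955, 2960, 2964, 2967], ¬ (num 7588 k).Prime :=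
  cons_ok (fk_spec _ _ _ f2787) <|
  cons_ok (fk_spec _ _ _ f2790) <|
  cons_ok (fk_spec _ _ _ f2798) <|
  cons_ok (fk_spec _ _ _ f2807) <|
  cons_ok (fk_spec _ _ _ f2821) <|
  cons_ok (fk_spec _ _ _ f2824) <|
  cons_ok (fk_spec _ _ _ f2827) <|
  cons_ok (fk_spec _ _ _ f2849) <|
  cons_ok (fk_spec _ _ _ f2851) <|
  cons_ok (fk_spec _ _ _ f2852) <|
  cons_ok (fk_spec _ _ _ f2854) <|
  cons_ok (fk_spec _ _ _ f2858) <|
  cons_ok (fk_spec _ _ _ f2863) <|
  cons_ok (fk_spec _ _ _ f2869) <|
  cons_ok (fk_spec _ _ _ f2873) <|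
  cons_ok (fk_spec _ _ _ f2875) <|
  cons_ok (fk_spec _ _ _ f2881) <|
  cons_ok (fk_spec _ _ _ f2884) <|
  cons_ok (fk_spec _ _ _ f2891) <|
  cons_ok (fk_spec _ _ _ f2897) <|
  cons_ok (fk_spec _ _ _ f2904) <|
  cons_ok (fk_spec _ _ _ f2907) <|
  cons_ok (fk_spec _ _ _ f2908) <|
  cons_ok (fk_spec _ _ _ f2916) <|
  cons_ok (fk_spec _ _ _ f2918) <|
  cons_ok (fk_spec _ _ _ f2922) <|
  cons_ok (fk_spec _ _ _ f2924) <|
  cons_ok (fk_spec _ _ _ f2930) <|
  cons_ok (fk_spec _ _ _ f2935) <|
  cons_ok (fk_spec _ _ _ f2940) <|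
  cons_ok (fk_spec _ _ _ f2943) <|
  cons_ok (fk_spec _ _ _ f2946) <|
  cons_ok (fk_spec _ _ _ f2952) <|
  cons_ok (fk_spec _ _ _ f2953) <|
  cons_ok (fk_spec _ _ _ f2954) <|
  cons_ok (fk_spec _ _ _ f2955) <|
  cons_ok (fk_spec _ _ _ f2960) <|
  cons_ok (fk_spec _ _ _ f2964) <|
  cons_ok (fk_spec _ _ _ f2967) <|
  nil_ok 7588

theorem rng : ∀ k, 2783 ≤ k → k < 2968 → ¬ (num 7588 k).Prime :=
  range_of 7588 2783 2968 [47, 160243, 701, 5, 0, 136277, 11, 0, 571, 67, 29, 281, 724601, 19, 23, 0, 7910081, 911, 5, 11, 7, 7159, 463, 48527, 0, 32183, 17, 93637, 23, 83, 107, 97, 53, 163, 31, 11, 67, 794509, 0, 13, 1987, 0, 23, 17, 0, 2143, 11, 131, 47, 43, 11, 11, 11, 419, 89, 59, 23, 17, 2069, 15527, 23, 11, 101, 5, 14347, 401, 0, 1933, 0, 0, 259547, 0, 821819, 167, 11, 0, 239, 47, 1609, 11, 0, 67, 17, 363397, 103, 437237, 0, 131, 383, 691, 0, 17, 0, 103, 83, 382843, 53, 7, 0, 179, 4021, 0, 1123, 5, 103, 5281, 11, 11, 0, 2053, 16952129, 197, 107, 47, 0, 31, 1753, 11, 643, 53, 12119,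 0, 29021, 47, 0, 0, 61, 11, 11, 11, 563, 421, 239, 0, 1489, 0, 19, 211, 103, 0, 3812111, 0, 71, 43, 137, 19, 7, 0, 173, 181, 3607, 19, 0, 7, 79, 1723577, 11, 0, 479, 61, 0, 293, 11, 0, 192259, 10061, 47, 7, 739, 0, 0, 0, 0, 557, 19, 233, 17, 0, 149, 3019, 43, 0, 379, 5, 0] _ (by decide +kernel) (by decide +kernel) fer (by decide +kernel)

end Pool.Agent.N682.KK.Z17
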