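import Pool.Agent.N682.KK.Fer2

set_option autoImplicit false
set_option maxRecDepth 100000
set_option linter.defProp false

/-! Certificates for `k * (k + 1) ^ φ(7588 - k) + 1` with `2968 ≤ k < 3224`. -/

namespace Pool.Agent.N682.KK.Z18

def f2998 : fk 7588 2998 27 = true := by decide +kernel
def f3002 : fk 7588 3002 52 = true := by decide +kernel
def f3019 : fk 7588 3019 69 = true := by decide +kernel
def f3023 : fk 7588 3023 75 = true := by decide +kernel
def f3030 : fk 7588 3030 50 = true := by decide +kernel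
def f3040 : fk 7588 3040 35 = true := by decide +kernel
def f3051 : fk 7588 3051 95 = true := by decide +kernel
def f3059 : fk 7588 3059 88 = true := by decide +kernel
def f3060 : fk 7588 3060 52 = true := by decide +kernel
def f3062 : fk 7588 3062 49 = true := by decide +kernel
def f3064 : fk 7588 3064 31 = true := by decide +kernel
def f3065 : fk 7588 3065 103 = true := by decide +kernel
def f3075 : fk 7588 3075 103 = true := by decide +kernel
def f3079 : fk 7588 3079 68 = true := by decide +kernel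
def f3094 : fk 7588 3094 29 = true := by decide +kernel
def f3096 : fk 7588 3096 51 = true := by decide +kernel
def f3098 : fk 7588 3098 41 = true := by decide +kernel
def f3102 : fk 7588 3102 51 = true := by decide +kernel
def f3106 : fk 7588 3106 34 = true := by decide +kernel
def f3120 : fk 7588 3120 51 = true := by decide +kernel
def f3125 : fk 7588 3125 102 = true := by decide +kernel
def f3126 : fk 7588 3126 48 = true := by decide +kernel
def f3129 : fk 7588 3129 81 = true := by decide +kernel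
def f3139 : fk 7588 3139 68 = true := by decide +kernel
def f3145 : fk 7588 3145 68 = true := by decide +kernel
def f3173 : fk 7588 3173 81 = true := by decide +kernel
def f3178 : fk 7588 3178 23 = true := by decide +kernel
def f3183 : fk 7588 3183 81 = true := by decide +kernel
def f3188 : fk 7588 3188 37 = true := by decide +kernel
def f3189 : fk 7588 3189 97 = true := by decide +kernel
def f3192 : fk 7588 3192 43 = true := by decide +kernel
def f3204 : fk 7588 3204 50 = true := by decide +kernel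
def f3205 : fk 7588 3205 67 = true := by decide +kernel
def f3209 : fk 7588 3209 96 = true := by decide +kernel
def f3211 : fk 7588 3211 67 = true := by decide +kernel
def f3213 : fk 7588 3213 69 = true := by decide +kernel
def f3222 : fk 7588 3222 48 = true := by decide +kernel
def f3223 : fk 7588 3223 53 = true := by decide +kernel

theorem fer : ∀ k ∈ [2998, 3002, 3019, 3023, 3030, 3040, 3051, 3059, 3060, 3062, 3064, 3065, 3075, 3079, 3094, 3096, 3098, 3102, 3106, 3120, 3125, 3126, 3129, 3139, 3145, 3173, 3178, 3183, 3188, 3189, 3192, 3204, 3205, 3209, 3211, 3213, 3222, 3223], ¬ (num 7588 k).Prime :=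
  cons_ok (fk_spec _ _ _ f2998) <|
  cons_ok (fk_spec _ _ _ f3002) <|
  cons_ok (fk_spec _ _ _ f3019) <|
  cons_ok (fk_spec _ _ _ f3023) <|
  cons_ok (fk_spec _ _ _ f3030) <|
  cons_ok (fk_spec _ _ _ f3040) <|
  cons_ok (fk_spec _ _ _ f3051) <|
  cons_ok (fk_spec _ _ _ f3059) <|
  cons_ok (fk_spec _ _ _ f3060) <|
  cons_ok (fk_spec _ _ _ f3062) <|
  cons_ok (fk_spec _ _ _ f3064) <|
  cons_ok (fk_spec _ _ _ f3065) <|
  cons_ok (fk_spec _ _ _ f3075) <|
  cons_ok (fk_spec _ _ _ f3079) <|
  cons_ok (fk_spec _ _ _ f3094) <|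
  cons_ok (fk_spec _ _ _ f3096) <|
  cons_ok (fk_spec _ _ _ f3098) <|
  cons_ok (fk_spec _ _ _ f3102) <|
  cons_ok (fk_spec _ _ _ f3106) <|
  cons_ok (fk_spec _ _ _ f3120) <|
  cons_ok (fk_spec _ _ _ f3125) <|
  cons_ok (fk_spec _ _ _ f3126) <|
  cons_ok (fk_spec _ _ _ f3129) <|
  cons_ok (fk_spec _ _ _ f3139) <|
  cons_ok (fk_spec _ _ _ f3145) <|
  cons_ok (fk_spec _ _ _ f3173) <|
  cons_ok (fk_spec _ _ _ f3178) <|
  cons_ok (fk_spec _ _ _ f3183) <|
  cons_ok (fk_spec _ _ _ f3188) <|
  cons_ok (fk_spec _ _ _ f3189) <|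
  cons_ok (fk_spec _ _ _ f3192) <|
  cons_ok (fk_spec _ _ _ f3204) <|
  cons_ok (fk_spec _ _ _ f3205) <|
  cons_ok (fk_spec _ _ _ f3209) <|
  cons_ok (fk_spec _ _ _ f3211) <|
  cons_ok (fk_spec _ _ _ f3213) <|
  cons_ok (fk_spec _ _ _ f3222) <|
  cons_ok (fk_spec _ _ _ f3223) <|
  nil_ok 7588

theorem rng : ∀ k, 2968 ≤ k → k < 3224 → ¬ (num 7588 k).Prime :=
  range_of 7588 2968 3224 [659, 701, 74077, 17, 53, 120563, 1483, 643, 101, 1531, 8578513, 19, 61, 1367, 89, 11, 70121, 83, 4933, 883, 1521617, 11, 204151, 23977, 2671, 163, 18607487, 173, 29, 7043, 0, 643, 29, 23, 0, 19559, 23, 17077343, 3019, 727, 37, 23, 11, 41, 151, 1871, 106957, 787, 61, 5753453, 7856881, 0, 29, 5, 30071, 0, 71, 16937, 863, 2341, 491, 103, 0, 349, 4451, 349, 149, 401, 19, 47, 29, 17, 0, 5, 787537, 3259, 31, 37, 419, 17, 7, 79, 23, 0, 347, 31, 11, 7, 757, 383, 53, 0, 0, 17, 0, 199, 0, 0, 149, 1772461, 66959, 13, 1061, 653, 9674557, 79, 339887, 0, 7, 11, 59093, 0, 15287, 5, 37, 719, 107, 257, 5, 9619, 4503557,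 193, 10970369, 13, 23, 2107073, 0, 17, 0, 11, 0, 11, 173, 1913, 0, 30711041, 11, 137587, 0, 73, 2337527, 86477, 22871, 3023, 9213319, 593, 1231, 283, 109, 5281, 7, 937, 0, 317, 6277, 181, 3779, 0, 0, 142963, 367, 0, 13, 11, 1787, 2357, 179, 67, 1029337, 17, 29, 0, 1409, 5, 11, 1489, 310273, 0, 17, 509137, 594271, 149, 44853817, 719, 23271091, 1132423, 31, 4057, 96479, 4727227, 269, 6607, 63727, 23, 1993, 71, 733, 11, 19, 29, 113, 137, 269, 138289, 281, 0, 31, 1918991, 179, 33739, 0, 31, 880709, 11, 89, 0, 43, 31, 7972219, 47, 0, 0, 293, 2311, 0, 110651, 29, 29, 89, 211, 11, 22921, 6689, 293, 41, 29, 0, 0, 510127, 109, 331, 0, 433, 0, 2207, 0, 11, 191, 1240097, 53, 167, 11, 11, 276623, 0, 0] _ (by decide +kernel) (by decide +kernel) fer (by decide +kernel)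

end Pool.Agent.N682.KK.Z18
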