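import Pool.Agent.N682.KK.Fer2

set_option autoImplicit false
set_option maxRecDepth 100000
set_option linter.defProp false

/-! Certificates for `k * (k + 1) ^ φ(7588 - k) + 1` with `3224 ≤ k < 3430`. -/

namespace Pool.Agent.N682.KK.Z19

def f3224 : fk 7588 3224 50 = true := by decide +kernel
def f3229 : fk 7588 3229 67 = true := by decide +kernel
def f3230 : fk 7588 3230 50 = true := by decide +kernel
def f3233 : fk 7588 3233 73 = true := by decide +kernel
def f3239 : fk 7588 3239 100 = true := by decide +kernel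
def f3243 : fk 7588 3243 72 = true := by decide +kernel
def f3244 : fk 7588 3244 33 = true := by decide +kernel
def f3245 : fk 7588 3245 96 = true := by decide +kernel
def f3247 : fk 7588 3247 66 = true := by decide +kernel
def f3250 : fk 7588 3250 33 = true := by decide +kernel
def f3255 : fk 7588 3255 85 = true := by decide +kernel
def f3268 : fk 7588 3268 27 = true := by decide +kernel
def f3272 : fk 7588 3272 45 = true := by decide +kernel
def f3285 : fk 7588 3285 91 = true := by decide +kernel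
def f3291 : fk 7588 3291 99 = true := by decide +kernel
def f3292 : fk 7588 3292 33 = true := by decide +kernel
def f3306 : fk 7588 3306 49 = true := by decide +kernel
def f3309 : fk 7588 3309 89 = true := by decide +kernel
def f3317 : fk 7588 3317 98 = true := by decide +kernel
def f3318 : fk 7588 3318 33 = true := by decide +kernel
def f3323 : fk 7588 3323 78 = true := by decide +kernel
def f3324 : fk 7588 3324 44 = true := by decide +kernel
def f3328 : fk 7588 3328 26 = true := by decide +kernel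
def f3331 : fk 7588 3331 58 = true := by decide +kernel
def f3333 : fk 7588 3333 73 = true := by decide +kernel
def f3360 : fk 7588 3360 42 = true := by decide +kernel
def f3361 : fk 7588 3361 65 = true := by decide +kernel
def f3363 : fk 7588 3363 72 = true := by decide +kernel
def f3367 : fk 7588 3367 55 = true := by decide +kernel
def f3371 : fk 7588 3371 97 = true := by decide +kernel
def f3374 : fk 7588 3374 41 = true := by decide +kernel
def f3381 : fk 7588 3381 83 = true := by decide +kernel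
def f3382 : fk 7588 3382 33 = true := by decide +kernel
def f3403 : fk 7588 3403 50 = true := by decide +kernel
def f3408 : fk 7588 3408 34 = true := by decide +kernel
def f3416 : fk 7588 3416 41 = true := by decide +kernel
def f3420 : fk 7588 3420 48 = true := by decide +kernel
def f3429 : fk 7588 3429 96 = true := by decide +kernel

theorem fer : ∀ k ∈ [3224, 3229, 3230, 3233, 3239, 3243, 3244, 3245, 3247, 3250, 3255, 3268, 3272, 3285, 3291, 3292, 3306, 3309, 3317, 3318, 3323, 3324, 3328, 3331, 3333, 3360, 3361, 3363, 3367, 3371, 3374, 3381, 3382, 3403, 3408, 3416, 3420, 3429], ¬ (num 7588 k).Prime :=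
  cons_ok (fk_spec _ _ _ f3224) <|
  cons_ok (fk_spec _ _ _ f3229) <|
  cons_ok (fk_spec _ _ _ f3230) <|
  cons_ok (fk_spec _ _ _ f3233) <|
  cons_ok (fk_spec _ _ _ f3239) <|
  cons_ok (fk_spec _ _ _ f3243) <|
  cons_ok (fk_spec _ _ _ f3244) <|
  cons_ok (fk_spec _ _ _ f3245) <|
  cons_ok (fk_spec _ _ _ f3247) <|
  cons_ok (fk_spec _ _ _ f3250) <|
  cons_ok (fk_spec _ _ _ f3255) <|
  cons_ok (fk_spec _ _ _ f3268) <|
  cons_ok (fk_spec _ _ _ f3272) <|
  cons_ok (fk_spec _ _ _ f3285) <|
  cons_ok (fk_spec _ _ _ f3291) <|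
  cons_ok (fk_spec _ _ _ f3292) <|
  cons_ok (fk_spec _ _ _ f3306) <|
  cons_ok (fk_spec _ _ _ f3309) <|
  cons_ok (fk_spec _ _ _ f3317) <|
  cons_ok (fk_spec _ _ _ f3318) <|
  cons_ok (fk_spec _ _ _ f3323) <|
  cons_ok (fk_spec _ _ _ f3324) <|
  cons_ok (fk_spec _ _ _ f3328) <|
  cons_ok (fk_spec _ _ _ f3331) <|
  cons_ok (fk_spec _ _ _ f3333) <|
  cons_ok (fk_spec _ _ _ f3360) <|
  cons_ok (fk_spec _ _ _ f3361) <|
  cons_ok (fk_spec _ _ _ f3363) <|
  cons_ok (fk_spec _ _ _ f3367) <|
  cons_ok (fk_spec _ _ _ f3371) <|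
  cons_ok (fk_spec _ _ _ f3374) <|
  cons_ok (fk_spec _ _ _ f3381) <|
  cons_ok (fk_spec _ _ _ f3382) <|
  cons_ok (fk_spec _ _ _ f3403) <|
  cons_ok (fk_spec _ _ _ f3408) <|
  cons_ok (fk_spec _ _ _ f3416) <|
  cons_ok (fk_spec _ _ _ f3420) <|
  cons_ok (fk_spec _ _ _ f3429) <|
  nil_ok 7588

theorem rng : ∀ k, 3224 ≤ k → k < 3430 → ¬ (num 7588 k).Prime :=
  range_of 7588 3224 3430 [0, 13, 2663, 61819, 51347, 0, 0, 17, 29, 0, 3088931, 2721227, 11, 387659, 101, 0, 59, 11, 12539, 0, 0, 0, 37, 0, 89, 1117, 0, 49633, 683, 73, 137, 0, 79, 5939, 11, 1305233, 23, 5, 47, 47, 107, 7, 103, 6841, 0, 47, 64937, 2591, 0, 11, 11, 16193, 307, 17, 191, 463, 23, 107, 19, 37, 41, 0, 13163, 163, 2027, 19, 53, 0, 0, 839, 23, 11, 11, 11, 106703, 109, 139, 131, 1433, 16619, 181, 5009, 0, 7, 389, 0, 1171, 29, 57679, 147283, 19, 29, 167, 0, 0, 17, 37, 19, 23, 0, 0, 773, 5, 11597, 0, 53, 127, 0, 757, 0, 248797, 67, 17, 270709, 19, 41, 313, 223, 23, 643061, 546097, 23, 53, 1721, 131, 257, 443, 11, 53731,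 137, 59, 293, 7, 16759, 11117, 31, 0, 0, 43, 0, 13, 127, 5, 0, 8974741, 11177, 47, 0, 607, 709, 0, 2963, 173, 23, 37, 127, 167, 0, 0, 11, 17, 6343, 491, 16927, 71, 311153, 11, 5651, 83, 127, 19, 23, 19, 179, 53, 53, 167, 117989, 29, 0, 283, 11, 263, 11, 0, 1559, 1031, 83, 79, 191, 19, 37, 0, 11423, 229, 353, 0, 281131, 5281, 11, 47, 3863, 1831, 22409, 11, 0] _ (by decide +kernel) (by decide +kernel) fer (by decide +kernel)

end Pool.Agent.N682.KK.Z19
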