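import Pool.Agent.N682.KK.Fer2

set_option autoImplicit false
set_option maxRecDepth 100000
set_option linter.defProp false

/-! Certificates for `k * (k + 1) ^ φ(7588 - k) + 1` with `3430 ≤ k < 3750`. -/

namespace Pool.Agent.N682.KK.Z20

def f3430 : fk 7588 3430 25 = true := by decide +kernel
def f3434 : fk 7588 3434 46 = true := by decide +kernel
def f3436 : fk 7588 3436 32 = true := by decide +kernel
def f3452 : fk 7588 3452 43 = true := by decide +kernel
def f3459 : fk 7588 3459 95 = true := by decide +kernel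
def f3460 : fk 7588 3460 31 = true := by decide +kernel
def f3464 : fk 7588 3464 48 = true := by decide +kernel
def f3470 : fk 7588 3470 46 = true := by decide +kernel
def f3476 : fk 7588 3476 48 = true := by decide +kernel
def f3484 : fk 7588 3484 30 = true := by decide +kernel
def f3492 : fk 7588 3492 48 = true := by decide +kernel
def f3496 : fk 7588 3496 28 = true := by decide +kernel
def f3510 : fk 7588 3510 47 = true := by decide +kernel
def f3513 : fk 7588 3513 75 = true := by decide +kernel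
def f3519 : fk 7588 3519 87 = true := by decide +kernel
def f3520 : fk 7588 3520 31 = true := by decide +kernel
def f3521 : fk 7588 3521 80 = true := by decide +kernel
def f3523 : fk 7588 3523 50 = true := by decide +kernel
def f3538 : fk 7588 3538 25 = true := by decide +kernel
def f3539 : fk 7588 3539 94 = true := by decide +kernel
def f3544 : fk 7588 3544 31 = true := by decide +kernel
def f3545 : fk 7588 3545 86 = true := by decide +kernel
def f3554 : fk 7588 3554 47 = true := by decide +kernel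
def f3569 : fk 7588 3569 93 = true := by decide +kernel
def f3589 : fk 7588 3589 59 = true := by decide +kernel
def f3598 : fk 7588 3598 20 = true := by decide +kernel
def f3618 : fk 7588 3618 37 = true := by decide +kernel
def f3619 : fk 7588 3619 53 = true := by decide +kernel
def f3623 : fk 7588 3623 67 = true := by decide +kernel
def f3631 : fk 7588 3631 61 = true := by decide +kernel
def f3640 : fk 7588 3640 26 = true := by decide +kernel
def f3642 : fk 7588 3642 46 = true := by decide +kernel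
def f3645 : fk 7588 3645 92 = true := by decide +kernel
def f3654 : fk 7588 3654 39 = true := by decide +kernel
def f3660 : fk 7588 3660 46 = true := by decide +kernel
def f3661 : fk 7588 3661 45 = true := by decide +kernel
def f3662 : fk 7588 3662 42 = true := by decide +kernel
def f3664 : fk 7588 3664 30 = true := by decide +kernel
def f3665 : fk 7588 3665 91 = true := by decide +kernel
def f3673 : fk 7588 3673 47 = true := by decide +kernel
def f3682 : fk 7588 3682 26 = true := by decide +kernel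
def f3698 : fk 7588 3698 36 = true := by decide +kernel
def f3699 : fk 7588 3699 91 = true := by decide +kernel
def f3705 : fk 7588 3705 82 = true := by decide +kernel
def f3708 : fk 7588 3708 36 = true := by decide +kernel
def f3716 : fk 7588 3716 41 = true := by decide +kernel
def f3717 : fk 7588 3717 76 = true := by decide +kernel
def f3723 : fk 7588 3723 72 = true := by decide +kernel
def f3730 : fk 7588 3730 30 = true := by decide +kernel
def f3733 : fk 7588 3733 48 = true := by decide +kernel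
def f3738 : fk 7588 3738 28 = true := by decide +kernel
def f3742 : fk 7588 3742 30 = true := by decide +kernel
def f3744 : fk 7588 3744 44 = true := by decide +kernel
def f3746 : fk 7588 3746 42 = true := by decide +kernel
def f3749 : fk 7588 3749 81 = true := by decide +kernel

theorem fer : ∀ k ∈ [3430, 3434, 3436, 3452, 3459, 3460, 3464, 3470, 3476, 3484, 3492, 3496, 3510, 3513, 3519, 3520, 3521, 3523, 3538, 3539, 3544, 3545, 3554, 3569, 3589, 3598, 3618, 3619, 3623, 3631, 3640, 3642, 3645, 3654, 3660, 3661, 3662, 3664, 3665, 3673, 3682, 3698, 3699, 3705, 3708, 3716, 3717, 3723, 3730, 3733, 3738, 3742, 3744, 3746, 3749], ¬ (num 7588 k).Prime :=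
  cons_ok (fk_spec _ _ _ f3430) <|
  cons_ok (fk_spec _ _ _ f3434) <|
  cons_ok (fk_spec _ _ _ f3436) <|
  cons_ok (fk_spec _ _ _ f3452) <|
  cons_ok (fk_spec _ _ _ f3459) <|
  cons_ok (fk_spec _ _ _ f3460) <|
  cons_ok (fk_spec _ _ _ f3464) <|
  cons_ok (fk_spec _ _ _ f3470) <|
  cons_ok (fk_spec _ _ _ f3476) <|
  cons_ok (fk_spec _ _ _ f3484) <|
  cons_ok (fk_spec _ _ _ f3492) <|
  cons_ok (fk_spec _ _ _ f3496) <|
  cons_ok (fk_spec _ _ _ f3510) <|
  cons_ok (fk_spec _ _ _ f3513) <|
  cons_ok (fk_spec _ _ _ f3519) <|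
  cons_ok (fk_spec _ _ _ f3520) <|
  cons_ok (fk_spec _ _ _ f3521) <|
  cons_ok (fk_spec _ _ _ f3523) <|
  cons_ok (fk_spec _ _ _ f3538) <|
  cons_ok (fk_spec _ _ _ f3539) <|
  cons_ok (fk_spec _ _ _ f3544) <|
  cons_ok (fk_spec _ _ _ f3545) <|
  cons_ok (fk_spec _ _ _ f3554) <|
  cons_ok (fk_spec _ _ _ f3569) <|
  cons_ok (fk_spec _ _ _ f3589) <|
  cons_ok (fk_spec _ _ _ f3598) <|
  cons_ok (fk_spec _ _ _ f3618) <|
  cons_ok (fk_spec _ _ _ f3619) <|
  cons_ok (fk_spec _ _ _ f3623) <|
  cons_ok (fk_spec _ _ _ f3631) <|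
  cons_ok (fk_spec _ _ _ f3640) <|
  cons_ok (fk_spec _ _ _ f3642) <|
  cons_ok (fk_spec _ _ _ f3645) <|
  cons_ok (fk_spec _ _ _ f3654) <|
  cons_ok (fk_spec _ _ _ f3660) <|
  cons_ok (fk_spec _ _ _ f3661) <|
  cons_ok (fk_spec _ _ _ f3662) <|
  cons_ok (fk_spec _ _ _ f3664) <|
  cons_ok (fk_spec _ _ _ f3665) <|
  cons_ok (fk_spec _ _ _ f3673) <|
  cons_ok (fk_spec _ _ _ f3682) <|
  cons_ok (fk_spec _ _ _ f3698) <|
  cons_ok (fk_spec _ _ _ f3699) <|
  cons_ok (fk_spec _ _ _ f3705) <|
  cons_ok (fk_spec _ _ _ f3708) <|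
  cons_ok (fk_spec _ _ _ f3716) <|
  cons_ok (fk_spec _ _ _ f3717) <|
  cons_ok (fk_spec _ _ _ f3723) <|
  cons_ok (fk_spec _ _ _ f3730) <|
  cons_ok (fk_spec _ _ _ f3733) <|
  cons_ok (fk_spec _ _ _ f3738) <|
  cons_ok (fk_spec _ _ _ f3742) <|
  cons_ok (fk_spec _ _ _ f3744) <|
  cons_ok (fk_spec _ _ _ f3746) <|
  cons_ok (fk_spec _ _ _ f3749) <|
  nil_ok 7588

theorem rng : ∀ k, 3430 ≤ k → k < 3750 → ¬ (num 7588 k).Prime :=
  range_of 7588 3430 3750 [0, 115727, 19, 13751, 0, 691, 0, 31, 6079, 229, 101, 941, 43, 61, 47, 5171, 23, 71, 2909, 11, 3539, 11, 0, 19, 10973, 241, 31, 47, 1217, 0, 0, 5, 11, 227, 0, 409, 593, 43, 31, 12823, 0, 52249, 11, 29, 47, 193, 0, 256337, 11, 43, 61, 2309, 163, 124981, 0, 19, 443, 5501, 73, 11, 3453731, 79, 0, 11, 11, 11, 0, 35201, 522959, 337, 11, 569, 29, 439, 47, 71, 11, 27404413, 37507, 59239, 0, 67, 107, 0, 1000313, 27579463, 31, 7, 439, 0, 0, 0, 11, 0, 23, 4085561, 14951, 50581, 419, 287393, 149, 733, 4243, 79, 23, 1049, 37, 13, 0, 0, 31,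 101, 19, 937, 0, 0, 19, 33413, 167, 11, 1535767, 241, 107, 23, 0, 11, 371939, 20149, 83, 31721, 5791, 5, 1063, 47, 7028563, 1289, 5, 7272767, 1129, 0, 463, 29, 13, 29, 317, 19, 2848369, 43, 133781, 236399, 7, 5, 1871, 11, 137, 9949, 251, 19, 797, 0, 37, 17, 317, 151, 19, 50527, 3319, 284783, 0, 11, 2417, 8929931, 61, 61, 19, 2162387, 439, 1939033, 43, 29, 53, 6959, 79, 61, 557, 53, 151, 643, 0, 0, 439, 5, 19, 0, 231067, 271, 61, 11, 337, 103, 43, 0, 11, 41, 17, 491, 11, 4363, 653, 17, 0, 5, 0, 7, 18341, 0, 509, 29, 31, 23, 101, 17, 9029, 37, 0, 34877, 17, 17, 79, 29, 0, 0, 0, 43, 0, 0, 181, 230647, 331, 11, 67, 83, 3557, 0, 659, 229, 409, 2560339, 1427, 64290859, 71, 5, 0, 137, 8681, 7, 5, 61, 29, 139, 17, 12659, 149, 179, 15193, 7105991, 29, 149, 0, 0, 43, 809, 11, 71, 37, 0, 7, 1637, 0, 257, 23, 37, 683, 19, 11, 509, 0, 0, 3643, 1157671, 184279, 7321, 631, 0, 1187, 45777101, 5, 67, 191, 557, 0, 2593, 19, 0, 199, 103, 23, 19, 0, 5345273, 293, 5, 0, 353, 0, 77260423, 0, 41,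 74201, 0] _ (by decide +kernel) (by decide +kernel) fer (by decide +kernel)

end Pool.Agent.N682.KK.Z20
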