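import Pool.Agent.N682.KK.Fer2

set_option autoImplicit false
set_option maxRecDepth 100000
set_option linter.defProp false

/-! Certificates for `k * (k + 1) ^ φ(7588 - k) + 1` with `3750 ≤ k < 4120`. -/

namespace Pool.Agent.N682.KK.Z21

def f3751 : fk 7588 3751 60 = true := by decide +kernel
def f3756 : fk 7588 3756 45 = true := by decide +kernel
def f3777 : fk 7588 3777 86 = true := by decide +kernel
def f3787 : fk 7588 3787 51 = true := by decide +kernel
def f3790 : fk 7588 3790 30 = true := by decide +kernel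
def f3792 : fk 7588 3792 41 = true := by decide +kernel
def f3797 : fk 7588 3797 83 = true := by decide +kernel
def f3799 : fk 7588 3799 59 = true := by decide +kernel
def f3803 : fk 7588 3803 71 = true := by decide +kernel
def f3804 : fk 7588 3804 40 = true := by decide +kernel
def f3805 : fk 7588 3805 54 = true := by decide +kernel
def f3806 : fk 7588 3806 42 = true := by decide +kernel
def f3818 : fk 7588 3818 32 = true := by decide +kernel
def f3833 : fk 7588 3833 70 = true := by decide +kernel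
def f3835 : fk 7588 3835 58 = true := by decide +kernel
def f3839 : fk 7588 3839 83 = true := by decide +kernel
def f3844 : fk 7588 3844 27 = true := by decide +kernel
def f3848 : fk 7588 3848 30 = true := by decide +kernel
def f3854 : fk 7588 3854 44 = true := by decide +kernel
def f3872 : fk 7588 3872 44 = true := by decide +kernel
def f3876 : fk 7588 3876 42 = true := by decide +kernel
def f3880 : fk 7588 3880 29 = true := by decide +kernel
def f3893 : fk 7588 3893 69 = true := by decide +kernel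
def f3904 : fk 7588 3904 29 = true := by decide +kernel
def f3908 : fk 7588 3908 33 = true := by decide +kernel
def f3909 : fk 7588 3909 79 = true := by decide +kernel
def f3913 : fk 7588 3913 40 = true := by decide +kernel
def f3919 : fk 7588 3919 58 = true := by decide +kernel
def f3922 : fk 7588 3922 26 = true := by decide +kernel
def f3924 : fk 7588 3924 43 = true := by decide +kernel
def f3928 : fk 7588 3928 23 = true := by decide +kernel
def f3930 : fk 7588 3930 41 = true := by decide +kernel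
def f3934 : fk 7588 3934 24 = true := by decide +kernel
def f3958 : fk 7588 3958 21 = true := by decide +kernel
def f3959 : fk 7588 3959 80 = true := by decide +kernel
def f3969 : fk 7588 3969 65 = true := by decide +kernel
def f3974 : fk 7588 3974 39 = true := by decide +kernel
def f3975 : fk 7588 3975 85 = true := by decide +kernel
def f3985 : fk 7588 3985 57 = true := by decide +kernel
def f3987 : fk 7588 3987 78 = true := by decide +kernel
def f3997 : fk 7588 3997 46 = true := by decide +kernel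
def f3998 : fk 7588 3998 34 = true := by decide +kernel
def f4009 : fk 7588 4009 56 = true := by decide +kernel
def f4016 : fk 7588 4016 39 = true := by decide +kernel
def f4017 : fk 7588 4017 84 = true := by decide +kernel
def f4019 : fk 7588 4019 81 = true := by decide +kernel
def f4020 : fk 7588 4020 42 = true := by decide +kernel
def f4038 : fk 7588 4038 33 = true := by decide +kernel
def f4043 : fk 7588 4043 67 = true := by decide +kernel
def f4056 : fk 7588 4056 42 = true := by decide +kernel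
def f4057 : fk 7588 4057 50 = true := by decide +kernel
def f4059 : fk 7588 4059 83 = true := by decide +kernel
def f4063 : fk 7588 4063 44 = true := by decide +kernel
def f4086 : fk 7588 4086 39 = true := by decide +kernel
def f4091 : fk 7588 4091 76 = true := by decide +kernel
def f4098 : fk 7588 4098 33 = true := by decide +kernel
def f4106 : fk 7588 4106 41 = true := by decide +kernel
def f4107 : fk 7588 4107 81 = true := by decide +kernel
def f4119 : fk 7588 4119 82 = true := by decide +kernel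

theorem fer : ∀ k ∈ [3751, 3756, 3777, 3787, 3790, 3792, 3797, 3799, 3803, 3804, 3805, 3806, 3818, 3833, 3835, 3839, 3844, 3848, 3854, 3872, 3876, 3880, 3893, 3904, 3908, 3909, 3913, 3919, 3922, 3924, 3928, 3930, 3934, 3958, 3959, 3969, 3974, 3975, 3985, 3987, 3997, 3998, 4009, 4016, 4017, 4019, 4020, 4038, 4043, 4056, 4057, 4059, 4063, 4086, 4091, 4098, 4106, 4107, 4119], ¬ (num 7588 k).Prime :=
  cons_ok (fk_spec _ _ _ f3751) <|
  cons_ok (fk_spec _ _ _ f3756) <|
  cons_ok (fk_spec _ _ _ f3777) <|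
  cons_ok (fk_spec _ _ _ f3787) <|
  cons_ok (fk_spec _ _ _ f3790) <|
  cons_ok (fk_spec _ _ _ f3792) <|
  cons_ok (fk_spec _ _ _ f3797) <|
  cons_ok (fk_spec _ _ _ f3799) <|
  cons_ok (fk_spec _ _ _ f3803) <|
  cons_ok (fk_spec _ _ _ f3804) <|
  cons_ok (fk_spec _ _ _ f3805) <|
  cons_ok (fk_spec _ _ _ f3806) <|
  cons_ok (fk_spec _ _ _ f3818) <|
  cons_ok (fk_spec _ _ _ f3833) <|
  cons_ok (fk_spec _ _ _ f3835) <|
  cons_ok (fk_spec _ _ _ f3839) <|
  cons_ok (fk_spec _ _ _ f3844) <|
  cons_ok (fk_spec _ _ _ f3848) <|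
  cons_ok (fk_spec _ _ _ f3854) <|
  cons_ok (fk_spec _ _ _ f3872) <|
  cons_ok (fk_spec _ _ _ f3876) <|
  cons_ok (fk_spec _ _ _ f3880) <|
  cons_ok (fk_spec _ _ _ f3893) <|
  cons_ok (fk_spec _ _ _ f3904) <|
  cons_ok (fk_spec _ _ _ f3908) <|
  cons_ok (fk_spec _ _ _ f3909) <|
  cons_ok (fk_spec _ _ _ f3913) <|
  cons_ok (fk_spec _ _ _ f3919) <|
  cons_ok (fk_spec _ _ _ f3922) <|
  cons_ok (fk_spec _ _ _ f3924) <|
  cons_ok (fk_spec _ _ _ f3928) <|
  cons_ok (fk_spec _ _ _ f3930) <|
  cons_ok (fk_spec _ _ _ f3934) <|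
  cons_ok (fk_spec _ _ _ f3958) <|
  cons_ok (fk_spec _ _ _ f3959) <|
  cons_ok (fk_spec _ _ _ f3969) <|
  cons_ok (fk_spec _ _ _ f3974) <|
  cons_ok (fk_spec _ _ _ f3975) <|
  cons_ok (fk_spec _ _ _ f3985) <|
  cons_ok (fk_spec _ _ _ f3987) <|
  cons_ok (fk_spec _ _ _ f3997) <|
  cons_ok (fk_spec _ _ _ f3998) <|
  cons_ok (fk_spec _ _ _ f4009) <|
  cons_ok (fk_spec _ _ _ f4016) <|
  cons_ok (fk_spec _ _ _ f4017) <|
  cons_ok (fk_spec _ _ _ f4019) <|
  cons_ok (fk_spec _ _ _ f4020) <|
  cons_ok (fk_spec _ _ _ f4038) <|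
  cons_ok (fk_spec _ _ _ f4043) <|
  cons_ok (fk_spec _ _ _ f4056) <|
  cons_ok (fk_spec _ _ _ f4057) <|
  cons_ok (fk_spec _ _ _ f4059) <|
  cons_ok (fk_spec _ _ _ f4063) <|
  cons_ok (fk_spec _ _ _ f4086) <|
  cons_ok (fk_spec _ _ _ f4091) <|
  cons_ok (fk_spec _ _ _ f4098) <|
  cons_ok (fk_spec _ _ _ f4106) <|
  cons_ok (fk_spec _ _ _ f4107) <|
  cons_ok (fk_spec _ _ _ f4119) <|
  nil_ok 7588

theorem rng : ∀ k, 3750 ≤ k → k < 4120 → ¬ (num 7588 k).Prime :=
  range_of 7588 3750 4120 [78697, 0, 1366163, 27077, 2351, 71, 0, 23567, 1447, 101, 877, 487, 197, 89, 3347, 4817, 277513, 6449, 313, 11, 1971667, 7079, 281, 347, 43, 79111, 7, 0, 26891, 23, 11, 461, 47, 205129, 71, 83, 71, 0, 62819, 97, 0, 11, 0, 13, 117841, 1277, 31963, 0, 355073, 0, 73, 941, 23, 0, 0, 0, 0, 101, 877, 271, 67, 7, 6983, 18133, 11, 23, 71881, 193, 0, 11, 2437, 5, 37, 271, 127, 16217, 461479, 59417, 164569, 43, 11, 19, 229, 0, 19, 0, 487, 701, 7283723, 0, 31, 29, 1523, 127, 0, 11, 5, 11, 0, 13, 137,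 30949, 19, 103, 0, 17, 257, 71, 109, 340757, 7, 5, 241, 487, 47, 1187, 28109, 47, 71, 739, 317, 257, 0, 191, 429139, 479, 0, 503, 11, 29, 0, 8677, 29873, 40543, 19, 290243, 3889, 331, 1993, 11, 11, 1531, 23, 0, 289973, 1061, 37, 21991, 233, 1979, 3121, 11, 5741, 19, 0, 631, 17, 11, 0, 0, 9769, 17, 11, 0, 17, 233, 9311, 19, 199, 0, 827, 43, 0, 21871, 0, 107, 5, 1301, 0, 11, 0, 1013, 13577, 11, 0, 26407, 13, 7, 419, 163, 317, 15583, 157, 5749, 7, 19, 11, 503, 1117, 37, 1531, 821, 315493, 647, 41, 197, 1741, 439, 0, 0, 19, 22303, 101, 23, 349, 3847, 5, 593071, 1690757, 0, 1489, 26840477, 8893, 4799, 0, 0, 3163, 47, 43, 293, 405553, 5, 53, 43, 23, 0, 83, 0, 991, 2039, 1192349, 179, 859, 547, 1163, 821, 127, 0, 0, 376853, 11, 167, 197, 977, 1938217, 13, 11, 41849, 29, 0, 11, 179, 23, 25127, 17, 401, 0, 0, 83, 0, 0, 7, 53, 37, 829, 67, 31, 13, 11, 7346191, 2687, 257, 823, 881, 53, 62987, 337, 28740791, 0, 23, 13, 5, 59, 0, 23, 1913, 101, 17, 2339, 139, 787, 44087, 101749, 911,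 101, 151, 0, 0, 67, 0, 101, 5, 373, 0, 154579, 149, 13, 11, 19, 43, 13, 107, 11, 59, 179, 379, 23, 227, 23, 13, 1604081, 1061, 47, 1231, 149, 3061, 0, 11, 53, 503, 13187, 0, 4271, 13037, 137, 1913, 433, 1567, 0, 23, 541, 61, 29, 277, 41, 11, 0, 0, 2423, 509, 11, 23, 19, 257, 61, 17, 443, 1103, 2089, 0] _ (by decide +kernel) (by decide +kernel) fer (by decide +kernel)

end Pool.Agent.N682.KK.Z21
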