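import Pool.Agent.N682.KK.Fer2

set_option autoImplicit false
set_option maxRecDepth 100000
set_option linter.defProp false

/-! Certificates for `k * (k + 1) ^ φ(7588 - k) + 1` with `4120 ≤ k < 4576`. -/

namespace Pool.Agent.N682.KK.Z22

def f4123 : fk 7588 4123 34 = true := by decide +kernel
def f4132 : fk 7588 4132 28 = true := by decide +kernel
def f4139 : fk 7588 4139 81 = true := by decide +kernel
def f4147 : fk 7588 4147 51 = true := by decide +kernel
def f4148 : fk 7588 4148 32 = true := by decide +kernel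
def f4161 : fk 7588 4161 77 = true := by decide +kernel
def f4162 : fk 7588 4162 27 = true := by decide +kernel
def f4166 : fk 7588 4166 39 = true := by decide +kernel
def f4168 : fk 7588 4168 21 = true := by decide +kernel
def f4171 : fk 7588 4171 50 = true := by decide +kernel
def f4178 : fk 7588 4178 29 = true := by decide +kernel
def f4180 : fk 7588 4180 27 = true := by decide +kernel
def f4182 : fk 7588 4182 37 = true := by decide +kernel
def f4189 : fk 7588 4189 48 = true := by decide +kernel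
def f4204 : fk 7588 4204 26 = true := by decide +kernel
def f4215 : fk 7588 4215 80 = true := by decide +kernel
def f4233 : fk 7588 4233 57 = true := by decide +kernel
def f4238 : fk 7588 4238 32 = true := by decide +kernel
def f4242 : fk 7588 4242 34 = true := by decide +kernel
def f4252 : fk 7588 4252 27 = true := by decide +kernel
def f4253 : fk 7588 4253 59 = true := by decide +kernel
def f4254 : fk 7588 4254 40 = true := by decide +kernel
def f4267 : fk 7588 4267 51 = true := by decide +kernel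
def f4272 : fk 7588 4272 40 = true := by decide +kernel
def f4273 : fk 7588 4273 37 = true := by decide +kernel
def f4274 : fk 7588 4274 40 = true := by decide +kernel
def f4275 : fk 7588 4275 79 = true := by decide +kernel
def f4282 : fk 7588 4282 24 = true := by decide +kernel
def f4291 : fk 7588 4291 45 = true := by decide +kernel
def f4292 : fk 7588 4292 39 = true := by decide +kernel
def f4294 : fk 7588 4294 26 = true := by decide +kernel
def f4296 : fk 7588 4296 39 = true := by decide +kernel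
def f4298 : fk 7588 4298 27 = true := by decide +kernel
def f4323 : fk 7588 4323 62 = true := by decide +kernel
def f4328 : fk 7588 4328 31 = true := by decide +kernel
def f4336 : fk 7588 4336 26 = true := by decide +kernel
def f4347 : fk 7588 4347 66 = true := by decide +kernel
def f4359 : fk 7588 4359 77 = true := by decide +kernel
def f4364 : fk 7588 4364 35 = true := by decide +kernel
def f4368 : fk 7588 4368 25 = true := by decide +kernel
def f4369 : fk 7588 4369 48 = true := by decide +kernel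
def f4371 : fk 7588 4371 76 = true := by decide +kernel
def f4375 : fk 7588 4375 41 = true := by decide +kernel
def f4404 : fk 7588 4404 38 = true := by decide +kernel
def f4405 : fk 7588 4405 51 = true := by decide +kernel
def f4412 : fk 7588 4412 38 = true := by decide +kernel
def f4413 : fk 7588 4413 60 = true := by decide +kernel
def f4414 : fk 7588 4414 24 = true := by decide +kernel
def f4416 : fk 7588 4416 35 = true := by decide +kernel
def f4417 : fk 7588 4417 43 = true := by decide +kernel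
def f4422 : fk 7588 4422 38 = true := by decide +kernel
def f4424 : fk 7588 4424 32 = true := by decide +kernel
def f4434 : fk 7588 4434 35 = true := by decide +kernel
def f4438 : fk 7588 4438 18 = true := by decide +kernel
def f4443 : fk 7588 4443 55 = true := by decide +kernel
def f4449 : fk 7588 4449 72 = true := by decide +kernel
def f4452 : fk 7588 4452 32 = true := by decide +kernel
def f4454 : fk 7588 4454 38 = true := by decide +kernel
def f4473 : fk 7588 4473 51 = true := by decide +kernel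
def f4480 : fk 7588 4480 21 = true := by decide +kernel
def f4483 : fk 7588 4483 38 = true := by decide +kernel
def f4487 : fk 7588 4487 63 = true := by decide +kernel
def f4488 : fk 7588 4488 29 = true := by decide +kernel
def f4498 : fk 7588 4498 20 = true := by decide +kernel
def f4500 : fk 7588 4500 37 = true := by decide +kernel
def f4502 : fk 7588 4502 37 = true := by decide +kernel
def f4509 : fk 7588 4509 73 = true := by decide +kernel
def f4510 : fk 7588 4510 24 = true := by decide +kernel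
def f4518 : fk 7588 4518 30 = true := by decide +kernel
def f4519 : fk 7588 4519 43 = true := by decide +kernel
def f4522 : fk 7588 4522 21 = true := by decide +kernel
def f4527 : fk 7588 4527 73 = true := by decide +kernel
def f4535 : fk 7588 4535 70 = true := by decide +kernel
def f4539 : fk 7588 4539 73 = true := by decide +kernel
def f4540 : fk 7588 4540 24 = true := by decide +kernel
def f4541 : fk 7588 4541 66 = true := by decide +kernel
def f4544 : fk 7588 4544 37 = true := by decide +kernel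
def f4547 : fk 7588 4547 73 = true := by decide +kernel
def f4548 : fk 7588 4548 28 = true := by decide +kernel
def f4556 : fk 7588 4556 36 = true := by decide +kernel
def f4565 : fk 7588 4565 72 = true := by decide +kernel
def f4570 : fk 7588 4570 24 = true := by decide +kernel
def f4571 : fk 7588 4571 62 = true := by decide +kernel
def f4575 : fk 7588 4575 68 = true := by decide +kernel

theorem fer : ∀ k ∈ [4123, 4132, 4139, 4147, 4148, 4161, 4162, 4166, 4168, 4171, 4178, 4180, 4182, 4189, 4204, 4215, 4233, 4238, 4242, 4252, 4253, 4254, 4267, 4272, 4273, 4274, 4275, 4282, 4291, 4292, 4294, 4296, 4298, 4323, 4328, 4336, 4347, 4359, 4364, 4368, 4369, 4371, 4375, 4404, 4405, 4412, 4413, 4414, 4416, 4417, 4422, 4424, 4434, 4438, 4443, 4449, 4452, 4454, 4473, 4480, 4483, 4487, 4488, 4498, 4500, 4502, 4509, 4510, 4518, 4519, 4522, 4527, 4535, 4539, 4540, 4541, 4544, 4547, 4548, 4556, 4565, 4570, 4571, 4575], ¬ (num 7588 k).Prime :=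
  cons_ok (fk_spec _ _ _ f4123) <|
  cons_ok (fk_spec _ _ _ f4132) <|
  cons_ok (fk_spec _ _ _ f4139) <|
  cons_ok (fk_spec _ _ _ f4147) <|
  cons_ok (fk_spec _ _ _ f4148) <|
  cons_ok (fk_spec _ _ _ f4161) <|
  cons_ok (fk_spec _ _ _ f4162) <|
  cons_ok (fk_spec _ _ _ f4166) <|
  cons_ok (fk_spec _ _ _ f4168) <|
  cons_ok (fk_spec _ _ _ f4171) <|
  cons_ok (fk_spec _ _ _ f4178) <|
  cons_ok (fk_spec _ _ _ f4180) <|
  cons_ok (fk_spec _ _ _ f4182) <|
  cons_ok (fk_spec _ _ _ f4189) <|
  cons_ok (fk_spec _ _ _ f4204) <|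
  cons_ok (fk_spec _ _ _ f4215) <|
  cons_ok (fk_spec _ _ _ f4233) <|
  cons_ok (fk_spec _ _ _ f4238) <|
  cons_ok (fk_spec _ _ _ f4242) <|
  cons_ok (fk_spec _ _ _ f4252) <|
  cons_ok (fk_spec _ _ _ f4253) <|
  cons_ok (fk_spec _ _ _ f4254) <|
  cons_ok (fk_spec _ _ _ f4267) <|
  cons_ok (fk_spec _ _ _ f4272) <|
  cons_ok (fk_spec _ _ _ f4273) <|
  cons_ok (fk_spec _ _ _ f4274) <|
  cons_ok (fk_spec _ _ _ f4275) <|
  cons_ok (fk_spec _ _ _ f4282) <|
  cons_ok (fk_spec _ _ _ f4291) <|
  cons_ok (fk_spec _ _ _ f4292) <|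
  cons_ok (fk_spec _ _ _ f4294) <|
  cons_ok (fk_spec _ _ _ f4296) <|
  cons_ok (fk_spec _ _ _ f4298) <|
  cons_ok (fk_spec _ _ _ f4323) <|
  cons_ok (fk_spec _ _ _ f4328) <|
  cons_ok (fk_spec _ _ _ f4336) <|
  cons_ok (fk_spec _ _ _ f4347) <|
  cons_ok (fk_spec _ _ _ f4359) <|
  cons_ok (fk_spec _ _ _ f4364) <|
  cons_ok (fk_spec _ _ _ f4368) <|
  cons_ok (fk_spec _ _ _ f4369) <|
  cons_ok (fk_spec _ _ _ f4371) <|
  cons_ok (fk_spec _ _ _ f4375) <|
  cons_ok (fk_spec _ _ _ f4404) <|
  cons_ok (fk_spec _ _ _ f4405) <|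
  cons_ok (fk_spec _ _ _ f4412) <|
  cons_ok (fk_spec _ _ _ f4413) <|
  cons_ok (fk_spec _ _ _ f4414) <|
  cons_ok (fk_spec _ _ _ f4416) <|
  cons_ok (fk_spec _ _ _ f4417) <|
  cons_ok (fk_spec _ _ _ f4422) <|
  cons_ok (fk_spec _ _ _ f4424) <|
  cons_ok (fk_spec _ _ _ f4434) <|
  cons_ok (fk_spec _ _ _ f4438) <|
  cons_ok (fk_spec _ _ _ f4443) <|
  cons_ok (fk_spec _ _ _ f4449) <|
  cons_ok (fk_spec _ _ _ f4452) <|
  cons_ok (fk_spec _ _ _ f4454) <|
  cons_ok (fk_spec _ _ _ f4473) <|
  cons_ok (fk_spec _ _ _ f4480) <|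
  cons_ok (fk_spec _ _ _ f4483) <|
  cons_ok (fk_spec _ _ _ f4487) <|
  cons_ok (fk_spec _ _ _ f4488) <|
  cons_ok (fk_spec _ _ _ f4498) <|
  cons_ok (fk_spec _ _ _ f4500) <|
  cons_ok (fk_spec _ _ _ f4502) <|
  cons_ok (fk_spec _ _ _ f4509) <|
  cons_ok (fk_spec _ _ _ f4510) <|
  cons_ok (fk_spec _ _ _ f4518) <|
  cons_ok (fk_spec _ _ _ f4519) <|
  cons_ok (fk_spec _ _ _ f4522) <|
  cons_ok (fk_spec _ _ _ f4527) <|
  cons_ok (fk_spec _ _ _ f4535) <|
  cons_ok (fk_spec _ _ _ f4539) <|
  cons_ok (fk_spec _ _ _ f4540) <|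
  cons_ok (fk_spec _ _ _ f4541) <|
  cons_ok (fk_spec _ _ _ f4544) <|
  cons_ok (fk_spec _ _ _ f4547) <|
  cons_ok (fk_spec _ _ _ f4548) <|
  cons_ok (fk_spec _ _ _ f4556) <|
  cons_ok (fk_spec _ _ _ f4565) <|
  cons_ok (fk_spec _ _ _ f4570) <|
  cons_ok (fk_spec _ _ _ f4571) <|
  cons_ok (fk_spec _ _ _ f4575) <|
  nil_ok 7588

theorem rng : ∀ k, 4120 ≤ k → k < 4576 → ¬ (num 7588 k).Prime :=
  range_of 7588 4120 4576 [11, 5, 11, 0, 9679, 139, 5884171, 17, 37, 47, 43, 23, 0, 627673, 37, 17, 23, 14728391, 269, 0, 29, 53, 1249, 11, 103, 67, 199, 0, 0, 97, 23, 28867, 29, 191, 167, 11, 197, 73063, 16889, 6389, 29, 0, 0, 19, 59, 11783, 0, 49157, 0, 19, 641, 0, 59, 59, 54251, 19, 690929, 23, 0, 2161, 0, 5, 0, 13, 5471, 167, 17, 20353, 113, 0, 1920227, 577, 3558001, 367, 443, 367, 7, 137, 11, 1579, 157, 389, 73897, 47, 0, 41, 109, 19, 11, 9091, 7, 1291489, 53, 3903337, 17137, 0, 173, 1069, 709349, 3702901, 199961, 11, 47, 467, 202753, 333673, 73, 809, 179, 23, 229, 107, 241, 0, 13967,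 142601, 61, 5297, 0, 79111, 71191, 5, 0, 11549, 31649, 19, 167, 53, 11, 809, 47002003, 17, 0, 0, 0, 67, 3364873, 1361, 4729, 11, 293, 13, 163673, 67, 67, 11, 37, 0, 1631059, 41, 31, 17, 0, 0, 0, 0, 1123, 167, 53, 4801, 7, 5, 0, 19, 5261, 17, 6917, 19, 12941, 31, 3299, 0, 0, 50423, 0, 5078581, 0, 29, 0, 47, 13, 29, 19, 11, 15581, 31, 23, 1601, 7, 41, 47, 7669, 101, 13, 17, 7, 50587, 13, 709, 11, 11, 2999, 36979, 0, 31, 14029, 4337, 101, 0, 11, 29, 103, 223, 761, 1454839, 137, 0, 499559, 167, 241, 19, 23, 92353, 183917, 23, 700319, 1447, 0, 1493, 101, 11467, 11, 11, 89, 2087, 3825851, 363313, 103, 61, 0, 563, 239, 41, 19, 0, 71, 271, 44729, 0, 0, 43, 0, 61, 11, 11, 0, 16729, 257, 7, 367, 95383, 317, 1117, 29, 127, 29, 4567, 54959, 569, 23, 23, 38977, 7, 181, 31, 139267, 1193, 47, 79, 78745111, 47, 5, 107, 151, 0, 0, 53, 17, 11, 131, 5647, 2377, 0, 0, 0, 57427, 0, 0, 641, 1129, 19, 5, 0, 51383, 0, 455933, 1723, 23, 11, 127, 37, 23, 271, 5857, 0, 19, 373, 19541, 0, 227, 11299,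 7, 53, 0, 37, 149, 5, 137, 1021, 0, 17, 11, 0, 167, 0, 379, 1451, 911, 19, 29, 67, 3333277, 7, 59, 157, 232621, 491, 919, 11, 61, 181, 12073, 9675109, 0, 11, 139, 163, 181, 19, 11, 0, 2851, 7039, 0, 11, 6217, 19, 0, 0, 596929, 11, 37811, 41, 61141, 4663, 13, 10949, 7582703, 0, 317, 0, 17, 0, 367, 29, 43, 17, 11, 378941, 0, 0, 151, 125261, 2683, 4519, 109, 19, 29, 0, 0, 3853, 5, 0, 11, 541, 37, 5, 0, 29, 9050039, 19, 359, 7, 41, 13, 0, 691, 4643, 229, 0, 0, 0, 74531, 5393, 0, 11, 29, 0, 0, 1031, 47, 58831, 24137, 311, 83, 61, 0, 191, 227, 199, 97, 11, 983, 151, 89, 0, 5, 631, 19, 136361, 0, 0, 31, 149, 19, 0] _ (by decide +kernel) (by decide +kernel) fer (by decide +kernel)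

end Pool.Agent.N682.KK.Z22
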