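import Pool.Agent.N682.KK.Fer2

set_option autoImplicit false
set_option maxRecDepth 100000
set_option linter.defProp false

/-! Certificates for `k * (k + 1) ^ φ(7588 - k) + 1` with `4576 ≤ k < 5052`. -/

namespace Pool.Agent.N682.KK.Z23

def f4582 : fk 7588 4582 24 = true := by decide +kernel
def f4583 : fk 7588 4583 58 = true := by decide +kernel
def f4590 : fk 7588 4590 36 = true := by decide +kernel
def f4592 : fk 7588 4592 31 = true := by decide +kernel
def f4595 : fk 7588 4595 69 = true := by decide +kernel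
def f4597 : fk 7588 4597 48 = true := by decide +kernel
def f4607 : fk 7588 4607 65 = true := by decide +kernel
def f4619 : fk 7588 4619 71 = true := by decide +kernel
def f4623 : fk 7588 4623 57 = true := by decide +kernel
def f4625 : fk 7588 4625 71 = true := by decide +kernel
def f4629 : fk 7588 4629 64 = true := by decide +kernel
def f4634 : fk 7588 4634 30 = true := by decide +kernel
def f4653 : fk 7588 4653 56 = true := by decide +kernel
def f4656 : fk 7588 4656 35 = true := by decide +kernel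
def f4660 : fk 7588 4660 23 = true := by decide +kernel
def f4665 : fk 7588 4665 67 = true := by decide +kernel
def f4667 : fk 7588 4667 67 = true := by decide +kernel
def f4668 : fk 7588 4668 28 = true := by decide +kernel
def f4675 : fk 7588 4675 47 = true := by decide +kernel
def f4678 : fk 7588 4678 19 = true := by decide +kernel
def f4685 : fk 7588 4685 70 = true := by decide +kernel
def f4688 : fk 7588 4688 27 = true := by decide +kernel
def f4692 : fk 7588 4692 35 = true := by decide +kernel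
def f4695 : fk 7588 4695 63 = true := by decide +kernel
def f4696 : fk 7588 4696 23 = true := by decide +kernel
def f4698 : fk 7588 4698 26 = true := by decide +kernel
def f4712 : fk 7588 4712 35 = true := by decide +kernel
def f4724 : fk 7588 4724 34 = true := by decide +kernel
def f4730 : fk 7588 4730 35 = true := by decide +kernel
def f4734 : fk 7588 4734 35 = true := by decide +kernel
def f4739 : fk 7588 4739 52 = true := by decide +kernel
def f4743 : fk 7588 4743 55 = true := by decide +kernel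
def f4747 : fk 7588 4747 46 = true := by decide +kernel
def f4748 : fk 7588 4748 27 = true := by decide +kernel
def f4750 : fk 7588 4750 21 = true := by decide +kernel
def f4751 : fk 7588 4751 68 = true := by decide +kernel
def f4753 : fk 7588 4753 31 = true := by decide +kernel
def f4757 : fk 7588 4757 64 = true := by decide +kernel
def f4760 : fk 7588 4760 29 = true := by decide +kernel
def f4764 : fk 7588 4764 34 = true := by decide +kernel
def f4768 : fk 7588 4768 18 = true := by decide +kernel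
def f4770 : fk 7588 4770 34 = true := by decide +kernel
def f4772 : fk 7588 4772 31 = true := by decide +kernel
def f4773 : fk 7588 4773 54 = true := by decide +kernel
def f4778 : fk 7588 4778 27 = true := by decide +kernel
def f4782 : fk 7588 4782 32 = true := by decide +kernel
def f4787 : fk 7588 4787 67 = true := by decide +kernel
def f4790 : fk 7588 4790 34 = true := by decide +kernel
def f4795 : fk 7588 4795 37 = true := by decide +kernel
def f4796 : fk 7588 4796 34 = true := by decide +kernel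
def f4798 : fk 7588 4798 18 = true := by decide +kernel
def f4799 : fk 7588 4799 67 = true := by decide +kernel
def f4803 : fk 7588 4803 54 = true := by decide +kernel
def f4834 : fk 7588 4834 21 = true := by decide +kernel
def f4835 : fk 7588 4835 66 = true := by decide +kernel
def f4838 : fk 7588 4838 24 = true := by decide +kernel
def f4840 : fk 7588 4840 22 = true := by decide +kernel
def f4844 : fk 7588 4844 29 = true := by decide +kernel
def f4848 : fk 7588 4848 27 = true := by decide +kernel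
def f4852 : fk 7588 4852 21 = true := by decide +kernel
def f4862 : fk 7588 4862 31 = true := by decide +kernel
def f4864 : fk 7588 4864 22 = true := by decide +kernel
def f4869 : fk 7588 4869 66 = true := by decide +kernel
def f4873 : fk 7588 4873 35 = true := by decide +kernel
def f4880 : fk 7588 4880 33 = true := by decide +kernel
def f4889 : fk 7588 4889 65 = true := by decide +kernel
def f4897 : fk 7588 4897 38 = true := by decide +kernel
def f4905 : fk 7588 4905 65 = true := by decide +kernel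
def f4908 : fk 7588 4908 26 = true := by decide +kernel
def f4918 : fk 7588 4918 17 = true := by decide +kernel
def f4922 : fk 7588 4922 31 = true := by decide +kernel
def f4923 : fk 7588 4923 47 = true := by decide +kernel
def f4928 : fk 7588 4928 21 = true := by decide +kernel
def f4931 : fk 7588 4931 64 = true := by decide +kernel
def f4942 : fk 7588 4942 19 = true := by decide +kernel
def f4944 : fk 7588 4944 32 = true := by decide +kernel
def f4948 : fk 7588 4948 16 = true := by decide +kernel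
def f4951 : fk 7588 4951 43 = true := by decide +kernel
def f4953 : fk 7588 4953 47 = true := by decide +kernel
def f4960 : fk 7588 4960 21 = true := by decide +kernel
def f4962 : fk 7588 4962 29 = true := by decide +kernel
def f4981 : fk 7588 4981 38 = true := by decide +kernel
def f4983 : fk 7588 4983 50 = true := by decide +kernel
def f4984 : fk 7588 4984 18 = true := by decide +kernel
def f4989 : fk 7588 4989 60 = true := by decide +kernel
def f4990 : fk 7588 4990 21 = true := by decide +kernel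
def f4991 : fk 7588 4991 53 = true := by decide +kernel
def f4994 : fk 7588 4994 32 = true := by decide +kernel
def f4995 : fk 7588 4995 63 = true := by decide +kernel
def f4996 : fk 7588 4996 21 = true := by decide +kernel
def f4997 : fk 7588 4997 63 = true := by decide +kernel
def f5005 : fk 7588 5005 35 = true := by decide +kernel
def f5007 : fk 7588 5007 60 = true := by decide +kernel
def f5009 : fk 7588 5009 62 = true := by decide +kernel
def f5013 : fk 7588 5013 49 = true := by decide +kernel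
def f5015 : fk 7588 5015 60 = true := by decide +kernel
def f5026 : fk 7588 5026 18 = true := by decide +kernel
def f5029 : fk 7588 5029 41 = true := by decide +kernel
def f5030 : fk 7588 5030 31 = true := by decide +kernel
def f5042 : fk 7588 5042 29 = true := by decide +kernel

theorem fer : ∀ k ∈ [4582, 4583, 4590, 4592, 4595, 4597, 4607, 4619, 4623, 4625, 4629, 4634, 4653, 4656, 4660, 4665, 4667, 4668, 4675, 4678, 4685, 4688, 4692, 4695, 4696, 4698, 4712, 4724, 4730, 4734, 4739, 4743, 4747, 4748, 4750, 4751, 4753, 4757, 4760, 4764, 4768, 4770, 4772, 4773, 4778, 4782, 4787, 4790, 4795, 4796, 4798, 4799, 4803, 4834, 4835, 4838, 4840, 4844, 4848, 4852, 4862, 4864, 4869, 4873, 4880, 4889, 4897, 4905, 4908, 4918, 4922, 4923, 4928, 4931, 4942, 4944, 4948, 4951, 4953, 4960, 4962, 4981, 4983, 4984, 4989, 4990, 4991, 4994, 4995, 4996, 4997, 5005, 5007, 5009, 5013, 5015, 5026, 5029, 5030, 5042], ¬ (num 7588 k).Prime :=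
  cons_ok (fk_spec _ _ _ f4582) <|
  cons_ok (fk_spec _ _ _ f4583) <|
  cons_ok (fk_spec _ _ _ f4590) <|
  cons_ok (fk_spec _ _ _ f4592) <|
  cons_ok (fk_spec _ _ _ f4595) <|
  cons_ok (fk_spec _ _ _ f4597) <|
  cons_ok (fk_spec _ _ _ f4607) <|
  cons_ok (fk_spec _ _ _ f4619) <|
  cons_ok (fk_spec _ _ _ f4623) <|
  cons_ok (fk_spec _ _ _ f4625) <|
  cons_ok (fk_spec _ _ _ f4629) <|
  cons_ok (fk_spec _ _ _ f4634) <|
  cons_ok (fk_spec _ _ _ f4653) <|
  cons_ok (fk_spec _ _ _ f4656) <|
  cons_ok (fk_spec _ _ _ f4660) <|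
  cons_ok (fk_spec _ _ _ f4665) <|
  cons_ok (fk_spec _ _ _ f4667) <|
  cons_ok (fk_spec _ _ _ f4668) <|
  cons_ok (fk_spec _ _ _ f4675) <|
  cons_ok (fk_spec _ _ _ f4678) <|
  cons_ok (fk_spec _ _ _ f4685) <|
  cons_ok (fk_spec _ _ _ f4688) <|
  cons_ok (fk_spec _ _ _ f4692) <|
  cons_ok (fk_spec _ _ _ f4695) <|
  cons_ok (fk_spec _ _ _ f4696) <|
  cons_ok (fk_spec _ _ _ f4698) <|
  cons_ok (fk_spec _ _ _ f4712) <|
  cons_ok (fk_spec _ _ _ f4724) <|
  cons_ok (fk_spec _ _ _ f4730) <|
  cons_ok (fk_spec _ _ _ f4734) <|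
  cons_ok (fk_spec _ _ _ f4739) <|
  cons_ok (fk_spec _ _ _ f4743) <|
  cons_ok (fk_spec _ _ _ f4747) <|
  cons_ok (fk_spec _ _ _ f4748) <|
  cons_ok (fk_spec _ _ _ f4750) <|
  cons_ok (fk_spec _ _ _ f4751) <|
  cons_ok (fk_spec _ _ _ f4753) <|
  cons_ok (fk_spec _ _ _ f4757) <|
  cons_ok (fk_spec _ _ _ f4760) <|
  cons_ok (fk_spec _ _ _ f4764) <|
  cons_ok (fk_spec _ _ _ f4768) <|
  cons_ok (fk_spec _ _ _ f4770) <|
  cons_ok (fk_spec _ _ _ f4772) <|
  cons_ok (fk_spec _ _ _ f4773) <|
  cons_ok (fk_spec _ _ _ f4778) <|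
  cons_ok (fk_spec _ _ _ f4782) <|
  cons_ok (fk_spec _ _ _ f4787) <|
  cons_ok (fk_spec _ _ _ f4790) <|
  cons_ok (fk_spec _ _ _ f4795) <|
  cons_ok (fk_spec _ _ _ f4796) <|
  cons_ok (fk_spec _ _ _ f4798) <|
  cons_ok (fk_spec _ _ _ f4799) <|
  cons_ok (fk_spec _ _ _ f4803) <|
  cons_ok (fk_spec _ _ _ f4834) <|
  cons_ok (fk_spec _ _ _ f4835) <|
  cons_ok (fk_spec _ _ _ f4838) <|
  cons_ok (fk_spec _ _ _ f4840) <|
  cons_ok (fk_spec _ _ _ f4844) <|
  cons_ok (fk_spec _ _ _ f4848) <|
  cons_ok (fk_spec _ _ _ f4852) <|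
  cons_ok (fk_spec _ _ _ f4862) <|
  cons_ok (fk_spec _ _ _ f4864) <|
  cons_ok (fk_spec _ _ _ f4869) <|
  cons_ok (fk_spec _ _ _ f4873) <|
  cons_ok (fk_spec _ _ _ f4880) <|
  cons_ok (fk_spec _ _ _ f4889) <|
  cons_ok (fk_spec _ _ _ f4897) <|
  cons_ok (fk_spec _ _ _ f4905) <|
  cons_ok (fk_spec _ _ _ f4908) <|
  cons_ok (fk_spec _ _ _ f4918) <|
  cons_ok (fk_spec _ _ _ f4922) <|
  cons_ok (fk_spec _ _ _ f4923) <|
  cons_ok (fk_spec _ _ _ f4928) <|
  cons_ok (fk_spec _ _ _ f4931) <|
  cons_ok (fk_spec _ _ _ f4942) <|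
  cons_ok (fk_spec _ _ _ f4944) <|
  cons_ok (fk_spec _ _ _ f4948) <|
  cons_ok (fk_spec _ _ _ f4951) <|
  cons_ok (fk_spec _ _ _ f4953) <|
  cons_ok (fk_spec _ _ _ f4960) <|
  cons_ok (fk_spec _ _ _ f4962) <|
  cons_ok (fk_spec _ _ _ f4981) <|
  cons_ok (fk_spec _ _ _ f4983) <|
  cons_ok (fk_spec _ _ _ f4984) <|
  cons_ok (fk_spec _ _ _ f4989) <|
  cons_ok (fk_spec _ _ _ f4990) <|
  cons_ok (fk_spec _ _ _ f4991) <|
  cons_ok (fk_spec _ _ _ f4994) <|
  cons_ok (fk_spec _ _ _ f4995) <|
  cons_ok (fk_spec _ _ _ f4996) <|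
  cons_ok (fk_spec _ _ _ f4997) <|
  cons_ok (fk_spec _ _ _ f5005) <|
  cons_ok (fk_spec _ _ _ f5007) <|
  cons_ok (fk_spec _ _ _ f5009) <|
  cons_ok (fk_spec _ _ _ f5013) <|
  cons_ok (fk_spec _ _ _ f5015) <|
  cons_ok (fk_spec _ _ _ f5026) <|
  cons_ok (fk_spec _ _ _ f5029) <|
  cons_ok (fk_spec _ _ _ f5030) <|
  cons_ok (fk_spec _ _ _ f5042) <|
  nil_ok 7588

theorem rng : ∀ k, 4576 ≤ k → k < 5052 → ¬ (num 7588 k).Prime :=
  range_of 7588 4576 5052 [30259, 97, 11, 7393, 131, 15641, 0, 0, 211, 43, 491, 19, 7, 11, 0, 107, 0, 18523, 11, 0, 593, 0, 34213, 2213, 1039, 563, 61, 31, 11, 23, 19, 0, 281857, 79, 150431, 31, 109, 4637, 163, 79, 7, 151, 661, 0, 29, 107, 233, 0, 281, 0, 3307, 11, 11, 0, 7, 31, 307, 11, 0, 13732643, 37, 233, 13, 13489963, 1601, 443, 17, 307, 11, 95472781, 5, 8263, 19, 2083, 1069, 7, 4943, 0, 59, 11, 0, 3457, 19, 997, 0, 5, 151, 98011, 523, 0, 67, 0, 0, 211, 11, 11, 11, 2357, 29, 0, 43, 227, 0, 17, 373, 11, 19, 2451811, 61, 0, 5, 929, 0, 124121, 4390073,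 29, 0, 11, 13, 0, 0, 1546901, 0, 11, 601, 5, 273517, 29, 18313, 17, 23, 257, 1069, 82353829, 11, 269, 0, 442531, 7, 11, 11, 1013, 113, 14591, 1360529, 26003, 59, 20233, 0, 11, 11, 17, 313, 13, 0, 97, 11, 2683, 0, 31, 4861, 71, 3881, 0, 41, 8191, 353, 0, 2909, 17, 1033, 0, 0, 61, 0, 0, 4789, 0, 79, 130477, 179, 0, 11, 426889, 0, 1601, 47, 7, 0, 479, 23, 857, 0, 11, 0, 11, 0, 0, 157, 251, 7054787, 970573, 0, 4280407, 839, 19, 0, 7103, 7, 13, 223, 0, 431, 29, 0, 29, 701221, 1303, 2029, 0, 0, 109, 0, 0, 1987, 269, 11, 0, 127, 7, 3391, 1453, 179, 1933571, 59, 4021, 71, 439, 11, 17, 1378903, 23, 29, 19, 13, 5, 233, 2129, 17, 11, 44543, 23, 19, 8395193, 109, 49033, 9345209, 29921, 0, 0, 247781, 37, 0, 31209043, 0, 11969, 71, 43, 0, 619, 61, 7844731, 0, 449, 1699, 103, 0, 457, 5639, 157, 234271, 9514559, 11, 19, 53, 43, 0, 176557, 0, 99079, 83, 769, 467587, 0, 2503, 3967, 23, 0, 127, 113, 1483529, 29, 69697, 5953, 0, 5, 7, 179, 4751, 13, 1097, 82471, 379, 0, 30841, 331, 683, 227, 71,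 23, 1741, 0, 636673, 47, 23537, 5, 41, 7, 373, 0, 179, 29, 0, 3461, 1187, 37, 11, 101, 17, 347, 701, 201653, 0, 73111127, 2815009, 149, 0, 0, 41, 11, 5, 73, 0, 19, 41, 0, 73, 19, 1095047, 59, 1259, 23, 7, 23, 17299, 5, 0, 185543, 0, 7, 263, 55457, 0, 59, 103, 0, 7, 0, 8860429, 19, 1973, 22367, 2539, 277, 0, 1973, 0, 67, 911, 419, 59, 53, 4493, 423257, 1607, 19, 823, 47, 101, 31, 13, 2531, 389, 3230393, 862181, 0, 3257, 0, 0, 11, 371251, 31, 23, 0, 0, 0, 29, 61, 0, 0, 0, 0, 23, 17, 1747, 11, 13, 59, 5189, 0, 5, 0, 82799, 0, 21341, 17, 11, 0, 101, 0, 17, 107, 401, 421, 7331, 547, 29, 11, 347, 23, 0, 11443, 13451, 0, 0, 23, 12343, 11, 11, 853, 83, 139, 103, 31, 11, 56401, 0, 43, 107, 293, 107, 19, 3077279, 19463, 17, 599] _ (by decide +kernel) (by decide +kernel) fer (by decide +kernel)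

end Pool.Agent.N682.KK.Z23
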