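import Pool.Agent.N682.KK.Fer2

set_option autoImplicit false
set_option maxRecDepth 100000
set_option linter.defProp false

/-! Certificates for `k * (k + 1) ^ φ(7588 - k) + 1` with `5052 ≤ k < 6256`. -/

namespace Pool.Agent.N682.KK.Z24

def f5058 : fk 7588 5058 22 = true := by decide +kernel
def f5067 : fk 7588 5067 61 = true := by decide +kernel
def f5074 : fk 7588 5074 21 = true := by decide +kernel
def f5076 : fk 7588 5076 31 = true := by decide +kernel
def f5079 : fk 7588 5079 56 = true := by decide +kernel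
def f5091 : fk 7588 5091 55 = true := by decide +kernel
def f5099 : fk 7588 5099 57 = true := by decide +kernel
def f5104 : fk 7588 5104 20 = true := by decide +kernel
def f5105 : fk 7588 5105 55 = true := by decide +kernel
def f5108 : fk 7588 5108 24 = true := by decide +kernel
def f5116 : fk 7588 5116 20 = true := by decide +kernel
def f5124 : fk 7588 5124 24 = true := by decide +kernel
def f5131 : fk 7588 5131 32 = true := by decide +kernel
def f5132 : fk 7588 5132 30 = true := by decide +kernel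
def f5134 : fk 7588 5134 20 = true := by decide +kernel
def f5139 : fk 7588 5139 57 = true := by decide +kernel
def f5146 : fk 7588 5146 18 = true := by decide +kernel
def f5150 : fk 7588 5150 28 = true := by decide +kernel
def f5154 : fk 7588 5154 30 = true := by decide +kernel
def f5161 : fk 7588 5161 39 = true := by decide +kernel
def f5166 : fk 7588 5166 25 = true := by decide +kernel
def f5173 : fk 7588 5173 26 = true := by decide +kernel
def f5176 : fk 7588 5176 20 = true := by decide +kernel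
def f5179 : fk 7588 5179 35 = true := by decide +kernel
def f5181 : fk 7588 5181 56 = true := by decide +kernel
def f5182 : fk 7588 5182 20 = true := by decide +kernel
def f5191 : fk 7588 5191 36 = true := by decide +kernel
def f5192 : fk 7588 5192 29 = true := by decide +kernel
def f5193 : fk 7588 5193 47 = true := by decide +kernel
def f5210 : fk 7588 5210 28 = true := by decide +kernel
def f5213 : fk 7588 5213 44 = true := by decide +kernel
def f5215 : fk 7588 5215 33 = true := by decide +kernel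
def f5217 : fk 7588 5217 58 = true := by decide +kernel
def f5219 : fk 7588 5219 55 = true := by decide +kernel
def f5220 : fk 7588 5220 28 = true := by decide +kernel
def f5222 : fk 7588 5222 23 = true := by decide +kernel
def f5223 : fk 7588 5223 41 = true := by decide +kernel
def f5233 : fk 7588 5233 31 = true := by decide +kernel
def f5237 : fk 7588 5237 57 = true := by decide +kernel
def f5247 : fk 7588 5247 57 = true := by decide +kernel
def f5253 : fk 7588 5253 46 = true := by decide +kernel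
def f5256 : fk 7588 5256 26 = true := by decide +kernel
def f5257 : fk 7588 5257 32 = true := by decide +kernel
def f5263 : fk 7588 5263 29 = true := by decide +kernel
def f5270 : fk 7588 5270 27 = true := by decide +kernel
def f5276 : fk 7588 5276 27 = true := by decide +kernel
def f5279 : fk 7588 5279 56 = true := by decide +kernel
def f5280 : fk 7588 5280 28 = true := by decide +kernel
def f5282 : fk 7588 5282 28 = true := by decide +kernel
def f5292 : fk 7588 5292 24 = true := by decide +kernel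
def f5295 : fk 7588 5295 56 = true := by decide +kernel
def f5304 : fk 7588 5304 28 = true := by decide +kernel
def f5313 : fk 7588 5313 35 = true := by decide +kernel
def f5318 : fk 7588 5318 22 = true := by decide +kernel
def f5326 : fk 7588 5326 17 = true := by decide +kernel
def f5329 : fk 7588 5329 37 = true := by decide +kernel
def f5337 : fk 7588 5337 55 = true := by decide +kernel
def f5342 : fk 7588 5342 28 = true := by decide +kernel
def f5349 : fk 7588 5349 55 = true := by decide +kernel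
def f5351 : fk 7588 5351 55 = true := by decide +kernel
def f5367 : fk 7588 5367 54 = true := by decide +kernel
def f5369 : fk 7588 5369 46 = true := by decide +kernel
def f5375 : fk 7588 5375 54 = true := by decide +kernel
def f5376 : fk 7588 5376 23 = true := by decide +kernel
def f5380 : fk 7588 5380 18 = true := by decide +kernel
def f5386 : fk 7588 5386 18 = true := by decide +kernel
def f5388 : fk 7588 5388 20 = true := by decide +kernel
def f5391 : fk 7588 5391 50 = true := by decide +kernel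
def f5392 : fk 7588 5392 18 = true := by decide +kernel
def f5394 : fk 7588 5394 27 = true := by decide +kernel
def f5408 : fk 7588 5408 21 = true := by decide +kernel
def f5411 : fk 7588 5411 46 = true := by decide +kernel
def f5413 : fk 7588 5413 28 = true := by decide +kernel
def f5421 : fk 7588 5421 48 = true := by decide +kernel
def f5433 : fk 7588 5433 42 = true := by decide +kernel
def f5442 : fk 7588 5442 25 = true := by decide +kernel
def f5443 : fk 7588 5443 24 = true := by decide +kernel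
def f5445 : fk 7588 5445 52 = true := by decide +kernel
def f5446 : fk 7588 5446 14 = true := by decide +kernel
def f5451 : fk 7588 5451 52 = true := by decide +kernel
def f5455 : fk 7588 5455 35 = true := by decide +kernel
def f5462 : fk 7588 5462 26 = true := by decide +kernel
def f5464 : fk 7588 5464 17 = true := by decide +kernel
def f5474 : fk 7588 5474 22 = true := by decide +kernel
def f5476 : fk 7588 5476 16 = true := by decide +kernel
def f5482 : fk 7588 5482 16 = true := by decide +kernel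
def f5488 : fk 7588 5488 12 = true := by decide +kernel
def f5495 : fk 7588 5495 39 = true := by decide +kernel
def f5497 : fk 7588 5497 32 = true := by decide +kernel
def f5508 : fk 7588 5508 19 = true := by decide +kernel
def f5509 : fk 7588 5509 27 = true := by decide +kernel
def f5510 : fk 7588 5510 26 = true := by decide +kernel
def f5511 : fk 7588 5511 49 = true := by decide +kernel
def f5512 : fk 7588 5512 17 = true := by decide +kernel
def f5513 : fk 7588 5513 40 = true := by decide +kernel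
def f5520 : fk 7588 5520 23 = true := by decide +kernel
def f5527 : fk 7588 5527 34 = true := by decide +kernel
def f5528 : fk 7588 5528 20 = true := by decide +kernel
def f5534 : fk 7588 5534 23 = true := by decide +kernel
def f5542 : fk 7588 5542 15 = true := by decide +kernel
def f5547 : fk 7588 5547 46 = true := by decide +kernel
def f5552 : fk 7588 5552 25 = true := by decide +kernel
def f5556 : fk 7588 5556 25 = true := by decide +kernel
def f5557 : fk 7588 5557 33 = true := by decide +kernel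
def f5558 : fk 7588 5558 17 = true := by decide +kernel
def f5560 : fk 7588 5560 16 = true := by decide +kernel
def f5563 : fk 7588 5563 27 = true := by decide +kernel
def f5565 : fk 7588 5565 40 = true := by decide +kernel
def f5576 : fk 7588 5576 25 = true := by decide +kernel
def f5583 : fk 7588 5583 39 = true := by decide +kernel
def f5584 : fk 7588 5584 17 = true := by decide +kernel
def f5586 : fk 7588 5586 18 = true := by decide +kernel
def f5588 : fk 7588 5588 20 = true := by decide +kernel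
def f5595 : fk 7588 5595 49 = true := by decide +kernel
def f5605 : fk 7588 5605 33 = true := by decide +kernel
def f5609 : fk 7588 5609 49 = true := by decide +kernel
def f5618 : fk 7588 5618 20 = true := by decide +kernel
def f5626 : fk 7588 5626 16 = true := by decide +kernel
def f5641 : fk 7588 5641 29 = true := by decide +kernel
def f5642 : fk 7588 5642 21 = true := by decide +kernel
def f5644 : fk 7588 5644 16 = true := by decide +kernel
def f5649 : fk 7588 5649 41 = true := by decide +kernel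
def f5658 : fk 7588 5658 19 = true := by decide +kernel
def f5663 : fk 7588 5663 30 = true := by decide +kernel
def f5671 : fk 7588 5671 31 = true := by decide +kernel
def f5678 : fk 7588 5678 19 = true := by decide +kernel
def f5682 : fk 7588 5682 24 = true := by decide +kernel
def f5698 : fk 7588 5698 11 = true := by decide +kernel
def f5701 : fk 7588 5701 29 = true := by decide +kernel
def f5707 : fk 7588 5707 27 = true := by decide +kernel
def f5713 : fk 7588 5713 25 = true := by decide +kernel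
def f5728 : fk 7588 5728 12 = true := by decide +kernel
def f5731 : fk 7588 5731 31 = true := by decide +kernel
def f5736 : fk 7588 5736 23 = true := by decide +kernel
def f5750 : fk 7588 5750 23 = true := by decide +kernel
def f5761 : fk 7588 5761 25 = true := by decide +kernel
def f5765 : fk 7588 5765 45 = true := by decide +kernel
def f5795 : fk 7588 5795 40 = true := by decide +kernel
def f5796 : fk 7588 5796 19 = true := by decide +kernel
def f5800 : fk 7588 5800 15 = true := by decide +kernel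
def f5802 : fk 7588 5802 21 = true := by decide +kernel
def f5811 : fk 7588 5811 44 = true := by decide +kernel
def f5812 : fk 7588 5812 15 = true := by decide +kernel
def f5817 : fk 7588 5817 33 = true := by decide +kernel
def f5818 : fk 7588 5818 12 = true := by decide +kernel
def f5820 : fk 7588 5820 19 = true := by decide +kernel
def f5839 : fk 7588 5839 26 = true := by decide +kernel
def f5840 : fk 7588 5840 20 = true := by decide +kernel
def f5851 : fk 7588 5851 29 = true := by decide +kernel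
def f5854 : fk 7588 5854 14 = true := by decide +kernel
def f5880 : fk 7588 5880 18 = true := by decide +kernel
def f5883 : fk 7588 5883 30 = true := by decide +kernel
def f5894 : fk 7588 5894 17 = true := by decide +kernel
def f5904 : fk 7588 5904 21 = true := by decide +kernel
def f5910 : fk 7588 5910 21 = true := by decide +kernel
def f5915 : fk 7588 5915 35 = true := by decide +kernel
def f5929 : fk 7588 5929 23 = true := by decide +kernel
def f5941 : fk 7588 5941 27 = true := by decide +kernel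
def f5944 : fk 7588 5944 14 = true := by decide +kernel
def f5959 : fk 7588 5959 27 = true := by decide +kernel
def f5963 : fk 7588 5963 30 = true := by decide +kernel
def f5965 : fk 7588 5965 27 = true := by decide +kernel
def f5983 : fk 7588 5983 21 = true := by decide +kernel
def f5984 : fk 7588 5984 20 = true := by decide +kernel
def f5993 : fk 7588 5993 28 = true := by decide +kernel
def f5994 : fk 7588 5994 20 = true := by decide +kernel
def f5997 : fk 7588 5997 38 = true := by decide +kernel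
def f6004 : fk 7588 6004 12 = true := by decide +kernel
def f6007 : fk 7588 6007 24 = true := by decide +kernel
def f6010 : fk 7588 6010 13 = true := by decide +kernel
def f6018 : fk 7588 6018 16 = true := by decide +kernel
def f6022 : fk 7588 6022 13 = true := by decide +kernel
def f6024 : fk 7588 6024 18 = true := by decide +kernel
def f6027 : fk 7588 6027 33 = true := by decide +kernel
def f6028 : fk 7588 6028 10 = true := by decide +kernel
def f6031 : fk 7588 6031 26 = true := by decide +kernel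
def f6034 : fk 7588 6034 11 = true := by decide +kernel
def f6040 : fk 7588 6040 13 = true := by decide +kernel
def f6042 : fk 7588 6042 19 = true := by decide +kernel
def f6043 : fk 7588 6043 21 = true := by decide +kernel
def f6049 : fk 7588 6049 24 = true := by decide +kernel
def f6055 : fk 7588 6055 22 = true := by decide +kernel
def f6057 : fk 7588 6057 38 = true := by decide +kernel
def f6058 : fk 7588 6058 10 = true := by decide +kernel
def f6070 : fk 7588 6070 11 = true := by decide +kernel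
def f6075 : fk 7588 6075 35 = true := by decide +kernel
def f6083 : fk 7588 6083 25 = true := by decide +kernel
def f6094 : fk 7588 6094 13 = true := by decide +kernel
def f6097 : fk 7588 6097 21 = true := by decide +kernel
def f6098 : fk 7588 6098 15 = true := by decide +kernel
def f6100 : fk 7588 6100 12 = true := by decide +kernel
def f6103 : fk 7588 6103 18 = true := by decide +kernel
def f6104 : fk 7588 6104 16 = true := by decide +kernel
def f6106 : fk 7588 6106 11 = true := by decide +kernel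
def f6117 : fk 7588 6117 37 = true := by decide +kernel
def f6126 : fk 7588 6126 17 = true := by decide +kernel
def f6136 : fk 7588 6136 11 = true := by decide +kernel
def f6137 : fk 7588 6137 36 = true := by decide +kernel
def f6138 : fk 7588 6138 14 = true := by decide +kernel
def f6142 : fk 7588 6142 12 = true := by decide +kernel
def f6145 : fk 7588 6145 22 = true := by decide +kernel
def f6156 : fk 7588 6156 18 = true := by decide +kernel
def f6171 : fk 7588 6171 32 = true := by decide +kernel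
def f6176 : fk 7588 6176 18 = true := by decide +kernel
def f6177 : fk 7588 6177 33 = true := by decide +kernel
def f6187 : fk 7588 6187 23 = true := by decide +kernel
def f6188 : fk 7588 6188 12 = true := by decide +kernel
def f6191 : fk 7588 6191 32 = true := by decide +kernel
def f6193 : fk 7588 6193 18 = true := by decide +kernel
def f6210 : fk 7588 6210 16 = true := by decide +kernel
def f6215 : fk 7588 6215 34 = true := by decide +kernel
def f6217 : fk 7588 6217 23 = true := by decide +kernel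
def f6218 : fk 7588 6218 14 = true := by decide +kernel
def f6220 : fk 7588 6220 11 = true := by decide +kernel
def f6224 : fk 7588 6224 15 = true := by decide +kernel
def f6228 : fk 7588 6228 13 = true := by decide +kernel
def f6231 : fk 7588 6231 32 = true := by decide +kernel
def f6235 : fk 7588 6235 20 = true := by decide +kernel
def f6240 : fk 7588 6240 17 = true := by decide +kernel
def f6252 : fk 7588 6252 17 = true := by decide +kernel
def f6254 : fk 7588 6254 16 = true := by decide +kernel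
def f6255 : fk 7588 6255 32 = true := by decide +kernel

theorem fer : ∀ k ∈ [5058, 5067, 5074, 5076, 5079, 5091, 5099, 5104, 5105, 5108, 5116, 5124, 5131, 5132, 5134, 5139, 5146, 5150, 5154, 5161, 5166, 5173, 5176, 5179, 5181, 5182, 5191, 5192, 5193, 5210, 5213, 5215, 5217, 5219, 5220, 5222, 5223, 5233, 5237, 5247, 5253, 5256, 5257, 5263, 5270, 5276, 5279, 5280, 5282, 5292, 5295, 5304, 5313, 5318, 5326, 5329, 5337, 5342, 5349, 5351, 5367, 5369, 5375, 5376, 5380, 5386, 5388, 5391, 5392, 5394, 5408, 5411, 5413, 5421, 5433, 5442, 5443, 5445, 5446, 5451, 5455, 5462, 5464, 5474, 5476, 5482, 5488, 5495, 5497, 5508, 5509, 5510, 5511, 5512, 5513, 5520, 5527, 5528, 5534, 5542, 5547, 5552, 5556, 5557, 5558, 5560, 5563, 5565, 5576, 5583, 5584, 5586, 5588, 5595, 5605, 5609, 5618, 5626, 5641, 5642, 5644, 5649, 5658, 5663, 5671, 5678, 5682, 5698, 5701, 5707, 5713, 5728, 5731, 5736, 5750, 5761, 5765, 5795, 5796, 5800, 5802, 5811, 5812, 5817, 5818, 5820, 5839, 5840, 5851, 5854, 5880,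 5883, 5894, 5904, 5910, 5915, 5929, 5941, 5944, 5959, 5963, 5965, 5983, 5984, 5993, 5994, 5997, 6004, 6007, 6010, 6018, 6022, 6024, 6027, 6028, 6031, 6034, 6040, 6042, 6043, 6049, 6055, 6057, 6058, 6070, 6075, 6083, 6094, 6097, 6098, 6100, 6103, 6104, 6106, 6117, 6126, 6136, 6137, 6138, 6142, 6145, 6156, 6171, 6176, 6177, 6187, 6188, 6191, 6193, 6210, 6215, 6217, 6218, 6220, 6224, 6228, 6231, 6235, 6240, 6252, 6254, 6255], ¬ (num 7588 k).Prime :=
  cons_ok (fk_spec _ _ _ f5058) <|
  cons_ok (fk_spec _ _ _ f5067) <|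
  cons_ok (fk_spec _ _ _ f5074) <|
  cons_ok (fk_spec _ _ _ f5076) <|
  cons_ok (fk_spec _ _ _ f5079) <|
  cons_ok (fk_spec _ _ _ f5091) <|
  cons_ok (fk_spec _ _ _ f5099) <|
  cons_ok (fk_spec _ _ _ f5104) <|
  cons_ok (fk_spec _ _ _ f5105) <|
  cons_ok (fk_spec _ _ _ f5108) <|
  cons_ok (fk_spec _ _ _ f5116) <|
  cons_ok (fk_spec _ _ _ f5124) <|
  cons_ok (fk_spec _ _ _ f5131) <|
  cons_ok (fk_spec _ _ _ f5132) <|
  cons_ok (fk_spec _ _ _ f5134) <|
  cons_ok (fk_spec _ _ _ f5139) <|
  cons_ok (fk_spec _ _ _ f5146) <|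
  cons_ok (fk_spec _ _ _ f5150) <|
  cons_ok (fk_spec _ _ _ f5154) <|
  cons_ok (fk_spec _ _ _ f5161) <|
  cons_ok (fk_spec _ _ _ f5166) <|
  cons_ok (fk_spec _ _ _ f5173) <|
  cons_ok (fk_spec _ _ _ f5176) <|
  cons_ok (fk_spec _ _ _ f5179) <|
  cons_ok (fk_spec _ _ _ f5181) <|
  cons_ok (fk_spec _ _ _ f5182) <|
  cons_ok (fk_spec _ _ _ f5191) <|
  cons_ok (fk_spec _ _ _ f5192) <|
  cons_ok (fk_spec _ _ _ f5193) <|
  cons_ok (fk_spec _ _ _ f5210) <|
  cons_ok (fk_spec _ _ _ f5213) <|
  cons_ok (fk_spec _ _ _ f5215) <|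
  cons_ok (fk_spec _ _ _ f5217) <|
  cons_ok (fk_spec _ _ _ f5219) <|
  cons_ok (fk_spec _ _ _ f5220) <|
  cons_ok (fk_spec _ _ _ f5222) <|
  cons_ok (fk_spec _ _ _ f5223) <|
  cons_ok (fk_spec _ _ _ f5233) <|
  cons_ok (fk_spec _ _ _ f5237) <|
  cons_ok (fk_spec _ _ _ f5247) <|
  cons_ok (fk_spec _ _ _ f5253) <|
  cons_ok (fk_spec _ _ _ f5256) <|
  cons_ok (fk_spec _ _ _ f5257) <|
  cons_ok (fk_spec _ _ _ f5263) <|
  cons_ok (fk_spec _ _ _ f5270) <|
  cons_ok (fk_spec _ _ _ f5276) <|
  cons_ok (fk_spec _ _ _ f5279) <|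
  cons_ok (fk_spec _ _ _ f5280) <|
  cons_ok (fk_spec _ _ _ f5282) <|
  cons_ok (fk_spec _ _ _ f5292) <|
  cons_ok (fk_spec _ _ _ f5295) <|
  cons_ok (fk_spec _ _ _ f5304) <|
  cons_ok (fk_spec _ _ _ f5313) <|
  cons_ok (fk_spec _ _ _ f5318) <|
  cons_ok (fk_spec _ _ _ f5326) <|
  cons_ok (fk_spec _ _ _ f5329) <|
  cons_ok (fk_spec _ _ _ f5337) <|
  cons_ok (fk_spec _ _ _ f5342) <|
  cons_ok (fk_spec _ _ _ f5349) <|
  cons_ok (fk_spec _ _ _ f5351) <|
  cons_ok (fk_spec _ _ _ f5367) <|
  cons_ok (fk_spec _ _ _ f5369) <|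
  cons_ok (fk_spec _ _ _ f5375) <|
  cons_ok (fk_spec _ _ _ f5376) <|
  cons_ok (fk_spec _ _ _ f5380) <|
  cons_ok (fk_spec _ _ _ f5386) <|
  cons_ok (fk_spec _ _ _ f5388) <|
  cons_ok (fk_spec _ _ _ f5391) <|
  cons_ok (fk_spec _ _ _ f5392) <|
  cons_ok (fk_spec _ _ _ f5394) <|
  cons_ok (fk_spec _ _ _ f5408) <|
  cons_ok (fk_spec _ _ _ f5411) <|
  cons_ok (fk_spec _ _ _ f5413) <|
  cons_ok (fk_spec _ _ _ f5421) <|
  cons_ok (fk_spec _ _ _ f5433) <|
  cons_ok (fk_spec _ _ _ f5442) <|
  cons_ok (fk_spec _ _ _ f5443) <|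
  cons_ok (fk_spec _ _ _ f5445) <|
  cons_ok (fk_spec _ _ _ f5446) <|
  cons_ok (fk_spec _ _ _ f5451) <|
  cons_ok (fk_spec _ _ _ f5455) <|
  cons_ok (fk_spec _ _ _ f5462) <|
  cons_ok (fk_spec _ _ _ f5464) <|
  cons_ok (fk_spec _ _ _ f5474) <|
  cons_ok (fk_spec _ _ _ f5476) <|
  cons_ok (fk_spec _ _ _ f5482) <|
  cons_ok (fk_spec _ _ _ f5488) <|
  cons_ok (fk_spec _ _ _ f5495) <|
  cons_ok (fk_spec _ _ _ f5497) <|
  cons_ok (fk_spec _ _ _ f5508) <|
  cons_ok (fk_spec _ _ _ f5509) <|
  cons_ok (fk_spec _ _ _ f5510) <|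
  cons_ok (fk_spec _ _ _ f5511) <|
  cons_ok (fk_spec _ _ _ f5512) <|
  cons_ok (fk_spec _ _ _ f5513) <|
  cons_ok (fk_spec _ _ _ f5520) <|
  cons_ok (fk_spec _ _ _ f5527) <|
  cons_ok (fk_spec _ _ _ f5528) <|
  cons_ok (fk_spec _ _ _ f5534) <|
  cons_ok (fk_spec _ _ _ f5542) <|
  cons_ok (fk_spec _ _ _ f5547) <|
  cons_ok (fk_spec _ _ _ f5552) <|
  cons_ok (fk_spec _ _ _ f5556) <|
  cons_ok (fk_spec _ _ _ f5557) <|
  cons_ok (fk_spec _ _ _ f5558) <|
  cons_ok (fk_spec _ _ _ f5560) <|
  cons_ok (fk_spec _ _ _ f5563) <|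
  cons_ok (fk_spec _ _ _ f5565) <|
  cons_ok (fk_spec _ _ _ f5576) <|
  cons_ok (fk_spec _ _ _ f5583) <|
  cons_ok (fk_spec _ _ _ f5584) <|
  cons_ok (fk_spec _ _ _ f5586) <|
  cons_ok (fk_spec _ _ _ f5588) <|
  cons_ok (fk_spec _ _ _ f5595) <|
  cons_ok (fk_spec _ _ _ f5605) <|
  cons_ok (fk_spec _ _ _ f5609) <|
  cons_ok (fk_spec _ _ _ f5618) <|
  cons_ok (fk_spec _ _ _ f5626) <|
  cons_ok (fk_spec _ _ _ f5641) <|
  cons_ok (fk_spec _ _ _ f5642) <|
  cons_ok (fk_spec _ _ _ f5644) <|
  cons_ok (fk_spec _ _ _ f5649) <|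
  cons_ok (fk_spec _ _ _ f5658) <|
  cons_ok (fk_spec _ _ _ f5663) <|
  cons_ok (fk_spec _ _ _ f5671) <|
  cons_ok (fk_spec _ _ _ f5678) <|
  cons_ok (fk_spec _ _ _ f5682) <|
  cons_ok (fk_spec _ _ _ f5698) <|
  cons_ok (fk_spec _ _ _ f5701) <|
  cons_ok (fk_spec _ _ _ f5707) <|
  cons_ok (fk_spec _ _ _ f5713) <|
  cons_ok (fk_spec _ _ _ f5728) <|
  cons_ok (fk_spec _ _ _ f5731) <|
  cons_ok (fk_spec _ _ _ f5736) <|
  cons_ok (fk_spec _ _ _ f5750) <|
  cons_ok (fk_spec _ _ _ f5761) <|
  cons_ok (fk_spec _ _ _ f5765) <|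
  cons_ok (fk_spec _ _ _ f5795) <|
  cons_ok (fk_spec _ _ _ f5796) <|
  cons_ok (fk_spec _ _ _ f5800) <|
  cons_ok (fk_spec _ _ _ f5802) <|
  cons_ok (fk_spec _ _ _ f5811) <|
  cons_ok (fk_spec _ _ _ f5812) <|
  cons_ok (fk_spec _ _ _ f5817) <|
  cons_ok (fk_spec _ _ _ f5818) <|
  cons_ok (fk_spec _ _ _ f5820) <|
  cons_ok (fk_spec _ _ _ f5839) <|
  cons_ok (fk_spec _ _ _ f5840) <|
  cons_ok (fk_spec _ _ _ f5851) <|
  cons_ok (fk_spec _ _ _ f5854) <|
  cons_ok (fk_spec _ _ _ f5880) <|
  cons_ok (fk_spec _ _ _ f5883) <|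
  cons_ok (fk_spec _ _ _ f5894) <|
  cons_ok (fk_spec _ _ _ f5904) <|
  cons_ok (fk_spec _ _ _ f5910) <|
  cons_ok (fk_spec _ _ _ f5915) <|
  cons_ok (fk_spec _ _ _ f5929) <|
  cons_ok (fk_spec _ _ _ f5941) <|
  cons_ok (fk_spec _ _ _ f5944) <|
  cons_ok (fk_spec _ _ _ f5959) <|
  cons_ok (fk_spec _ _ _ f5963) <|
  cons_ok (fk_spec _ _ _ f5965) <|
  cons_ok (fk_spec _ _ _ f5983) <|
  cons_ok (fk_spec _ _ _ f5984) <|
  cons_ok (fk_spec _ _ _ f5993) <|
  cons_ok (fk_spec _ _ _ f5994) <|
  cons_ok (fk_spec _ _ _ f5997) <|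
  cons_ok (fk_spec _ _ _ f6004) <|
  cons_ok (fk_spec _ _ _ f6007) <|
  cons_ok (fk_spec _ _ _ f6010) <|
  cons_ok (fk_spec _ _ _ f6018) <|
  cons_ok (fk_spec _ _ _ f6022) <|
  cons_ok (fk_spec _ _ _ f6024) <|
  cons_ok (fk_spec _ _ _ f6027) <|
  cons_ok (fk_spec _ _ _ f6028) <|
  cons_ok (fk_spec _ _ _ f6031) <|
  cons_ok (fk_spec _ _ _ f6034) <|
  cons_ok (fk_spec _ _ _ f6040) <|
  cons_ok (fk_spec _ _ _ f6042) <|
  cons_ok (fk_spec _ _ _ f6043) <|
  cons_ok (fk_spec _ _ _ f6049) <|
  cons_ok (fk_spec _ _ _ f6055) <|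
  cons_ok (fk_spec _ _ _ f6057) <|
  cons_ok (fk_spec _ _ _ f6058) <|
  cons_ok (fk_spec _ _ _ f6070) <|
  cons_ok (fk_spec _ _ _ f6075) <|
  cons_ok (fk_spec _ _ _ f6083) <|
  cons_ok (fk_spec _ _ _ f6094) <|
  cons_ok (fk_spec _ _ _ f6097) <|
  cons_ok (fk_spec _ _ _ f6098) <|
  cons_ok (fk_spec _ _ _ f6100) <|
  cons_ok (fk_spec _ _ _ f6103) <|
  cons_ok (fk_spec _ _ _ f6104) <|
  cons_ok (fk_spec _ _ _ f6106) <|
  cons_ok (fk_spec _ _ _ f6117) <|
  cons_ok (fk_spec _ _ _ f6126) <|
  cons_ok (fk_spec _ _ _ f6136) <|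
  cons_ok (fk_spec _ _ _ f6137) <|
  cons_ok (fk_spec _ _ _ f6138) <|
  cons_ok (fk_spec _ _ _ f6142) <|
  cons_ok (fk_spec _ _ _ f6145) <|
  cons_ok (fk_spec _ _ _ f6156) <|
  cons_ok (fk_spec _ _ _ f6171) <|
  cons_ok (fk_spec _ _ _ f6176) <|
  cons_ok (fk_spec _ _ _ f6177) <|
  cons_ok (fk_spec _ _ _ f6187) <|
  cons_ok (fk_spec _ _ _ f6188) <|
  cons_ok (fk_spec _ _ _ f6191) <|
  cons_ok (fk_spec _ _ _ f6193) <|
  cons_ok (fk_spec _ _ _ f6210) <|
  cons_ok (fk_spec _ _ _ f6215) <|
  cons_ok (fk_spec _ _ _ f6217) <|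
  cons_ok (fk_spec _ _ _ f6218) <|
  cons_ok (fk_spec _ _ _ f6220) <|
  cons_ok (fk_spec _ _ _ f6224) <|
  cons_ok (fk_spec _ _ _ f6228) <|
  cons_ok (fk_spec _ _ _ f6231) <|
  cons_ok (fk_spec _ _ _ f6235) <|
  cons_ok (fk_spec _ _ _ f6240) <|
  cons_ok (fk_spec _ _ _ f6252) <|
  cons_ok (fk_spec _ _ _ f6254) <|
  cons_ok (fk_spec _ _ _ f6255) <|
  nil_ok 7588

theorem rng : ∀ k, 5052 ≤ k → k < 6256 → ¬ (num 7588 k).Prime :=
  range_of 7588 5052 6256 [47, 2789, 1741, 11, 593, 122347, 0, 373, 593, 197, 19, 304709, 20903, 149791, 61, 0, 67, 103, 31, 7, 21787, 11, 0, 883, 0, 4463, 557, 0, 6337, 29, 1091, 101, 11, 227, 718381, 691, 157, 1572407, 10429, 0, 827, 1553, 23, 4651259, 37, 29, 139, 0, 67, 9186461, 47, 359, 0, 0, 43, 140897, 0, 977, 29, 11, 827, 2063, 59, 487, 0, 37, 59, 67, 7, 5, 11, 11, 0, 3499, 5, 1303, 2503, 29, 2753, 0, 0, 19, 0, 17, 8329, 3947, 19, 0, 271, 5, 53, 10651, 43, 47, 0, 43, 251, 23, 0, 139, 47, 3217, 0, 1283, 11, 19, 5903, 608213, 2791, 0, 43, 159541,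 37, 1151, 0, 23, 101, 8761, 599, 1361, 1753, 0, 401, 151, 0, 131, 120223, 0, 108013, 0, 0, 11, 6569, 1621, 199, 11, 6581, 67, 23, 0, 0, 0, 11, 29, 397, 7, 53, 1889, 11, 13951417, 19, 32833, 7, 23, 229, 103, 313, 23, 0, 241, 193, 0, 1489, 0, 4421, 0, 11617, 0, 0, 569, 0, 0, 229, 43, 23, 4264193, 3931, 71, 139, 79, 223, 0, 409, 43, 47, 0, 1013, 97, 47, 5, 379, 83, 173, 31, 5, 0, 191, 11, 25889, 229, 109139, 0, 11, 11, 0, 0, 19, 3371, 11, 4214051, 166849, 0, 53, 1223, 17, 3251, 109, 47, 0, 17, 757, 41, 5413, 19, 0, 409, 43, 0, 0, 997, 0, 1613, 719, 6311, 5, 28309, 453601, 12082519, 263, 16339, 0, 823, 463, 0, 283, 23, 59, 66067, 383, 5, 191, 6365753, 0, 23, 234431, 503, 607, 260581, 79, 9171803, 5197, 0, 7237, 103, 19, 9091, 0, 11, 29, 5, 17, 193, 1515229, 1499, 0, 83, 269, 0, 11, 456571, 89, 19, 41, 67, 1033, 0, 1277, 127, 2389841, 59, 0, 11, 2411, 31, 1301, 881, 11, 0, 79, 0, 11, 13, 43, 23, 769, 313, 491, 17, 4134619, 8814667, 59, 211, 53, 3631, 1613, 0, 251, 0, 11, 181,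 383, 19, 4273, 0, 0, 601, 47743, 7, 0, 5, 107, 599, 79, 557, 0, 173, 0, 19, 2543, 0, 0, 1789, 0, 60793, 11, 23, 45137, 79, 659, 5, 17, 29, 919, 78583, 5, 17, 0, 13, 641, 0, 641, 0, 868883, 229, 107, 149, 101, 9187, 23, 0, 41, 3793, 15091, 23, 1063, 21193, 23603, 101, 27061, 13, 1031, 0, 797, 109, 547, 563, 227, 23, 25171, 11, 0, 0, 8539, 0, 0, 19, 26981, 53, 37, 0, 410717, 127, 2069, 0, 23, 43, 5231, 277, 8237, 19, 0, 3015799, 0, 79, 19, 677, 19, 43, 7, 23, 84871, 12157, 0, 11, 0, 61, 2297, 31, 12539, 22117037, 0, 3279187, 11, 271, 5, 29, 0, 227, 907, 5783, 509, 170761, 23, 0, 53, 0, 367, 1556839, 1553, 5, 11, 19, 23, 113, 46451, 41593, 0, 0, 0, 0, 0, 0, 1061, 29, 29, 307, 53, 211, 0, 67, 19, 130553, 37, 118127, 5, 0, 0, 137, 47, 68639, 19, 7, 0, 197, 43, 52883731, 383, 41, 3119, 44189, 0, 59, 239, 9742757, 17, 0, 13, 757, 11, 202907, 0, 3206873, 61, 17, 0, 0, 0, 827, 0, 5, 31, 0, 286129, 0, 67, 223, 7, 127, 773579, 23, 31, 2909, 43, 19, 0, 37, 643, 19, 59, 35363, 2003,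 0, 0, 11, 0, 13, 0, 1789, 11, 49125451, 61, 2053, 17, 0, 7, 1231, 659, 887, 90011, 5, 239, 83, 659, 0, 5, 11, 971, 0, 2129, 17, 43, 19, 37, 48438881, 47, 11, 0, 1087, 146317, 66413, 19777, 3539, 7, 6492749, 0, 23, 324403, 56687, 29, 17, 101, 1223, 1231, 29, 19, 1277, 829, 19, 11, 0, 0, 109, 0, 11, 5, 1567, 29, 0, 11, 19, 12893, 487, 280303, 19, 11, 4007, 0, 1489, 29, 53, 17, 0, 197, 13, 5, 402029, 9161, 82217, 26687, 0, 11, 647, 59, 302573, 397427, 340381, 0, 17, 26687, 5, 0, 41, 43, 12143, 73, 61, 4357, 107, 29, 17, 47, 6101, 11, 1163, 127, 1973, 0, 29669, 11, 0, 79, 41, 81013, 7207, 8924327, 0, 106181, 37, 181, 23, 1063, 0, 61, 683, 11, 11981, 23, 10939, 157, 5, 7, 449, 41, 17, 71, 43, 0, 641, 181, 0, 743, 11, 55927, 53, 0, 293, 2591, 491, 338449, 5, 157, 404251, 307, 1255829, 59, 17, 281, 11833, 0, 103, 1009, 199, 1543, 383, 3853, 433, 1063, 4397, 11887, 0, 1063, 1051, 3847, 0, 5, 17, 1559, 1553, 43, 11, 19, 1409, 709, 271, 1289, 71, 127, 251, 1530569, 149, 739, 1213,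 3673, 211, 9859, 39451, 53, 31, 23, 79, 7, 9973, 223, 0, 0, 20231, 1867, 11, 0, 5, 0, 11, 41, 11, 149, 43, 13, 33967, 17, 0, 0, 7, 67, 11, 19, 0, 0, 49523, 0, 97, 47, 487, 7213, 2383, 4597, 7, 19, 11633, 37, 983, 17, 116341, 29, 96911, 23, 8179, 5059, 0, 0, 5, 8017, 281, 2969, 863, 149, 1865467, 887, 23, 557, 0, 223, 103, 0, 53, 5519, 911, 11, 11, 17747, 659, 1033, 83, 8743087, 9769, 349, 53, 263, 1993, 109, 29, 101, 941, 79, 23, 7, 103, 2971, 2083, 0, 11, 11, 0, 2269, 59, 31, 23333, 593, 53, 11909, 421, 185849, 269, 0, 47, 257, 2731, 19, 13, 41801, 7349, 688393, 23, 0, 211129, 1549, 1493, 41, 281, 0, 57191, 13, 131, 139, 0, 1755401, 151, 2843, 89, 61, 5, 139, 1847, 11, 167, 11, 149, 607, 0, 43, 181, 547, 179479, 59, 11, 11, 11, 67, 16193, 19, 0, 13, 59, 0, 937, 17, 37, 23, 6803, 1531, 17, 499, 47, 435427, 79, 1699, 557, 29, 0, 8819, 5, 1171, 0, 46021, 0, 5, 97, 153719, 19, 41, 151733, 709, 2437, 7, 2273, 151, 4048871, 19, 11, 29, 5, 69163, 0, 0, 463, 11, 29, 36217, 14929,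 499, 11, 11, 0, 0, 263129, 59, 0, 7789, 563, 53, 67, 9746501, 95111, 0, 269, 53, 0, 29, 29, 0, 311, 433, 1889, 56149, 97, 293, 337, 0, 17, 2711, 5, 0, 11, 0, 167, 19, 0, 0, 151, 7247, 0, 127, 1357843, 0, 233, 29, 7, 129529, 17, 0, 31, 0, 0, 197, 709, 8629, 11, 59, 0, 19, 95801, 37, 2687, 23, 0, 17, 0, 0, 69779, 227, 2903, 11159, 6269, 139, 37, 1667, 4775369, 11, 33533, 0, 43, 77509, 131, 47, 0, 607, 23, 277, 7, 11, 7451, 17, 0, 38821, 647, 5, 17, 1301, 11, 11, 61, 181, 523, 0, 29, 47, 0, 0, 1847, 0, 5, 11, 0, 0, 17, 0, 157649, 59, 37, 113, 1571, 45677, 31, 179, 2389, 81463, 0, 1571, 21139, 84131, 17, 787, 3539, 1741, 1406521, 0, 59, 29, 11, 31, 211, 53, 11, 11, 11, 0, 0, 0, 439, 11321, 5, 0, 953, 179, 0, 11, 132589, 283, 31, 19, 113, 61, 29, 53, 23, 0, 43, 163, 234043, 19427, 5, 149, 89, 263, 31, 11, 11, 173, 37, 149, 0, 13, 11, 83, 241, 0, 0, 3539, 21157, 947, 1187, 101, 47, 23, 193, 89, 0, 0, 13, 281, 0, 23, 0, 331, 11, 211, 23, 4651, 5413, 37, 107441, 91397, 59, 43,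 7, 5, 1741, 19, 47, 0, 389, 11, 211, 83, 0, 167, 0, 0, 59, 0, 5, 145513, 31, 0, 13591, 7, 19, 0, 199, 136691, 0, 11, 79, 107, 0, 41, 43579, 107, 116329, 0, 109, 10709, 197, 19, 417203, 8887, 1549, 431, 173, 23, 1013, 0, 19, 0, 0] _ (by decide +kernel) (by decide +kernel) fer (by decide +kernel)

end Pool.Agent.N682.KK.Z24
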