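import Pool.Agent.N682.KK.Fer2

set_option autoImplicit false
set_option maxRecDepth 100000
set_option linter.defProp false

/-! Certificates for `k * (k + 1) ^ φ(7588 - k) + 1` with `6256 ≤ k < 7588`. -/

namespace Pool.Agent.N682.KK.Z25

def f6260 : fk 7588 6260 17 = true := by decide +kernel
def f6262 : fk 7588 6262 10 = true := by decide +kernel
def f6270 : fk 7588 6270 17 = true := by decide +kernel
def f6272 : fk 7588 6272 14 = true := by decide +kernel
def f6274 : fk 7588 6274 11 = true := by decide +kernel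
def f6275 : fk 7588 6275 30 = true := by decide +kernel
def f6284 : fk 7588 6284 16 = true := by decide +kernel
def f6285 : fk 7588 6285 33 = true := by decide +kernel
def f6287 : fk 7588 6287 33 = true := by decide +kernel
def f6293 : fk 7588 6293 22 = true := by decide +kernel
def f6299 : fk 7588 6299 32 = true := by decide +kernel
def f6302 : fk 7588 6302 16 = true := by decide +kernel
def f6305 : fk 7588 6305 32 = true := by decide +kernel
def f6310 : fk 7588 6310 11 = true := by decide +kernel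
def f6320 : fk 7588 6320 16 = true := by decide +kernel
def f6323 : fk 7588 6323 22 = true := by decide +kernel
def f6325 : fk 7588 6325 21 = true := by decide +kernel
def f6327 : fk 7588 6327 29 = true := by decide +kernel
def f6328 : fk 7588 6328 8 = true := by decide +kernel
def f6337 : fk 7588 6337 21 = true := by decide +kernel
def f6340 : fk 7588 6340 10 = true := by decide +kernel
def f6345 : fk 7588 6345 28 = true := by decide +kernel
def f6348 : fk 7588 6348 12 = true := by decide +kernel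
def f6349 : fk 7588 6349 18 = true := by decide +kernel
def f6353 : fk 7588 6353 22 = true := by decide +kernel
def f6357 : fk 7588 6357 31 = true := by decide +kernel
def f6361 : fk 7588 6361 21 = true := by decide +kernel
def f6363 : fk 7588 6363 21 = true := by decide +kernel
def f6364 : fk 7588 6364 10 = true := by decide +kernel
def f6365 : fk 7588 6365 31 = true := by decide +kernel
def f6367 : fk 7588 6367 18 = true := by decide +kernel
def f6371 : fk 7588 6371 31 = true := by decide +kernel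
def f6376 : fk 7588 6376 10 = true := by decide +kernel
def f6383 : fk 7588 6383 24 = true := by decide +kernel
def f6386 : fk 7588 6386 15 = true := by decide +kernel
def f6392 : fk 7588 6392 14 = true := by decide +kernel
def f6397 : fk 7588 6397 20 = true := by decide +kernel
def f6404 : fk 7588 6404 15 = true := by decide +kernel
def f6409 : fk 7588 6409 20 = true := by decide +kernel
def f6412 : fk 7588 6412 9 = true := by decide +kernel
def f6417 : fk 7588 6417 29 = true := by decide +kernel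
def f6425 : fk 7588 6425 29 = true := by decide +kernel
def f6438 : fk 7588 6438 11 = true := by decide +kernel
def f6439 : fk 7588 6439 19 = true := by decide +kernel
def f6440 : fk 7588 6440 12 = true := by decide +kernel
def f6445 : fk 7588 6445 19 = true := by decide +kernel
def f6454 : fk 7588 6454 9 = true := by decide +kernel
def f6455 : fk 7588 6455 26 = true := by decide +kernel
def f6457 : fk 7588 6457 17 = true := by decide +kernel
def f6463 : fk 7588 6463 15 = true := by decide +kernel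
def f6467 : fk 7588 6467 26 = true := by decide +kernel
def f6480 : fk 7588 6480 14 = true := by decide +kernel
def f6483 : fk 7588 6483 20 = true := by decide +kernel
def f6488 : fk 7588 6488 10 = true := by decide +kernel
def f6492 : fk 7588 6492 14 = true := by decide +kernel
def f6493 : fk 7588 6493 15 = true := by decide +kernel
def f6505 : fk 7588 6505 17 = true := by decide +kernel
def f6514 : fk 7588 6514 9 = true := by decide +kernel
def f6518 : fk 7588 6518 11 = true := by decide +kernel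
def f6522 : fk 7588 6522 12 = true := by decide +kernel
def f6525 : fk 7588 6525 27 = true := by decide +kernel
def f6527 : fk 7588 6527 27 = true := by decide +kernel
def f6531 : fk 7588 6531 23 = true := by decide +kernel
def f6532 : fk 7588 6532 8 = true := by decide +kernel
def f6535 : fk 7588 6535 17 = true := by decide +kernel
def f6540 : fk 7588 6540 13 = true := by decide +kernel
def f6543 : fk 7588 6543 18 = true := by decide +kernel
def f6547 : fk 7588 6547 18 = true := by decide +kernel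
def f6550 : fk 7588 6550 9 = true := by decide +kernel
def f6560 : fk 7588 6560 13 = true := by decide +kernel
def f6567 : fk 7588 6567 26 = true := by decide +kernel
def f6572 : fk 7588 6572 13 = true := by decide +kernel
def f6579 : fk 7588 6579 25 = true := by decide +kernel
def f6592 : fk 7588 6592 9 = true := by decide +kernel
def f6599 : fk 7588 6599 23 = true := by decide +kernel
def f6607 : fk 7588 6607 17 = true := by decide +kernel
def f6611 : fk 7588 6611 25 = true := by decide +kernel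
def f6619 : fk 7588 6619 15 = true := by decide +kernel
def f6622 : fk 7588 6622 7 = true := by decide +kernel
def f6623 : fk 7588 6623 20 = true := by decide +kernel
def f6625 : fk 7588 6625 16 = true := by decide +kernel
def f6626 : fk 7588 6626 11 = true := by decide +kernel
def f6627 : fk 7588 6627 24 = true := by decide +kernel
def f6640 : fk 7588 6640 8 = true := by decide +kernel
def f6643 : fk 7588 6643 11 = true := by decide +kernel
def f6648 : fk 7588 6648 10 = true := by decide +kernel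
def f6662 : fk 7588 6662 12 = true := by decide +kernel
def f6673 : fk 7588 6673 12 = true := by decide +kernel
def f6674 : fk 7588 6674 12 = true := by decide +kernel
def f6677 : fk 7588 6677 23 = true := by decide +kernel
def f6685 : fk 7588 6685 13 = true := by decide +kernel
def f6688 : fk 7588 6688 6 = true := by decide +kernel
def f6689 : fk 7588 6689 21 = true := by decide +kernel
def f6710 : fk 7588 6710 11 = true := by decide +kernel
def f6711 : fk 7588 6711 22 = true := by decide +kernel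
def f6720 : fk 7588 6720 9 = true := by decide +kernel
def f6725 : fk 7588 6725 22 = true := by decide +kernel
def f6730 : fk 7588 6730 6 = true := by decide +kernel
def f6731 : fk 7588 6731 22 = true := by decide +kernel
def f6736 : fk 7588 6736 7 = true := by decide +kernel
def f6744 : fk 7588 6744 11 = true := by decide +kernel
def f6753 : fk 7588 6753 17 = true := by decide +kernel
def f6754 : fk 7588 6754 7 = true := by decide +kernel
def f6758 : fk 7588 6758 9 = true := by decide +kernel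
def f6764 : fk 7588 6764 11 = true := by decide +kernel
def f6768 : fk 7588 6768 8 = true := by decide +kernel
def f6779 : fk 7588 6779 21 = true := by decide +kernel
def f6785 : fk 7588 6785 18 = true := by decide +kernel
def f6788 : fk 7588 6788 8 = true := by decide +kernel
def f6796 : fk 7588 6796 6 = true := by decide +kernel
def f6816 : fk 7588 6816 10 = true := by decide +kernel
def f6818 : fk 7588 6818 6 = true := by decide +kernel
def f6822 : fk 7588 6822 10 = true := by decide +kernel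
def f6831 : fk 7588 6831 19 = true := by decide +kernel
def f6834 : fk 7588 6834 9 = true := by decide +kernel
def f6836 : fk 7588 6836 10 = true := by decide +kernel
def f6838 : fk 7588 6838 6 = true := by decide +kernel
def f6839 : fk 7588 6839 16 = true := by decide +kernel
def f6844 : fk 7588 6844 6 = true := by decide +kernel
def f6849 : fk 7588 6849 19 = true := by decide +kernel
def f6865 : fk 7588 6865 12 = true := by decide +kernel
def f6875 : fk 7588 6875 17 = true := by decide +kernel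
def f6876 : fk 7588 6876 9 = true := by decide +kernel
def f6883 : fk 7588 6883 10 = true := by decide +kernel
def f6886 : fk 7588 6886 6 = true := by decide +kernel
def f6897 : fk 7588 6897 18 = true := by decide +kernel
def f6902 : fk 7588 6902 8 = true := by decide +kernel
def f6903 : fk 7588 6903 14 = true := by decide +kernel
def f6907 : fk 7588 6907 12 = true := by decide +kernel
def f6927 : fk 7588 6927 17 = true := by decide +kernel
def f6928 : fk 7588 6928 5 = true := by decide +kernel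
def f6929 : fk 7588 6929 17 = true := by decide +kernel
def f6932 : fk 7588 6932 8 = true := by decide +kernel
def f6938 : fk 7588 6938 7 = true := by decide +kernel
def f6951 : fk 7588 6951 13 = true := by decide +kernel
def f6968 : fk 7588 6968 7 = true := by decide +kernel
def f6972 : fk 7588 6972 7 = true := by decide +kernel
def f6973 : fk 7588 6973 9 = true := by decide +kernel
def f6975 : fk 7588 6975 16 = true := by decide +kernel
def f6977 : fk 7588 6977 14 = true := by decide +kernel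
def f6978 : fk 7588 6978 7 = true := by decide +kernel
def f6983 : fk 7588 6983 11 = true := by decide +kernel
def f6994 : fk 7588 6994 5 = true := by decide +kernel
def f7000 : fk 7588 7000 5 = true := by decide +kernel
def f7002 : fk 7588 7002 8 = true := by decide +kernel
def f7014 : fk 7588 7014 7 = true := by decide +kernel
def f7015 : fk 7588 7015 10 = true := by decide +kernel
def f7018 : fk 7588 7018 4 = true := by decide +kernel
def f7019 : fk 7588 7019 15 = true := by decide +kernel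
def f7020 : fk 7588 7020 8 = true := by decide +kernel
def f7025 : fk 7588 7025 15 = true := by decide +kernel
def f7033 : fk 7588 7033 8 = true := by decide +kernel
def f7039 : fk 7588 7039 10 = true := by decide +kernel
def f7042 : fk 7588 7042 4 = true := by decide +kernel
def f7048 : fk 7588 7048 4 = true := by decide +kernel
def f7050 : fk 7588 7050 7 = true := by decide +kernel
def f7058 : fk 7588 7058 6 = true := by decide +kernel
def f7064 : fk 7588 7064 7 = true := by decide +kernel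
def f7067 : fk 7588 7067 14 = true := by decide +kernel
def f7070 : fk 7588 7070 6 = true := by decide +kernel
def f7072 : fk 7588 7072 5 = true := by decide +kernel
def f7073 : fk 7588 7073 11 = true := by decide +kernel
def f7075 : fk 7588 7075 9 = true := by decide +kernel
def f7076 : fk 7588 7076 7 = true := by decide +kernel
def f7092 : fk 7588 7092 7 = true := by decide +kernel
def f7093 : fk 7588 7093 7 = true := by decide +kernel
def f7096 : fk 7588 7096 5 = true := by decide +kernel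
def f7098 : fk 7588 7098 5 = true := by decide +kernel
def f7102 : fk 7588 7102 5 = true := by decide +kernel
def f7103 : fk 7588 7103 10 = true := by decide +kernel
def f7105 : fk 7588 7105 7 = true := by decide +kernel
def f7106 : fk 7588 7106 7 = true := by decide +kernel
def f7107 : fk 7588 7107 11 = true := by decide +kernel
def f7112 : fk 7588 7112 5 = true := by decide +kernel
def f7123 : fk 7588 7123 7 = true := by decide +kernel
def f7129 : fk 7588 7129 8 = true := by decide +kernel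
def f7132 : fk 7588 7132 4 = true := by decide +kernel
def f7133 : fk 7588 7133 8 = true := by decide +kernel
def f7142 : fk 7588 7142 6 = true := by decide +kernel
def f7146 : fk 7588 7146 5 = true := by decide +kernel
def f7152 : fk 7588 7152 6 = true := by decide +kernel
def f7155 : fk 7588 7155 11 = true := by decide +kernel
def f7161 : fk 7588 7161 10 = true := by decide +kernel
def f7162 : fk 7588 7162 4 = true := by decide +kernel
def f7169 : fk 7588 7169 11 = true := by decide +kernel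
def f7171 : fk 7588 7171 7 = true := by decide +kernel
def f7191 : fk 7588 7191 10 = true := by decide +kernel
def f7207 : fk 7588 7207 7 = true := by decide +kernel
def f7208 : fk 7588 7208 4 = true := by decide +kernel
def f7212 : fk 7588 7212 5 = true := by decide +kernel
def f7216 : fk 7588 7216 4 = true := by decide +kernel
def f7217 : fk 7588 7217 8 = true := by decide +kernel
def f7223 : fk 7588 7223 8 = true := by decide +kernel
def f7224 : fk 7588 7224 4 = true := by decide +kernel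
def f7225 : fk 7588 7225 6 = true := by decide +kernel
def f7238 : fk 7588 7238 4 = true := by decide +kernel
def f7258 : fk 7588 7258 3 = true := by decide +kernel
def f7266 : fk 7588 7266 4 = true := by decide +kernel
def f7268 : fk 7588 7268 4 = true := by decide +kernel
def f7273 : fk 7588 7273 4 = true := by decide +kernel
def f7275 : fk 7588 7275 8 = true := by decide +kernel
def f7277 : fk 7588 7277 8 = true := by decide +kernel
def f7279 : fk 7588 7279 6 = true := by decide +kernel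
def f7284 : fk 7588 7284 4 = true := by decide +kernel
def f7285 : fk 7588 7285 6 = true := by decide +kernel
def f7289 : fk 7588 7289 7 = true := by decide +kernel
def f7290 : fk 7588 7290 4 = true := by decide +kernel
def f7293 : fk 7588 7293 6 = true := by decide +kernel
def f7296 : fk 7588 7296 4 = true := by decide +kernel
def f7303 : fk 7588 7303 4 = true := by decide +kernel
def f7312 : fk 7588 7312 3 = true := by decide +kernel
def f7317 : fk 7588 7317 7 = true := by decide +kernel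
def f7320 : fk 7588 7320 4 = true := by decide +kernel
def f7325 : fk 7588 7325 7 = true := by decide +kernel
def f7328 : fk 7588 7328 3 = true := by decide +kernel
def f7329 : fk 7588 7329 6 = true := by decide +kernel
def f7334 : fk 7588 7334 4 = true := by decide +kernel
def f7340 : fk 7588 7340 4 = true := by decide +kernel
def f7341 : fk 7588 7341 6 = true := by decide +kernel
def f7344 : fk 7588 7344 4 = true := by decide +kernel
def f7347 : fk 7588 7347 7 = true := by decide +kernel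
def f7352 : fk 7588 7352 3 = true := by decide +kernel
def f7357 : fk 7588 7357 4 = true := by decide +kernel
def f7360 : fk 7588 7360 2 = true := by decide +kernel
def f7362 : fk 7588 7362 3 = true := by decide +kernel
def f7363 : fk 7588 7363 4 = true := by decide +kernel
def f7366 : fk 7588 7366 2 = true := by decide +kernel
def f7375 : fk 7588 7375 4 = true := by decide +kernel
def f7376 : fk 7588 7376 3 = true := by decide +kernel
def f7381 : fk 7588 7381 4 = true := by decide +kernel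
def f7382 : fk 7588 7382 3 = true := by decide +kernel
def f7392 : fk 7588 7392 3 = true := by decide +kernel
def f7393 : fk 7588 7393 3 = true := by decide +kernel
def f7396 : fk 7588 7396 2 = true := by decide +kernel
def f7398 : fk 7588 7398 2 = true := by decide +kernel
def f7405 : fk 7588 7405 4 = true := by decide +kernel
def f7406 : fk 7588 7406 2 = true := by decide +kernel
def f7410 : fk 7588 7410 3 = true := by decide +kernel
def f7411 : fk 7588 7411 3 = true := by decide +kernel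
def f7413 : fk 7588 7413 4 = true := by decide +kernel
def f7414 : fk 7588 7414 2 = true := by decide +kernel
def f7415 : fk 7588 7415 5 = true := by decide +kernel
def f7417 : fk 7588 7417 3 = true := by decide +kernel
def f7418 : fk 7588 7418 2 = true := by decide +kernel
def f7431 : fk 7588 7431 4 = true := by decide +kernel
def f7433 : fk 7588 7433 4 = true := by decide +kernel
def f7435 : fk 7588 7435 3 = true := by decide +kernel
def f7439 : fk 7588 7439 4 = true := by decide +kernel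
def f7441 : fk 7588 7441 3 = true := by decide +kernel
def f7448 : fk 7588 7448 2 = true := by decide +kernel
def f7451 : fk 7588 7451 4 = true := by decide +kernel
def f7455 : fk 7588 7455 3 = true := by decide +kernel
def f7458 : fk 7588 7458 2 = true := by decide +kernel
def f7462 : fk 7588 7462 1 = true := by decide +kernel
def f7470 : fk 7588 7470 2 = true := by decide +kernel
def f7473 : fk 7588 7473 3 = true := by decide +kernel
def f7475 : fk 7588 7475 3 = true := by decide +kernel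
def f7478 : fk 7588 7478 2 = true := by decide +kernel
def f7485 : fk 7588 7485 3 = true := by decide +kernel
def f7488 : fk 7588 7488 2 = true := by decide +kernel
def f7489 : fk 7588 7489 2 = true := by decide +kernel
def f7491 : fk 7588 7491 3 = true := by decide +kernel
def f7492 : fk 7588 7492 1 = true := by decide +kernel
def f7500 : fk 7588 7500 2 = true := by decide +kernel
def f7503 : fk 7588 7503 2 = true := by decide +kernel
def f7505 : fk 7588 7505 3 = true := by decide +kernel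
def f7506 : fk 7588 7506 2 = true := by decide +kernel
def f7507 : fk 7588 7507 2 = true := by decide +kernel
def f7512 : fk 7588 7512 1 = true := by decide +kernel
def f7514 : fk 7588 7514 1 = true := by decide +kernel
def f7518 : fk 7588 7518 1 = true := by decide +kernel
def f7522 : fk 7588 7522 1 = true := by decide +kernel
def f7527 : fk 7588 7527 2 = true := by decide +kernel
def f7529 : fk 7588 7529 2 = true := by decide +kernel
def f7532 : fk 7588 7532 1 = true := by decide +kernel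
def f7534 : fk 7588 7534 1 = true := by decide +kernel
def f7540 : fk 7588 7540 1 = true := by decide +kernel
def f7543 : fk 7588 7543 1 = true := by decide +kernel
def f7545 : fk 7588 7545 2 = true := by decide +kernel
def f7546 : fk 7588 7546 1 = true := by decide +kernel
def f7555 : fk 7588 7555 1 = true := by decide +kernel
def f7558 : fk 7588 7558 1 = true := by decide +kernel
def f7568 : fk 7588 7568 1 = true := by decide +kernel
def f7569 : fk 7588 7569 1 = true := by decide +kernel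
def f7576 : fk 7588 7576 1 = true := by decide +kernel
def f7579 : fk 7588 7579 1 = true := by decide +kernel
def f7587 : fk 7588 7587 1 = true := by decide +kernel

theorem fer : ∀ k ∈ [6260, 6262, 6270, 6272, 6274, 6275, 6284, 6285, 6287, 6293, 6299, 6302, 6305, 6310, 6320, 6323, 6325, 6327, 6328, 6337, 6340, 6345, 6348, 6349, 6353, 6357, 6361, 6363, 6364, 6365, 6367, 6371, 6376, 6383, 6386, 6392, 6397, 6404, 6409, 6412, 6417, 6425, 6438, 6439, 6440, 6445, 6454, 6455, 6457, 6463, 6467, 6480, 6483, 6488, 6492, 6493, 6505, 6514, 6518, 6522, 6525, 6527, 6531, 6532, 6535, 6540, 6543, 6547, 6550, 6560, 6567, 6572, 6579, 6592, 6599, 6607, 6611, 6619, 6622, 6623, 6625, 6626, 6627, 6640, 6643, 6648, 6662, 6673, 6674, 6677, 6685, 6688, 6689, 6710, 6711, 6720, 6725, 6730, 6731, 6736, 6744, 6753, 6754, 6758, 6764, 6768, 6779, 6785, 6788, 6796, 6816, 6818, 6822, 6831, 6834, 6836, 6838, 6839, 6844, 6849, 6865, 6875, 6876, 6883, 6886, 6897, 6902, 6903, 6907, 6927, 6928, 6929,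 6932, 6938, 6951, 6968, 6972, 6973, 6975, 6977, 6978, 6983, 6994, 7000, 7002, 7014, 7015, 7018, 7019, 7020, 7025, 7033, 7039, 7042, 7048, 7050, 7058, 7064, 7067, 7070, 7072, 7073, 7075, 7076, 7092, 7093, 7096, 7098, 7102, 7103, 7105, 7106, 7107, 7112, 7123, 7129, 7132, 7133, 7142, 7146, 7152, 7155, 7161, 7162, 7169, 7171, 7191, 7207, 7208, 7212, 7216, 7217, 7223, 7224, 7225, 7238, 7258, 7266, 7268, 7273, 7275, 7277, 7279, 7284, 7285, 7289, 7290, 7293, 7296, 7303, 7312, 7317, 7320, 7325, 7328, 7329, 7334, 7340, 7341, 7344, 7347, 7352, 7357, 7360, 7362, 7363, 7366, 7375, 7376, 7381, 7382, 7392, 7393, 7396, 7398, 7405, 7406, 7410, 7411, 7413, 7414, 7415, 7417, 7418, 7431, 7433, 7435, 7439, 7441, 7448, 7451, 7455, 7458, 7462, 7470, 7473, 7475, 7478, 7485, 7488, 7489, 7491, 7492, 7500, 7503, 7505, 7506, 7507, 7512, 7514, 7518, 7522, 7527, 7529, 7532, 7534, 7540, 7543, 7545, 7546, 7555, 7558, 7568, 7569, 7576, 7579, 7587], ¬ (num 7588 k).Prime :=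
  cons_ok (fk_spec _ _ _ f6260) <|
  cons_ok (fk_spec _ _ _ f6262) <|
  cons_ok (fk_spec _ _ _ f6270) <|
  cons_ok (fk_spec _ _ _ f6272) <|
  cons_ok (fk_spec _ _ _ f6274) <|
  cons_ok (fk_spec _ _ _ f6275) <|
  cons_ok (fk_spec _ _ _ f6284) <|
  cons_ok (fk_spec _ _ _ f6285) <|
  cons_ok (fk_spec _ _ _ f6287) <|
  cons_ok (fk_spec _ _ _ f6293) <|
  cons_ok (fk_spec _ _ _ f6299) <|
  cons_ok (fk_spec _ _ _ f6302) <|
  cons_ok (fk_spec _ _ _ f6305) <|
  cons_ok (fk_spec _ _ _ f6310) <|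
  cons_ok (fk_spec _ _ _ f6320) <|
  cons_ok (fk_spec _ _ _ f6323) <|
  cons_ok (fk_spec _ _ _ f6325) <|
  cons_ok (fk_spec _ _ _ f6327) <|
  cons_ok (fk_spec _ _ _ f6328) <|
  cons_ok (fk_spec _ _ _ f6337) <|
  cons_ok (fk_spec _ _ _ f6340) <|
  cons_ok (fk_spec _ _ _ f6345) <|
  cons_ok (fk_spec _ _ _ f6348) <|
  cons_ok (fk_spec _ _ _ f6349) <|
  cons_ok (fk_spec _ _ _ f6353) <|
  cons_ok (fk_spec _ _ _ f6357) <|
  cons_ok (fk_spec _ _ _ f6361) <|
  cons_ok (fk_spec _ _ _ f6363) <|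
  cons_ok (fk_spec _ _ _ f6364) <|
  cons_ok (fk_spec _ _ _ f6365) <|
  cons_ok (fk_spec _ _ _ f6367) <|
  cons_ok (fk_spec _ _ _ f6371) <|
  cons_ok (fk_spec _ _ _ f6376) <|
  cons_ok (fk_spec _ _ _ f6383) <|
  cons_ok (fk_spec _ _ _ f6386) <|
  cons_ok (fk_spec _ _ _ f6392) <|
  cons_ok (fk_spec _ _ _ f6397) <|
  cons_ok (fk_spec _ _ _ f6404) <|
  cons_ok (fk_spec _ _ _ f6409) <|
  cons_ok (fk_spec _ _ _ f6412) <|
  cons_ok (fk_spec _ _ _ f6417) <|
  cons_ok (fk_spec _ _ _ f6425) <|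
  cons_ok (fk_spec _ _ _ f6438) <|
  cons_ok (fk_spec _ _ _ f6439) <|
  cons_ok (fk_spec _ _ _ f6440) <|
  cons_ok (fk_spec _ _ _ f6445) <|
  cons_ok (fk_spec _ _ _ f6454) <|
  cons_ok (fk_spec _ _ _ f6455) <|
  cons_ok (fk_spec _ _ _ f6457) <|
  cons_ok (fk_spec _ _ _ f6463) <|
  cons_ok (fk_spec _ _ _ f6467) <|
  cons_ok (fk_spec _ _ _ f6480) <|
  cons_ok (fk_spec _ _ _ f6483) <|
  cons_ok (fk_spec _ _ _ f6488) <|
  cons_ok (fk_spec _ _ _ f6492) <|
  cons_ok (fk_spec _ _ _ f6493) <|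
  cons_ok (fk_spec _ _ _ f6505) <|
  cons_ok (fk_spec _ _ _ f6514) <|
  cons_ok (fk_spec _ _ _ f6518) <|
  cons_ok (fk_spec _ _ _ f6522) <|
  cons_ok (fk_spec _ _ _ f6525) <|
  cons_ok (fk_spec _ _ _ f6527) <|
  cons_ok (fk_spec _ _ _ f6531) <|
  cons_ok (fk_spec _ _ _ f6532) <|
  cons_ok (fk_spec _ _ _ f6535) <|
  cons_ok (fk_spec _ _ _ f6540) <|
  cons_ok (fk_spec _ _ _ f6543) <|
  cons_ok (fk_spec _ _ _ f6547) <|
  cons_ok (fk_spec _ _ _ f6550) <|
  cons_ok (fk_spec _ _ _ f6560) <|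
  cons_ok (fk_spec _ _ _ f6567) <|
  cons_ok (fk_spec _ _ _ f6572) <|
  cons_ok (fk_spec _ _ _ f6579) <|
  cons_ok (fk_spec _ _ _ f6592) <|
  cons_ok (fk_spec _ _ _ f6599) <|
  cons_ok (fk_spec _ _ _ f6607) <|
  cons_ok (fk_spec _ _ _ f6611) <|
  cons_ok (fk_spec _ _ _ f6619) <|
  cons_ok (fk_spec _ _ _ f6622) <|
  cons_ok (fk_spec _ _ _ f6623) <|
  cons_ok (fk_spec _ _ _ f6625) <|
  cons_ok (fk_spec _ _ _ f6626) <|
  cons_ok (fk_spec _ _ _ f6627) <|
  cons_ok (fk_spec _ _ _ f6640) <|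
  cons_ok (fk_spec _ _ _ f6643) <|
  cons_ok (fk_spec _ _ _ f6648) <|
  cons_ok (fk_spec _ _ _ f6662) <|
  cons_ok (fk_spec _ _ _ f6673) <|
  cons_ok (fk_spec _ _ _ f6674) <|
  cons_ok (fk_spec _ _ _ f6677) <|
  cons_ok (fk_spec _ _ _ f6685) <|
  cons_ok (fk_spec _ _ _ f6688) <|
  cons_ok (fk_spec _ _ _ f6689) <|
  cons_ok (fk_spec _ _ _ f6710) <|
  cons_ok (fk_spec _ _ _ f6711) <|
  cons_ok (fk_spec _ _ _ f6720) <|
  cons_ok (fk_spec _ _ _ f6725) <|
  cons_ok (fk_spec _ _ _ f6730) <|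
  cons_ok (fk_spec _ _ _ f6731) <|
  cons_ok (fk_spec _ _ _ f6736) <|
  cons_ok (fk_spec _ _ _ f6744) <|
  cons_ok (fk_spec _ _ _ f6753) <|
  cons_ok (fk_spec _ _ _ f6754) <|
  cons_ok (fk_spec _ _ _ f6758) <|
  cons_ok (fk_spec _ _ _ f6764) <|
  cons_ok (fk_spec _ _ _ f6768) <|
  cons_ok (fk_spec _ _ _ f6779) <|
  cons_ok (fk_spec _ _ _ f6785) <|
  cons_ok (fk_spec _ _ _ f6788) <|
  cons_ok (fk_spec _ _ _ f6796) <|
  cons_ok (fk_spec _ _ _ f6816) <|
  cons_ok (fk_spec _ _ _ f6818) <|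
  cons_ok (fk_spec _ _ _ f6822) <|
  cons_ok (fk_spec _ _ _ f6831) <|
  cons_ok (fk_spec _ _ _ f6834) <|
  cons_ok (fk_spec _ _ _ f6836) <|
  cons_ok (fk_spec _ _ _ f6838) <|
  cons_ok (fk_spec _ _ _ f6839) <|
  cons_ok (fk_spec _ _ _ f6844) <|
  cons_ok (fk_spec _ _ _ f6849) <|
  cons_ok (fk_spec _ _ _ f6865) <|
  cons_ok (fk_spec _ _ _ f6875) <|
  cons_ok (fk_spec _ _ _ f6876) <|
  cons_ok (fk_spec _ _ _ f6883) <|
  cons_ok (fk_spec _ _ _ f6886) <|
  cons_ok (fk_spec _ _ _ f6897) <|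
  cons_ok (fk_spec _ _ _ f6902) <|
  cons_ok (fk_spec _ _ _ f6903) <|
  cons_ok (fk_spec _ _ _ f6907) <|
  cons_ok (fk_spec _ _ _ f6927) <|
  cons_ok (fk_spec _ _ _ f6928) <|
  cons_ok (fk_spec _ _ _ f6929) <|
  cons_ok (fk_spec _ _ _ f6932) <|
  cons_ok (fk_spec _ _ _ f6938) <|
  cons_ok (fk_spec _ _ _ f6951) <|
  cons_ok (fk_spec _ _ _ f6968) <|
  cons_ok (fk_spec _ _ _ f6972) <|
  cons_ok (fk_spec _ _ _ f6973) <|
  cons_ok (fk_spec _ _ _ f6975) <|
  cons_ok (fk_spec _ _ _ f6977) <|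
  cons_ok (fk_spec _ _ _ f6978) <|
  cons_ok (fk_spec _ _ _ f6983) <|
  cons_ok (fk_spec _ _ _ f6994) <|
  cons_ok (fk_spec _ _ _ f7000) <|
  cons_ok (fk_spec _ _ _ f7002) <|
  cons_ok (fk_spec _ _ _ f7014) <|
  cons_ok (fk_spec _ _ _ f7015) <|
  cons_ok (fk_spec _ _ _ f7018) <|
  cons_ok (fk_spec _ _ _ f7019) <|
  cons_ok (fk_spec _ _ _ f7020) <|
  cons_ok (fk_spec _ _ _ f7025) <|
  cons_ok (fk_spec _ _ _ f7033) <|
  cons_ok (fk_spec _ _ _ f7039) <|
  cons_ok (fk_spec _ _ _ f7042) <|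
  cons_ok (fk_spec _ _ _ f7048) <|
  cons_ok (fk_spec _ _ _ f7050) <|
  cons_ok (fk_spec _ _ _ f7058) <|
  cons_ok (fk_spec _ _ _ f7064) <|
  cons_ok (fk_spec _ _ _ f7067) <|
  cons_ok (fk_spec _ _ _ f7070) <|
  cons_ok (fk_spec _ _ _ f7072) <|
  cons_ok (fk_spec _ _ _ f7073) <|
  cons_ok (fk_spec _ _ _ f7075) <|
  cons_ok (fk_spec _ _ _ f7076) <|
  cons_ok (fk_spec _ _ _ f7092) <|
  cons_ok (fk_spec _ _ _ f7093) <|
  cons_ok (fk_spec _ _ _ f7096) <|
  cons_ok (fk_spec _ _ _ f7098) <|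
  cons_ok (fk_spec _ _ _ f7102) <|
  cons_ok (fk_spec _ _ _ f7103) <|
  cons_ok (fk_spec _ _ _ f7105) <|
  cons_ok (fk_spec _ _ _ f7106) <|
  cons_ok (fk_spec _ _ _ f7107) <|
  cons_ok (fk_spec _ _ _ f7112) <|
  cons_ok (fk_spec _ _ _ f7123) <|
  cons_ok (fk_spec _ _ _ f7129) <|
  cons_ok (fk_spec _ _ _ f7132) <|
  cons_ok (fk_spec _ _ _ f7133) <|
  cons_ok (fk_spec _ _ _ f7142) <|
  cons_ok (fk_spec _ _ _ f7146) <|
  cons_ok (fk_spec _ _ _ f7152) <|
  cons_ok (fk_spec _ _ _ f7155) <|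
  cons_ok (fk_spec _ _ _ f7161) <|
  cons_ok (fk_spec _ _ _ f7162) <|
  cons_ok (fk_spec _ _ _ f7169) <|
  cons_ok (fk_spec _ _ _ f7171) <|
  cons_ok (fk_spec _ _ _ f7191) <|
  cons_ok (fk_spec _ _ _ f7207) <|
  cons_ok (fk_spec _ _ _ f7208) <|
  cons_ok (fk_spec _ _ _ f7212) <|
  cons_ok (fk_spec _ _ _ f7216) <|
  cons_ok (fk_spec _ _ _ f7217) <|
  cons_ok (fk_spec _ _ _ f7223) <|
  cons_ok (fk_spec _ _ _ f7224) <|
  cons_ok (fk_spec _ _ _ f7225) <|
  cons_ok (fk_spec _ _ _ f7238) <|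
  cons_ok (fk_spec _ _ _ f7258) <|
  cons_ok (fk_spec _ _ _ f7266) <|
  cons_ok (fk_spec _ _ _ f7268) <|
  cons_ok (fk_spec _ _ _ f7273) <|
  cons_ok (fk_spec _ _ _ f7275) <|
  cons_ok (fk_spec _ _ _ f7277) <|
  cons_ok (fk_spec _ _ _ f7279) <|
  cons_ok (fk_spec _ _ _ f7284) <|
  cons_ok (fk_spec _ _ _ f7285) <|
  cons_ok (fk_spec _ _ _ f7289) <|
  cons_ok (fk_spec _ _ _ f7290) <|
  cons_ok (fk_spec _ _ _ f7293) <|
  cons_ok (fk_spec _ _ _ f7296) <|
  cons_ok (fk_spec _ _ _ f7303) <|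
  cons_ok (fk_spec _ _ _ f7312) <|
  cons_ok (fk_spec _ _ _ f7317) <|
  cons_ok (fk_spec _ _ _ f7320) <|
  cons_ok (fk_spec _ _ _ f7325) <|
  cons_ok (fk_spec _ _ _ f7328) <|
  cons_ok (fk_spec _ _ _ f7329) <|
  cons_ok (fk_spec _ _ _ f7334) <|
  cons_ok (fk_spec _ _ _ f7340) <|
  cons_ok (fk_spec _ _ _ f7341) <|
  cons_ok (fk_spec _ _ _ f7344) <|
  cons_ok (fk_spec _ _ _ f7347) <|
  cons_ok (fk_spec _ _ _ f7352) <|
  cons_ok (fk_spec _ _ _ f7357) <|
  cons_ok (fk_spec _ _ _ f7360) <|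
  cons_ok (fk_spec _ _ _ f7362) <|
  cons_ok (fk_spec _ _ _ f7363) <|
  cons_ok (fk_spec _ _ _ f7366) <|
  cons_ok (fk_spec _ _ _ f7375) <|
  cons_ok (fk_spec _ _ _ f7376) <|
  cons_ok (fk_spec _ _ _ f7381) <|
  cons_ok (fk_spec _ _ _ f7382) <|
  cons_ok (fk_spec _ _ _ f7392) <|
  cons_ok (fk_spec _ _ _ f7393) <|
  cons_ok (fk_spec _ _ _ f7396) <|
  cons_ok (fk_spec _ _ _ f7398) <|
  cons_ok (fk_spec _ _ _ f7405) <|
  cons_ok (fk_spec _ _ _ f7406) <|
  cons_ok (fk_spec _ _ _ f7410) <|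
  cons_ok (fk_spec _ _ _ f7411) <|
  cons_ok (fk_spec _ _ _ f7413) <|
  cons_ok (fk_spec _ _ _ f7414) <|
  cons_ok (fk_spec _ _ _ f7415) <|
  cons_ok (fk_spec _ _ _ f7417) <|
  cons_ok (fk_spec _ _ _ f7418) <|
  cons_ok (fk_spec _ _ _ f7431) <|
  cons_ok (fk_spec _ _ _ f7433) <|
  cons_ok (fk_spec _ _ _ f7435) <|
  cons_ok (fk_spec _ _ _ f7439) <|
  cons_ok (fk_spec _ _ _ f7441) <|
  cons_ok (fk_spec _ _ _ f7448) <|
  cons_ok (fk_spec _ _ _ f7451) <|
  cons_ok (fk_spec _ _ _ f7455) <|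
  cons_ok (fk_spec _ _ _ f7458) <|
  cons_ok (fk_spec _ _ _ f7462) <|
  cons_ok (fk_spec _ _ _ f7470) <|
  cons_ok (fk_spec _ _ _ f7473) <|
  cons_ok (fk_spec _ _ _ f7475) <|
  cons_ok (fk_spec _ _ _ f7478) <|
  cons_ok (fk_spec _ _ _ f7485) <|
  cons_ok (fk_spec _ _ _ f7488) <|
  cons_ok (fk_spec _ _ _ f7489) <|
  cons_ok (fk_spec _ _ _ f7491) <|
  cons_ok (fk_spec _ _ _ f7492) <|
  cons_ok (fk_spec _ _ _ f7500) <|
  cons_ok (fk_spec _ _ _ f7503) <|
  cons_ok (fk_spec _ _ _ f7505) <|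
  cons_ok (fk_spec _ _ _ f7506) <|
  cons_ok (fk_spec _ _ _ f7507) <|
  cons_ok (fk_spec _ _ _ f7512) <|
  cons_ok (fk_spec _ _ _ f7514) <|
  cons_ok (fk_spec _ _ _ f7518) <|
  cons_ok (fk_spec _ _ _ f7522) <|
  cons_ok (fk_spec _ _ _ f7527) <|
  cons_ok (fk_spec _ _ _ f7529) <|
  cons_ok (fk_spec _ _ _ f7532) <|
  cons_ok (fk_spec _ _ _ f7534) <|
  cons_ok (fk_spec _ _ _ f7540) <|
  cons_ok (fk_spec _ _ _ f7543) <|
  cons_ok (fk_spec _ _ _ f7545) <|
  cons_ok (fk_spec _ _ _ f7546) <|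
  cons_ok (fk_spec _ _ _ f7555) <|
  cons_ok (fk_spec _ _ _ f7558) <|
  cons_ok (fk_spec _ _ _ f7568) <|
  cons_ok (fk_spec _ _ _ f7569) <|
  cons_ok (fk_spec _ _ _ f7576) <|
  cons_ok (fk_spec _ _ _ f7579) <|
  cons_ok (fk_spec _ _ _ f7587) <|
  nil_ok 7588

theorem rng : ∀ k, 6256 ≤ k → k < 7588 → ¬ (num 7588 k).Prime :=
  range_of 7588 6256 7588 [11, 139, 31, 13781, 0, 5, 0, 13, 919, 599, 47, 43, 7, 3733, 0, 191, 0, 31, 0, 0, 587, 138191, 59, 313, 8623, 5, 173, 125207, 0, 0, 47, 0, 139, 39541, 17761, 131507, 173, 0, 353, 1013, 23, 19, 307, 0, 43, 4519, 0, 503, 1009, 0, 1223, 199, 197, 11, 0, 17, 276049, 192091, 347, 29, 23293, 37, 41, 1533283, 0, 47, 1733, 0, 137, 0, 5, 0, 0, 6793, 139, 7, 307, 107, 79, 29, 8101, 0, 7, 19, 0, 9839, 11, 11, 107, 0, 1667, 61, 0, 0, 53, 521, 293, 0, 11, 93179, 47, 0, 787, 17, 193, 0, 1291, 0, 0, 0, 11, 0, 283, 139, 193, 0, 251, 3251, 15361, 37, 0, 11, 1723, 107, 45757, 208511, 283, 0, 419, 37, 0, 197, 1889, 29, 149, 615821, 0, 8443,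 3671, 59, 617, 0, 53, 19, 53, 5, 47, 311, 0, 331, 13, 12647, 7, 0, 17, 23, 0, 71, 23, 7, 73, 0, 883, 53, 11, 401, 23, 83, 1109, 0, 86389, 17, 31, 4397, 613, 11, 31, 463, 23, 67, 317, 4007, 0, 0, 0, 2347, 73, 11, 761, 0, 5, 17, 11, 19, 23, 87671, 89, 383, 0, 0, 17, 0, 553139, 11, 41, 17, 43, 0, 7, 11, 157561, 0, 4243, 113, 41759, 31, 43, 53, 118589, 490891, 11, 53, 23, 47, 0, 293, 367, 0, 311, 853, 1429, 11, 0, 29, 131, 31, 0, 0, 26921, 17, 11, 499, 11, 7523, 4973, 5, 29, 108499, 53, 0, 1019, 17, 461, 29, 19, 103, 1543, 71353, 0, 1321, 6599, 83, 0, 157, 11, 4951, 0, 13, 47, 0, 419201, 0, 43801, 847493, 11, 0, 0, 6710729, 253853, 0, 13, 479, 242863, 71, 0, 11, 11, 0, 19, 24799, 797, 0, 19, 23, 0, 1109, 23, 1019, 1583, 691, 863, 67, 11, 236461, 0, 353, 103, 29, 11, 181, 883, 0, 211, 11, 19, 67, 0, 56731, 109, 11, 7, 2153, 149, 0, 11, 509, 107, 41, 197, 41, 11, 2216117, 29, 23, 79, 137, 0, 401, 509, 47, 29, 929, 227, 0, 1117, 19, 11, 15451, 7, 47807, 5, 0, 23, 7369, 101,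 0, 157259, 37, 83, 20431, 743, 4447, 31, 0, 167987, 5, 0, 0, 67, 0, 0, 0, 607, 11, 61, 271, 7, 373, 37, 1301219, 99707, 2239, 139, 137, 0, 5, 59, 0, 359147, 29, 40939, 59, 0, 31, 59, 11, 199, 79, 561347, 6133, 2963, 31, 20611, 281, 8647, 31, 0, 167633, 59, 443, 37171, 3907, 23741, 241, 47, 37, 379, 0, 0, 29, 157, 0, 2819, 137, 613, 5, 17, 317, 73, 0, 8429, 90203, 0, 0, 11, 281641, 401, 8941, 43, 53, 19, 251, 43, 17, 281641, 5, 19, 2243, 23, 9483893, 210229, 179, 73, 7, 0, 0, 11, 83, 57203, 53, 43, 179, 13, 17, 0, 29, 997, 11, 821, 0, 5, 14723, 11, 274213, 0, 0, 337, 7949, 29, 43, 0, 59, 37, 354953, 491, 174931, 41, 4723, 0, 43, 181, 19, 105071, 11, 29, 757, 131, 0, 0, 2383, 79, 383, 0, 23, 6967, 5, 317, 151, 0, 7673, 19, 17, 0, 983, 85889, 37139, 11, 23, 1747, 83, 199343, 187027, 21713, 0, 383, 23, 179, 467, 397, 0, 107, 239, 0, 2781469, 53, 1571833, 1489, 7, 11, 1095989, 0, 47, 61, 97, 7, 5, 173, 409, 743, 622331, 11, 1021, 71, 79, 58997, 79, 1873, 8779, 107, 19,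 0, 11, 0, 29, 47, 29, 0, 1171, 29, 1213, 7559, 223, 229, 37, 1609, 0, 59, 19, 0, 7, 0, 14251, 0, 0, 271, 277, 936007, 19, 0, 29, 47, 31, 11, 0, 107, 191, 73237, 107, 293, 17, 37, 1072199, 47, 43, 449, 5, 450881, 7, 4003, 0, 5, 59, 227, 389, 11, 11, 74761, 47, 5689, 0, 0, 11, 431, 67, 149, 17749, 29, 0, 7, 83, 0, 23, 285827, 677, 19, 23, 41, 859, 31, 991, 127979, 0, 7, 327511, 336577, 354257, 0, 0, 11, 11, 17, 0, 327247, 4657, 112799, 19, 43, 109, 137, 107, 11, 197, 919, 13009, 17, 53003, 27653, 293, 31, 419, 5, 0, 0, 0, 37, 43, 0, 101, 61, 8933, 227, 29, 0, 193, 257, 5, 1013, 19, 239, 17, 139, 53, 11, 17, 433, 0, 41, 241, 17, 515293, 21787, 37, 211, 11, 11, 179, 990923, 2287, 89, 11, 5, 31, 0, 11, 10753, 1181, 0, 0, 43, 0, 199, 0, 0, 397, 11, 5, 7, 0, 1567, 47, 41, 419, 523, 128971, 31, 17, 11, 71, 0, 19, 1277, 37, 499, 12611, 0, 5, 0, 1619, 1063, 19, 1427, 4483, 2099, 22877, 7, 67, 103651, 113, 0, 0, 571, 1723, 0, 0, 0, 31, 76543, 31, 223, 0, 52919, 89, 503, 151,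 274301, 661, 199, 0, 17, 11, 11, 139, 7, 0, 200371, 5, 0, 23, 1129, 79, 5, 1607, 0, 8311, 0, 17, 31, 463, 179, 71, 61, 11, 0, 7, 4337, 47, 577, 83, 0, 47, 23, 0, 331, 13, 0, 563, 0, 0, 3181, 0, 0, 32717, 8677, 11, 3083, 11, 29, 19, 43, 143501, 5, 7, 103, 23, 17, 81409, 0, 0, 23, 941, 0, 9697, 0, 103, 79, 5, 0, 0, 1381, 0, 0, 0, 7, 317, 31, 9199, 0, 1187, 19, 37, 89, 47, 3793, 349, 6803, 5, 73, 0, 23, 11, 47, 17, 61, 0, 11, 233, 0, 0, 2309, 23, 7, 467, 1933, 607, 29, 23, 0, 29, 15731, 23, 0, 11, 386549, 103, 1123, 547399, 0, 281, 773, 0, 11987, 19, 23, 283, 13, 0, 0, 139, 23, 719, 5, 23, 11, 0, 17, 0, 323957, 137, 691, 17, 31, 67, 523, 97, 877, 3911, 77239, 158449, 19, 9323, 14033, 103, 263, 61, 13, 0, 181, 23, 59, 673, 11, 174649, 83, 149, 140617, 61, 11, 349, 101, 31, 5, 0, 0, 488161, 397, 181, 0, 7, 19, 179, 0, 0, 4091, 1667, 7, 5, 71, 0, 0, 0, 17, 271, 109, 11, 47, 89, 157, 191, 7, 11, 883721, 409, 0, 137, 15629, 5, 43, 43, 11, 580747, 17, 19, 7, 5807, 61, 449,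 199, 97, 19, 23, 23, 5449, 0, 167, 197, 6203, 61, 37, 47, 215863, 0, 47, 0, 97, 2221, 543889, 263, 0, 2969, 0, 83, 0, 101, 0, 2657, 5, 47, 71, 0, 0, 5, 999763, 23, 0, 0, 773, 29, 0, 17, 5981, 0, 59, 31, 76757, 11, 229, 23, 0, 7, 319919, 3793, 61, 19, 823, 11, 11, 0, 463, 29, 151, 13, 0, 3467, 108377, 0, 1217, 15823, 41, 167, 0, 5, 19, 0, 0, 577, 53, 7, 349, 0, 727, 271, 19, 3389, 7, 0, 0, 13, 11, 0, 11, 5, 0, 19, 19, 6121, 23, 0, 103, 131, 1481, 11, 0, 31, 79, 0, 5, 0, 0, 83, 19, 0, 11, 13, 727, 5879, 1669, 3011, 97, 6907, 0, 0, 433, 1423, 17, 43, 0, 0, 613, 41, 3259, 19, 409, 7, 59, 601, 17, 0, 0, 3769, 401, 0, 37, 0, 17, 11, 74597, 569, 103, 19, 0, 0, 49891, 79, 11, 0, 0, 1151, 0, 0, 0, 23, 0, 0, 619, 11, 5, 11, 7, 937, 23, 5, 1987, 419, 127, 199, 0, 127, 0, 2879, 0, 23, 13, 257, 0, 2897, 0, 443, 23, 41, 47, 5, 17, 0, 11, 17, 0, 6203, 2699, 11, 0, 61, 43, 0, 17, 311, 5, 0, 191, 17, 7, 29, 43, 89, 8443, 0, 211, 7, 0, 173, 0, 59, 11, 0, 233, 23, 5, 5399, 821, 827,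 0, 7, 79, 0, 0, 653, 0, 0, 311, 89, 29, 3307, 157, 19, 19, 0, 71, 13, 0, 43, 0, 0, 0, 557, 67, 487, 113, 0, 557, 0, 3137, 5939, 61, 0, 787, 89, 5, 0, 887, 13, 31, 5, 0, 389, 0, 11, 11, 0, 29, 0, 2237, 19, 13, 67, 97, 0, 5, 67, 0, 17, 0, 0, 7451, 191, 2789, 197, 47, 17, 3529, 929, 0, 19, 67, 0, 11, 31, 5, 29, 7, 113, 11, 5, 61, 0, 0, 53, 131, 317, 797, 19, 37, 0, 83, 17, 0, 151, 5, 23, 17, 7, 167, 829, 0] _ (by decide +kernel) (by decide +kernel) fer (by decide +kernel)

end Pool.Agent.N682.KK.Z25
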